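import Pool.Agent.Helper853.GreenMain

open scoped Topology ContDiff ComplexOrder ENNReal ComplexConjugate LinearAlgebra.Projectivization
open MeasureTheory Filter

namespace Pool.Agent.Helper853

variable {m : ℕ} {ν : ℝ}

/-- the points of a real curve through the pole -/
noncomputable def xt (m : ℕ) (t : ℝ) : Fin (m + 2) → ℂ := Pi.single 1 (t : ℂ)

lemma xt_zero_apply (t : ℝ) : xt m t 0 = 0 := by
  unfold xt
  rw [Pi.single_apply, if_neg]
  intro h
  have := congrArg Fin.val h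
  simp at this

lemma xt_one_apply (t : ℝ) : xt m t 1 = (t : ℂ) := by
  unfold xt
  rw [Pi.single_apply, if_pos rfl]

lemma norm_xt {t : ℝ} (ht : 0 ≤ t) : ‖xt m t‖ = t := by
  unfold xt
  rw [Pi.norm_single, Complex.norm_real, Real.norm_of_nonneg ht]

lemma homog_xt_i1 (t : ℝ) : homog 0 (xt m t) i1 = 0 := by
  unfold i1
  rw [homog_succ_apply, xt_zero_apply]

lemma homog_xt_i2 (t : ℝ) : homog 0 (xt m t) i2 = (t : ℂ) := by
  unfold i2
  rw [homog_succ_apply]
  exact xt_one_apply t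

/-- the values of the functions of the construction along the curve -/
noncomputable def rr (m : ℕ) (ν t : ℝ) : ℕ → ℝ
  | 0 => 0
  | k + 1 => rr m ν t k ^ 2 + ee m ν k * t ^ (ex ν (k + 1))

lemma PP_xt (t : ℝ) (k : ℕ) : PP m ν k (homog 0 (xt m t)) = ((rr m ν t k : ℝ) : ℂ) := by
  induction k with
  | zero =>
    rw [PP_zero]
    simp only [rr]
    rw [homog_xt_i1]
    simp
  | succ k ih =>
    rw [PP_succ]
    unfold nextP
    rw [ih, homog_zero_apply, homog_xt_i2]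
    simp only [rr]
    push_cast
    ring

lemma rr_nonneg (h0 : 0 < ν) (h1 : ν ≤ 1) {t : ℝ} (ht : 0 < t) (k : ℕ) : 0 ≤ rr m ν t k := by
  cases k with
  | zero => simp [rr]
  | succ k =>
    have := (good_all (m := m) h0 h1 k).2.2.2.1
    simp only [rr]
    positivity

lemma rr_succ_pos (h0 : 0 < ν) (h1 : ν ≤ 1) {t : ℝ} (ht : 0 < t) (k : ℕ) :
    0 < rr m ν t (k + 1) := by
  have := (good_all (m := m) h0 h1 k).2.2.2.1
  simp only [rr]
  positivity

lemma log_rr_mono (h0 : 0 < ν) (h1 : ν ≤ 1) {t : ℝ} (ht : 0 < t) {k l : ℕ} (hkl : k ≤ l) :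
    1 / 2 ^ (k + 1) * Real.log (rr m ν t (k + 1)) ≤
      1 / 2 ^ (l + 1) * Real.log (rr m ν t (l + 1)) := by
  induction l, hkl using Nat.le_induction with
  | base => exact le_rfl
  | succ l hkl ih =>
    refine ih.trans ?_
    have hp := rr_succ_pos (m := m) h0 h1 ht l
    have he := (good_all (m := m) h0 h1 (l + 1)).2.2.2.1
    have h2 : rr m ν t (l + 1) ^ 2 ≤ rr m ν t (l + 1 + 1) := by
      conv_rhs => unfold rr
      have : 0 ≤ ee m ν (l + 1) * t ^ (ex ν (l + 1 + 1)) := by positivity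
      linarith
    have h3 := Real.log_le_log (by positivity) h2
    rw [Real.log_pow] at h3
    push_cast at h3
    calc 1 / 2 ^ (l + 1) * Real.log (rr m ν t (l + 1))
        = 1 / 2 ^ (l + 1 + 1) * (2 * Real.log (rr m ν t (l + 1))) := by
          rw [pow_succ 2 (l + 1)]
          have : (2 : ℝ) ^ (l + 1) ≠ 0 := by positivity
          field_simp
      _ ≤ 1 / 2 ^ (l + 1 + 1) * Real.log (rr m ν t (l + 1 + 1)) := by gcongr

lemma log_rr_ge (h0 : 0 < ν) (h1 : ν ≤ 1) {t : ℝ} (ht : 0 < t) (k : ℕ) :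
    1 / 2 ^ (k + 1) * Real.log (ee m ν k) + (ex ν (k + 1)) / 2 ^ (k + 1) * Real.log t ≤
      1 / 2 ^ (k + 1) * Real.log (rr m ν t (k + 1)) := by
  have he := (good_all (m := m) h0 h1 k).2.2.2.1
  have h2 : ee m ν k * t ^ (ex ν (k + 1)) ≤ rr m ν t (k + 1) := by
    conv_rhs => unfold rr
    have : 0 ≤ rr m ν t k ^ 2 := by positivity
    linarith
  have h3 := Real.log_le_log (by positivity) h2
  rw [Real.log_mul he.ne' (by positivity), Real.log_pow] at h3
  calc 1 / 2 ^ (k + 1) * Real.log (ee m ν k) + (ex ν (k + 1)) / 2 ^ (k + 1) * Real.log t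
      = 1 / 2 ^ (k + 1) * (Real.log (ee m ν k) + (ex ν (k + 1)) * Real.log t) := by ring
    _ ≤ _ := by gcongr

lemma vv_xt_ge (h0 : 0 < ν) (h1 : ν ≤ 1) {t : ℝ} (ht : 0 < t) (l : ℕ) :
    1 / 2 ^ (l + 1) * Real.log (rr m ν t (l + 1)) ≤ vv m ν (l + 1) (homog 0 (xt m t)) := by
  have hp := rr_succ_pos (m := m) h0 h1 ht l
  have hd := (good_all (m := m) h0 h1 (l + 1)).2.1
  have h2 : rr m ν t (l + 1) ^ 2 ≤ TT m ν (l + 1) (homog 0 (xt m t)) := by
    unfold TT
    rw [SS_eq, PP_xt, Complex.norm_real, Real.norm_of_nonneg hp.le]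
    have h3 : 0 ≤ ∑ j : Fin (m + 1), ‖homog 0 (xt m t) j.succ.succ‖ ^ (2 * 2 ^ (l + 1)) :=
      Finset.sum_nonneg fun j _ => by positivity
    have h4 := mul_nonneg hd.le (QQ_nonneg (l + 1) (homog 0 (xt m t)))
    linarith
  have h3 := Real.log_le_log (by positivity) h2
  rw [Real.log_pow] at h3
  push_cast at h3
  unfold vv
  calc 1 / 2 ^ (l + 1) * Real.log (rr m ν t (l + 1))
      = 1 / (2 * 2 ^ (l + 1)) * (2 * Real.log (rr m ν t (l + 1))) := by
        have : (2 : ℝ) ^ (l + 1) ≠ 0 := by positivity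
        field_simp
    _ ≤ _ := by gcongr

lemma xt_ne {t : ℝ} (ht : 0 < t) : xt m t ≠ 0 := by
  intro h
  have h2 := norm_xt (m := m) ht.le
  rw [h, norm_zero] at h2
  linarith

/-- lower bound of the limit potential along the curve -/
lemma VV_xt_ge (h0 : 0 < ν) (h1 : ν ≤ 1) {t : ℝ} (ht : 0 < t) (k : ℕ) :
    1 / 2 ^ (k + 1) * Real.log (ee m ν k) + (ex ν (k + 1)) / 2 ^ (k + 1) * Real.log t ≤
      VV m ν (homog 0 (xt m t)) := by
  have hlim := VV_tendsto (m := m) h0 h1 (tail_homog_ne (xt_ne (m := m) ht))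
  apply ge_of_tendsto hlim
  filter_upwards [eventually_ge_atTop (k + 1)] with l hl
  obtain ⟨l, rfl⟩ : ∃ l', l = l' + 1 := ⟨l - 1, by omega⟩
  exact (log_rr_ge h0 h1 ht k).trans ((log_rr_mono h0 h1 ht (by omega)).trans
    (vv_xt_ge h0 h1 ht l))

lemma fsPot_nonneg {n : ℕ} (x : Fin n → ℂ) : 0 ≤ fsPot x := by
  unfold fsPot
  have : 0 ≤ Real.log (1 + ∑ j, ‖x j‖ ^ 2) := Real.log_nonneg (by
    have : 0 ≤ ∑ j, ‖x j‖ ^ 2 := Finset.sum_nonneg fun j _ => by positivity
    linarith)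
  positivity

lemma fsPot_le {x : Fin (m + 2) → ℂ} (hx : ‖x‖ ≤ 1) : fsPot x ≤ Real.log (m + 3) := by
  have hm : (0 : ℝ) ≤ m := Nat.cast_nonneg m
  unfold fsPot
  have h1 : ∑ j, ‖x j‖ ^ 2 ≤ m + 2 := by
    calc ∑ j, ‖x j‖ ^ 2 ≤ ∑ j : Fin (m + 2), (1 : ℝ) := by
          apply Finset.sum_le_sum
          intro i _
          exact pow_le_one₀ (norm_nonneg _) ((norm_le_pi_norm x i).trans hx)
      _ = m + 2 := by simp
  have h2 : 0 ≤ ∑ j, ‖x j‖ ^ 2 := Finset.sum_nonneg fun j _ => by positivity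
  have h3 : Real.log (1 + ∑ j, ‖x j‖ ^ 2) ≤ Real.log (m + 3) :=
    Real.log_le_log (by linarith) (by linarith)
  have h4 : 0 ≤ Real.log ((m : ℝ) + 3) := Real.log_nonneg (by linarith)
  linarith

lemma GG_chart_zero (h0 : 0 < ν) (h1 : ν ≤ 1) {x : Fin (m + 2) → ℂ} (hx : x ≠ 0) :
    GG m ν (chart 0 x) = ((VV m ν (homog 0 x) - fsPot x : ℝ) : EReal) := by
  unfold chart
  rw [GG_mk h0 h1 _ (tail_homog_ne hx), LL_homog]

lemma chart_eq_pole {i : Fin (m + 3)} {x₀ : Fin (m + 2) → ℂ} (h : chart i x₀ = pole m) :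
    i = 0 ∧ x₀ = 0 := by
  unfold pole chart at h
  rw [Projectivization.mk_eq_mk_iff'] at h
  obtain ⟨a, ha⟩ := h
  have hi : i = 0 := by
    by_contra hne
    obtain ⟨j, rfl⟩ := Fin.exists_succ_eq.mpr hne
    have h2 := congrFun ha j.succ
    simp only [Pi.smul_apply, smul_eq_mul] at h2
    rw [homog_succ_apply] at h2
    simp [homog] at h2
  subst hi
  refine ⟨rfl, ?_⟩
  ext j
  have h2 := congrFun ha j.succ
  simp only [Pi.smul_apply, smul_eq_mul] at h2
  rw [homog_succ_apply, homog_succ_apply] at h2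
  simpa using h2.symm

lemma eventually_norm_le : ∀ᶠ x in 𝓝[≠] (0 : Fin (m + 2) → ℂ), ‖x‖ ≤ 1 := by
  apply mem_nhdsWithin_of_mem_nhds
  have := Metric.closedBall_mem_nhds (0 : Fin (m + 2) → ℂ) one_pos
  filter_upwards [this] with x hx
  simpa using hx

lemma tendsto_xt : Tendsto (xt m) (𝓝[>] 0) (𝓝[≠] 0) := by
  apply tendsto_nhdsWithin_of_tendsto_nhds_of_eventually_within
  · have h : Continuous (xt m) := by
      unfold xt
      exact (continuous_single (A := fun _ : Fin (m + 2) => ℂ) 1).comp Complex.continuous_ofReal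
    have h2 : xt m 0 = 0 := by simp [xt]
    have h3 : Tendsto (xt m) (𝓝 0) (𝓝 (xt m 0)) := h.tendsto 0
    rw [h2] at h3
    exact h3.mono_left nhdsWithin_le_nhds
  · filter_upwards [self_mem_nhdsWithin] with t ht
    exact xt_ne ht

/-- the Lelong number of the Green function at its pole -/
theorem lelong_GG (h0 : 0 < ν) (h1 : ν ≤ 1) : lelong (GG m ν) (pole m) = ν := by
  apply IsGreatest.csSup_eq
  constructor
  · refine ⟨h0.le, ?_⟩
    intro i x₀ hx₀
    obtain ⟨rfl, rfl⟩ := chart_eq_pole hx₀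
    refine ⟨Real.log (m + 2) + Real.log 2, ?_⟩
    filter_upwards [eventually_norm_le, self_mem_nhdsWithin] with x hx hx0
    rw [GG_chart_zero h0 h1 hx0, EReal.coe_le_coe_iff, sub_zero]
    have h2 := VV_near (m := m) h0 h1 hx0 hx
    have h3 := fsPot_nonneg x
    linarith
  · rintro γ ⟨-, hγ⟩
    by_contra hcon
    push Not at hcon
    obtain ⟨C, hC⟩ := hγ 0 0 rfl
    -- choose the index
    obtain ⟨k, hk⟩ : ∃ k : ℕ, (1 / 2 : ℝ) ^ (k + 1) < γ - ν := by
      obtain ⟨k, hk⟩ := exists_pow_lt_of_lt_one (show (0 : ℝ) < γ - ν by linarith)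
        (show (1 / 2 : ℝ) < 1 by norm_num)
      refine ⟨k, lt_of_le_of_lt ?_ hk⟩
      rw [pow_succ]
      have : (0 : ℝ) < (1 / 2) ^ k := by positivity
      linarith
    have hek : (ex ν (k + 1) : ℝ) / 2 ^ (k + 1) < γ := by
      have h2 := ex_lt h0 (k + 1)
      have h3 : (0 : ℝ) < 2 ^ (k + 1) := by positivity
      rw [one_div, inv_pow, inv_lt_iff_one_lt_mul₀ h3] at hk
      rw [div_lt_iff₀ h3]
      nlinarith
    have hev := tendsto_xt.eventually hC
    have hev2 := tendsto_xt.eventually (eventually_norm_le (m := m))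
    have hlog : Tendsto (fun t : ℝ => (γ - (ex ν (k + 1) : ℝ) / 2 ^ (k + 1)) * Real.log t)
        (𝓝[>] 0) atBot :=
      Real.tendsto_log_nhdsGT_zero.const_mul_atBot (by linarith)
    have hev3 := hlog.eventually (eventually_lt_atBot
      (1 / 2 ^ (k + 1) * Real.log (ee m ν k) - Real.log (m + 3) - C))
    obtain ⟨t, ⟨⟨⟨ht1, ht2⟩, ht3⟩, ht⟩⟩ :=
      (((hev.and hev2).and hev3).and self_mem_nhdsWithin).exists
    have ht : (0 : ℝ) < t := ht
    rw [GG_chart_zero h0 h1 (xt_ne ht), EReal.coe_le_coe_iff, sub_zero, norm_xt ht.le] at ht1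
    have h2 := VV_xt_ge (m := m) h0 h1 ht k
    have h3 := fsPot_le ht2
    nlinarith

end Pool.Agent.Helper853
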