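import Pool.Agent.Helper853.FubiniStudy

open scoped Topology ContDiff ComplexOrder ENNReal ComplexConjugate
open MeasureTheory Filter

namespace Pool.Agent.Helper853

variable {n : ℕ}

/-- the sub-mean value property of a real function on discs -/
def SubMean (u : (Fin n → ℂ) → ℝ) : Prop :=
  ∀ a b : Fin n → ℂ, u a ≤ (2 * Real.pi)⁻¹ *
    ∫ θ in (0 : ℝ)..(2 * Real.pi), u (a + Complex.exp (θ * Complex.I) • b)

lemma continuous_circ (a b : Fin n → ℂ) :
    Continuous fun θ : ℝ => a + Complex.exp (θ * Complex.I) • b := by fun_prop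

lemma subMean_of_isPsh {u : (Fin n → ℂ) → ℝ} (hc : Continuous u)
    (h : IsPsh fun x => (u x : EReal)) : SubMean u := by
  intro a b
  have hcc : Continuous fun θ : ℝ => u (a + Complex.exp (θ * Complex.I) • b) :=
    hc.comp (continuous_circ a b)
  obtain ⟨M, hM⟩ := (isCompact_Icc (a := (0 : ℝ)) (b := 2 * Real.pi)).image hcc |>.bddBelow
  have h1 := h.2.2 a b M
  have h2 : ∫ θ in (0 : ℝ)..(2 * Real.pi),
      (max ((u (a + Complex.exp (θ * Complex.I) • b) : ℝ) : EReal) (M : EReal)).toReal =
      ∫ θ in (0 : ℝ)..(2 * Real.pi), u (a + Complex.exp (θ * Complex.I) • b) := by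
    apply intervalIntegral.integral_congr
    intro θ hθ
    rw [Set.uIcc_of_le (by positivity)] at hθ
    have h3 : M ≤ u (a + Complex.exp (θ * Complex.I) • b) := hM ⟨θ, hθ, rfl⟩
    simp only
    rw [max_eq_left (by exact_mod_cast h3), EReal.toReal_coe]
  rw [h2] at h1
  exact EReal.coe_le_coe_iff.mp h1

lemma taylor2 {u : (Fin n → ℂ) → ℝ} {a : Fin n → ℂ} (hu : ContDiffAt ℝ 2 u a) {ε : ℝ}
    (hε : 0 < ε) : ∃ δ > 0, ∀ h : Fin n → ℂ, ‖h‖ < δ →
      |u (a + h) - u a - fderiv ℝ u a h - (1 / 2) * fderiv ℝ (fderiv ℝ u) a h h| ≤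
        ε * ‖h‖ ^ 2 := by
  set B := fderiv ℝ (fderiv ℝ u) a with hB
  have hd := fderiv_diffAt hu
  have h1 := hd.hasFDerivAt.isLittleO
  have h2 := h1.def hε
  obtain ⟨δ, hδ, hδ'⟩ := Metric.eventually_nhds_iff.mp (h2.and (eventually_diffAt hu))
  refine ⟨δ, hδ, ?_⟩
  intro h hh
  set g : (Fin n → ℂ) → ℝ := fun y => u (a + y) - u a - fderiv ℝ u a y - (1 / 2) * B y y with hg
  have hgd : ∀ y : Fin n → ℂ, ‖y‖ < δ →
      HasFDerivAt g (fderiv ℝ u (a + y) - fderiv ℝ u a - B y) y := by
    intro y hy
    have hy' : dist (a + y) a < δ := by simpa [dist_eq_norm] using hy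
    have k1 : HasFDerivAt (fun y => u (a + y)) (fderiv ℝ u (a + y)) y := by
      have := (hδ' hy').2.hasFDerivAt
      have h3 : HasFDerivAt (fun y : Fin n → ℂ => a + y) (ContinuousLinearMap.id ℝ _) y :=
        (hasFDerivAt_id y).const_add a
      exact this.comp y h3
    have k2 : HasFDerivAt (fun y => B y y) (B y + B.flip y) y := by
      have := (B.hasFDerivAt (x := y)).clm_apply (hasFDerivAt_id y)
      exact this.congr_fderiv (by ext1 v; simp)
    have k3 : B.flip y = B y := by
      ext1 v
      rw [ContinuousLinearMap.flip_apply, hB]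
      exact snd_symm hu v y
    rw [k3] at k2
    have k4 := ((k1.sub_const (u a)).sub (fderiv ℝ u a).hasFDerivAt).sub (k2.const_mul (1 / 2))
    exact k4.congr_fderiv (by
      ext1 v
      simp only [_root_.sub_apply, _root_.add_apply, _root_.smul_apply, smul_eq_mul]
      ring)
  have hbound : ∀ y ∈ Metric.closedBall (0 : Fin n → ℂ) ‖h‖,
      ‖fderiv ℝ u (a + y) - fderiv ℝ u a - B y‖ ≤ ε * ‖h‖ := by
    intro y hy
    rw [mem_closedBall_zero_iff] at hy
    have hy' : dist (a + y) a < δ := by simpa [dist_eq_norm] using lt_of_le_of_lt hy hh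
    have := (hδ' hy').1
    simp only [add_sub_cancel_left] at this
    calc _ ≤ ε * ‖y‖ := this
      _ ≤ ε * ‖h‖ := by gcongr
  have hmv := (convex_closedBall (0 : Fin n → ℂ) ‖h‖).norm_image_sub_le_of_norm_hasFDerivWithin_le
    (f := g) (f' := fun y => fderiv ℝ u (a + y) - fderiv ℝ u a - B y) (C := ε * ‖h‖)
    (fun y hy => (hgd y (lt_of_le_of_lt (mem_closedBall_zero_iff.mp hy) hh)).hasFDerivWithinAt)
    hbound (x := 0) (y := h) (by simp) (by simp)
  have hg0 : g 0 = 0 := by simp [hg]
  rw [hg0, sub_zero, sub_zero] at hmv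
  calc |u (a + h) - u a - fderiv ℝ u a h - (1 / 2) * B h h| = ‖g h‖ := by
        rw [Real.norm_eq_abs]
    _ ≤ ε * ‖h‖ * ‖h‖ := hmv
    _ = ε * ‖h‖ ^ 2 := by ring

lemma circ_smul (t θ : ℝ) (b : Fin n → ℂ) :
    Complex.exp (θ * Complex.I) • (t • b) =
      (t * Real.cos θ) • b + (t * Real.sin θ) • (Complex.I • b) := by
  ext k
  simp only [Pi.smul_apply, Pi.add_apply, Complex.real_smul, smul_eq_mul]
  rw [Complex.exp_mul_I]
  push_cast
  ring

/-- A `C²` function with the sub-mean value property has nonnegative Levi form. -/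
theorem lap2_nonneg_of_subMean {u : (Fin n → ℂ) → ℝ} (hc : Continuous u) (h : SubMean u)
    {a : Fin n → ℂ} (hu : ContDiffAt ℝ 2 u a) (b : Fin n → ℂ) : 0 ≤ lap2 u a b := by
  by_contra hneg
  push Not at hneg
  set B := fderiv ℝ (fderiv ℝ u) a with hB
  set D := fderiv ℝ u a with hD
  set q := -lap2 u a b with hq
  have hqpos : 0 < q := by rw [hq]; linarith
  set ε : ℝ := q / (8 * (‖b‖ ^ 2 + 1)) with hε
  have hεpos : 0 < ε := by positivity
  obtain ⟨δ, hδ, hT⟩ := taylor2 hu hεpos
  -- choose small t
  set t : ℝ := δ / (2 * (‖b‖ + 1)) with ht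
  have htpos : 0 < t := by positivity
  have htb : t * ‖b‖ < δ := by
    rw [ht, div_mul_eq_mul_div, div_lt_iff₀ (by positivity)]
    nlinarith [norm_nonneg b]
  have hs := h a (t • b)
  have hpi : (0 : ℝ) < 2 * Real.pi := by positivity
  -- pointwise upper bound
  have hpt : ∀ θ : ℝ, u (a + Complex.exp (θ * Complex.I) • (t • b)) ≤
      u a + (t * Real.cos θ * D b + t * Real.sin θ * D (Complex.I • b)) +
        (1 / 2) * (t ^ 2 * Real.cos θ ^ 2 * B b b +
          2 * (t ^ 2 * (Real.sin θ * Real.cos θ)) * B b (Complex.I • b) +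
          t ^ 2 * Real.sin θ ^ 2 * B (Complex.I • b) (Complex.I • b)) +
        ε * (t * ‖b‖) ^ 2 := by
    intro θ
    set h' := Complex.exp (θ * Complex.I) • (t • b) with hh'
    have hn : ‖h'‖ = t * ‖b‖ := by
      rw [hh', norm_smul, Complex.norm_exp_ofReal_mul_I, one_mul, norm_smul, Real.norm_of_nonneg
        htpos.le]
    have h1 := hT h' (by rw [hn]; exact htb)
    rw [hn] at h1
    have h2 := (abs_le.mp h1).2
    have h3 : h' = (t * Real.cos θ) • b + (t * Real.sin θ) • (Complex.I • b) := circ_smul t θ b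
    have h4 : D h' = t * Real.cos θ * D b + t * Real.sin θ * D (Complex.I • b) := by
      rw [h3, map_add, map_smul, map_smul]
      simp
    have h5 : B h' h' = t ^ 2 * Real.cos θ ^ 2 * B b b +
          2 * (t ^ 2 * (Real.sin θ * Real.cos θ)) * B b (Complex.I • b) +
          t ^ 2 * Real.sin θ ^ 2 * B (Complex.I • b) (Complex.I • b) := by
      have hsym : B (Complex.I • b) b = B b (Complex.I • b) := snd_symm hu _ _
      rw [h3]
      simp only [map_add, map_smul, _root_.add_apply, _root_.smul_apply, smul_eq_mul, hsym]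
      ring
    rw [← hD, h4, ← hB, h5] at h2
    linarith
  have hcc : Continuous fun θ : ℝ => u (a + Complex.exp (θ * Complex.I) • (t • b)) :=
    hc.comp (continuous_circ a _)
  have hint := intervalIntegral.integral_mono_on (μ := volume) (a := 0) (b := 2 * Real.pi) hpi.le
    (hcc.intervalIntegrable _ _) (g := fun θ => u a + (t * Real.cos θ * D b +
      t * Real.sin θ * D (Complex.I • b)) +
        (1 / 2) * (t ^ 2 * Real.cos θ ^ 2 * B b b +
          2 * (t ^ 2 * (Real.sin θ * Real.cos θ)) * B b (Complex.I • b) +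
          t ^ 2 * Real.sin θ ^ 2 * B (Complex.I • b) (Complex.I • b)) +
        ε * (t * ‖b‖) ^ 2) (by apply Continuous.intervalIntegrable; fun_prop)
    (fun θ _ => hpt θ)
  have hval : ∫ θ in (0 : ℝ)..(2 * Real.pi), (u a + (t * Real.cos θ * D b +
      t * Real.sin θ * D (Complex.I • b)) +
        (1 / 2) * (t ^ 2 * Real.cos θ ^ 2 * B b b +
          2 * (t ^ 2 * (Real.sin θ * Real.cos θ)) * B b (Complex.I • b) +
          t ^ 2 * Real.sin θ ^ 2 * B (Complex.I • b) (Complex.I • b)) +
        ε * (t * ‖b‖) ^ 2) = 2 * Real.pi * (u a) + Real.pi * t ^ 2 / 2 * lap2 u a b +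
          2 * Real.pi * (ε * (t * ‖b‖) ^ 2) := by
    have e : ∀ θ : ℝ, (u a + (t * Real.cos θ * D b +
      t * Real.sin θ * D (Complex.I • b)) +
        (1 / 2) * (t ^ 2 * Real.cos θ ^ 2 * B b b +
          2 * (t ^ 2 * (Real.sin θ * Real.cos θ)) * B b (Complex.I • b) +
          t ^ 2 * Real.sin θ ^ 2 * B (Complex.I • b) (Complex.I • b)) +
        ε * (t * ‖b‖) ^ 2) = (u a + ε * (t * ‖b‖) ^ 2) + (t * D b) * Real.cos θ +
          (t * D (Complex.I • b)) * Real.sin θ + (1 / 2 * t ^ 2 * B b b) * Real.cos θ ^ 2 +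
          (t ^ 2 * B b (Complex.I • b)) * (Real.sin θ * Real.cos θ) +
          (1 / 2 * t ^ 2 * B (Complex.I • b) (Complex.I • b)) * Real.sin θ ^ 2 := by
      intro θ; ring
    simp_rw [e]
    have i1 : ∀ c : ℝ, IntervalIntegrable (fun _ : ℝ => c) volume 0 (2 * Real.pi) :=
      fun c => intervalIntegrable_const
    have i2 : ∀ c : ℝ, IntervalIntegrable (fun θ => c * Real.cos θ) volume 0 (2 * Real.pi) :=
      fun c => (by fun_prop : Continuous fun θ => c * Real.cos θ).intervalIntegrable _ _
    have i3 : ∀ c : ℝ, IntervalIntegrable (fun θ => c * Real.sin θ) volume 0 (2 * Real.pi) :=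
      fun c => (by fun_prop : Continuous fun θ => c * Real.sin θ).intervalIntegrable _ _
    have i4 : ∀ c : ℝ, IntervalIntegrable (fun θ => c * Real.cos θ ^ 2) volume 0 (2 * Real.pi) :=
      fun c => (by fun_prop : Continuous fun θ => c * Real.cos θ ^ 2).intervalIntegrable _ _
    have i5 : ∀ c : ℝ, IntervalIntegrable (fun θ => c * (Real.sin θ * Real.cos θ)) volume 0
        (2 * Real.pi) :=
      fun c => (by fun_prop : Continuous fun θ => c * (Real.sin θ * Real.cos θ)).intervalIntegrable
        _ _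
    have i6 : ∀ c : ℝ, IntervalIntegrable (fun θ => c * Real.sin θ ^ 2) volume 0 (2 * Real.pi) :=
      fun c => (by fun_prop : Continuous fun θ => c * Real.sin θ ^ 2).intervalIntegrable _ _
    rw [intervalIntegral.integral_add (((((i1 _).add (i2 _)).add (i3 _)).add (i4 _)).add (i5 _))
        (i6 _),
      intervalIntegral.integral_add ((((i1 _).add (i2 _)).add (i3 _)).add (i4 _)) (i5 _),
      intervalIntegral.integral_add (((i1 _).add (i2 _)).add (i3 _)) (i4 _),
      intervalIntegral.integral_add ((i1 _).add (i2 _)) (i3 _),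
      intervalIntegral.integral_add (i1 _) (i2 _)]
    simp only [intervalIntegral.integral_const_mul, intervalIntegral.integral_const,
      integral_cos, integral_sin, integral_cos_sq, integral_sin_sq, integral_sin_mul_cos₁]
    simp only [Real.sin_two_pi, Real.sin_zero, Real.cos_two_pi, Real.cos_zero]
    unfold lap2
    rw [← hB]
    simp
    ring
  rw [hval] at hint
  have h6 : (2 * Real.pi)⁻¹ * ∫ θ in (0 : ℝ)..(2 * Real.pi),
      u (a + Complex.exp (θ * Complex.I) • (t • b)) ≤
      (2 * Real.pi)⁻¹ * (2 * Real.pi * (u a) + Real.pi * t ^ 2 / 2 * lap2 u a b +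
          2 * Real.pi * (ε * (t * ‖b‖) ^ 2)) :=
    mul_le_mul_of_nonneg_left hint (by positivity)
  have h7 : (2 * Real.pi)⁻¹ * (2 * Real.pi * (u a) + Real.pi * t ^ 2 / 2 * lap2 u a b +
          2 * Real.pi * (ε * (t * ‖b‖) ^ 2)) =
      u a + t ^ 2 / 4 * lap2 u a b + ε * (t * ‖b‖) ^ 2 := by
    have := Real.pi_pos.ne'
    field_simp
    ring
  rw [h7] at h6
  have h8 := hs.trans h6
  have h9 : ε * ‖b‖ ^ 2 ≤ q / 8 := by
    rw [hε, div_mul_eq_mul_div, div_le_iff₀ (by positivity)]
    nlinarith [sq_nonneg ‖b‖]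
  have h10 : 0 < t ^ 2 := by positivity
  have h11 : lap2 u a b = -q := by rw [hq]; ring
  rw [h11] at h8
  nlinarith

lemma submean_log_norm {f : ℂ → ℂ} (hf : Differentiable ℂ f) (h0 : f 0 ≠ 0) :
    Real.log ‖f 0‖ ≤ (2 * Real.pi)⁻¹ * ∫ θ in (0 : ℝ)..(2 * Real.pi),
      Real.log ‖f (Complex.exp (θ * Complex.I))‖ := by
  have han : AnalyticOnNhd ℂ f (Metric.closedBall 0 |1|) := fun z _ => hf.analyticAt z
  have hj := han.circleAverage_log_norm one_ne_zero h0
  rw [Real.circleAverage_def] at hj
  simp only [circleMap_zero, Complex.ofReal_one, one_mul, smul_eq_mul] at hj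
  rw [hj]
  have : 0 ≤ ∑ᶠ u, (MeromorphicOn.divisor f (Metric.closedBall 0 |1|) u : ℝ) *
      Real.log (‖(0 : ℂ) - u‖⁻¹) := by
    apply finsum_nonneg
    intro u
    by_cases hu : u ∈ Metric.closedBall (0 : ℂ) |1|
    · apply mul_nonneg (mod_cast MeromorphicOn.AnalyticOnNhd.divisor_nonneg han u)
      rw [Real.log_inv, neg_nonneg]
      apply Real.log_nonpos (norm_nonneg _)
      simpa using hu
    · rw [Function.locallyFinsuppWithin.apply_eq_zero_of_notMem _ hu]
      simp
  linarith

/-- The logarithm of a sum of squares of holomorphic functions has the sub-mean property. -/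
theorem subMean_log_sumSq {ι : Type*} [Fintype ι] {F : ι → (Fin n → ℂ) → ℂ}
    (hF : ∀ j, ContDiff ℂ ∞ (F j)) (hpos : ∀ x, 0 < sumSq F x) {c : ℝ} (hc : 0 ≤ c) :
    SubMean fun x => c * Real.log (sumSq F x) := by
  intro a b
  set S : ℂ → ℝ := fun z => sumSq F (a + z • b) with hS
  have hScont : Continuous S := (contDiff_sumSq hF).continuous.comp (by fun_prop)
  have hSpos : ∀ z, 0 < S z := fun z => hpos _
  -- positive lower bound on the circle
  have hcirc : Continuous fun θ : ℝ => S (Complex.exp (θ * Complex.I)) := hScont.comp (by fun_prop)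
  obtain ⟨m, hm, hmS⟩ : ∃ m : ℝ, 0 < m ∧ ∀ θ ∈ Set.Icc (0 : ℝ) (2 * Real.pi),
      m ≤ S (Complex.exp (θ * Complex.I)) := by
    obtain ⟨θ₀, hθ₀, hmin⟩ := (isCompact_Icc (a := (0 : ℝ)) (b := 2 * Real.pi)).exists_isMinOn
      ⟨0, by constructor <;> positivity⟩ hcirc.continuousOn
    exact ⟨_, hSpos _, fun θ hθ => hmin hθ⟩
  set K : ℝ := (Real.sqrt m)⁻¹ with hK
  have hKpos : 0 < K := by positivity
  have hK2 : K ^ 2 * m = 1 := by
    rw [hK, inv_pow, Real.sq_sqrt hm.le]
    field_simp
  set s0 : ℝ := Real.sqrt (S 0) with hs0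
  have hs0pos : 0 < s0 := Real.sqrt_pos.mpr (hSpos 0)
  have hs0sq : s0 ^ 2 = S 0 := Real.sq_sqrt (hSpos 0).le
  set f : ℂ → ℂ := fun z => (K : ℂ) * ((s0 : ℂ)⁻¹ * ∑ j, conj (F j a) * F j (a + z • b)) with hf
  have hfd : Differentiable ℂ f := by
    have : ∀ j, Differentiable ℂ fun z : ℂ => F j (a + z • b) := by
      intro j
      exact ((hF j).differentiable (by simp)).comp (by fun_prop)
    exact ((Differentiable.fun_sum fun j _ => (this j).const_mul _).const_mul _).const_mul _
  have hf0 : f 0 = ((K * s0 : ℝ) : ℂ) := by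
    simp only [hf, zero_smul, add_zero]
    have e : ∑ j, conj (F j a) * F j a = ((s0 ^ 2 : ℝ) : ℂ) := by
      rw [hs0sq, hS]
      simp only [zero_smul, add_zero]
      unfold sumSq
      push_cast
      apply Finset.sum_congr rfl
      intro j _
      rw [Complex.conj_mul']
    rw [e]
    have : (s0 : ℂ) ≠ 0 := by exact_mod_cast hs0pos.ne'
    push_cast
    field_simp
  have hf0ne : f 0 ≠ 0 := by
    rw [hf0]
    exact_mod_cast (mul_pos hKpos hs0pos).ne'
  have hbound : ∀ z, ‖f z‖ ^ 2 ≤ K ^ 2 * S z := by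
    intro z
    simp only [hf]
    rw [norm_mul, norm_mul, norm_inv, Complex.norm_real, Complex.norm_real,
      Real.norm_of_nonneg hKpos.le, Real.norm_of_nonneg hs0pos.le]
    have h1 := cauchy_sumSq (fun j => F j a) (fun j => F j (a + z • b))
    have h2 : ∑ j, ‖F j a‖ ^ 2 = s0 ^ 2 := by
      rw [hs0sq, hS]
      simp only [zero_smul, add_zero]
      rfl
    have h3 : ∑ j, ‖F j (a + z • b)‖ ^ 2 = S z := rfl
    rw [h2, h3] at h1
    calc (K * (s0⁻¹ * ‖∑ j, conj (F j a) * F j (a + z • b)‖)) ^ 2
        = K ^ 2 * (s0 ^ 2)⁻¹ * ‖∑ j, conj (F j a) * F j (a + z • b)‖ ^ 2 := by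
          rw [mul_pow, mul_pow, inv_pow]; ring
      _ ≤ K ^ 2 * (s0 ^ 2)⁻¹ * (s0 ^ 2 * S z) := by gcongr
      _ = K ^ 2 * S z := by field_simp
  have hj := submean_log_norm hfd hf0ne
  have hmero : MeromorphicOn f (Metric.sphere 0 |1|) := fun z _ => (hfd.analyticAt z).meromorphicAt
  have hci := hmero.circleIntegrable_log_norm
  have hii : IntervalIntegrable (fun θ : ℝ => Real.log ‖f (Complex.exp (θ * Complex.I))‖) volume 0
      (2 * Real.pi) := by
    unfold CircleIntegrable at hci
    simpa [circleMap_zero] using hci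
  have hcont2 : Continuous fun θ : ℝ =>
      (1 / 2 : ℝ) * Real.log (K ^ 2 * S (Complex.exp (θ * Complex.I))) := by
    apply Continuous.mul continuous_const
    apply Continuous.log (continuous_const.mul hcirc)
    intro θ
    exact (mul_pos (by positivity) (hSpos (Complex.exp (θ * Complex.I)))).ne'
  have hmono : ∫ θ in (0 : ℝ)..(2 * Real.pi), Real.log ‖f (Complex.exp (θ * Complex.I))‖ ≤
      ∫ θ in (0 : ℝ)..(2 * Real.pi),
        (1 / 2 : ℝ) * Real.log (K ^ 2 * S (Complex.exp (θ * Complex.I))) := by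
    apply intervalIntegral.integral_mono_on (by positivity) hii (hcont2.intervalIntegrable _ _)
    intro θ hθ
    have h1 : 1 ≤ K ^ 2 * S (Complex.exp (θ * Complex.I)) := by
      rw [← hK2]
      have := hmS θ hθ
      gcongr
    by_cases hz : f (Complex.exp (θ * Complex.I)) = 0
    · rw [hz, norm_zero, Real.log_zero]
      have := Real.log_nonneg h1
      positivity
    · have h2 := hbound (Complex.exp (θ * Complex.I))
      have h3 : 0 < ‖f (Complex.exp (θ * Complex.I))‖ := norm_pos_iff.mpr hz
      have h4 := Real.log_le_log (by positivity) h2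
      rw [Real.log_pow] at h4
      push_cast at h4
      linarith
  have hsplit : ∫ θ in (0 : ℝ)..(2 * Real.pi),
        (1 / 2 : ℝ) * Real.log (K ^ 2 * S (Complex.exp (θ * Complex.I))) =
      2 * Real.pi * Real.log K + (1 / 2) * ∫ θ in (0 : ℝ)..(2 * Real.pi),
        Real.log (S (Complex.exp (θ * Complex.I))) := by
    have e : ∀ θ : ℝ, (1 / 2 : ℝ) * Real.log (K ^ 2 * S (Complex.exp (θ * Complex.I))) =
        Real.log K + (1 / 2) * Real.log (S (Complex.exp (θ * Complex.I))) := by
      intro θ
      rw [Real.log_mul (by positivity) (hSpos _).ne', Real.log_pow]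
      push_cast
      ring
    simp_rw [e]
    have hcl : Continuous fun θ : ℝ => Real.log (S (Complex.exp (θ * Complex.I))) :=
      hcirc.log fun θ => (hSpos _).ne'
    rw [intervalIntegral.integral_add intervalIntegrable_const
      ((hcl.const_mul (1 / 2)).intervalIntegrable _ _),
      intervalIntegral.integral_const_mul, intervalIntegral.integral_const]
    simp
  rw [hf0, Complex.norm_real, Real.norm_of_nonneg (by positivity),
    Real.log_mul hKpos.ne' hs0pos.ne'] at hj
  rw [hsplit] at hmono
  have hls : Real.log s0 = (1 / 2) * Real.log (S 0) := by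
    rw [hs0, Real.log_sqrt (hSpos 0).le]
    ring
  have hmono2 := mul_le_mul_of_nonneg_left hmono (by positivity : 0 ≤ (2 * Real.pi)⁻¹)
  have hfinal := hj.trans hmono2
  rw [hls, mul_add, ← mul_assoc, inv_mul_cancel₀ (by positivity), one_mul] at hfinal
  have hS0 : S 0 = sumSq F a := by simp [hS]
  rw [hS0] at hfinal
  have hgoal : Real.log (sumSq F a) ≤ (2 * Real.pi)⁻¹ * ∫ θ in (0 : ℝ)..(2 * Real.pi),
        Real.log (S (Complex.exp (θ * Complex.I))) := by
    have e : (2 * Real.pi)⁻¹ * ((1 / 2) * ∫ θ in (0 : ℝ)..(2 * Real.pi),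
        Real.log (S (Complex.exp (θ * Complex.I)))) =
        (1 / 2) * ((2 * Real.pi)⁻¹ * ∫ θ in (0 : ℝ)..(2 * Real.pi),
        Real.log (S (Complex.exp (θ * Complex.I)))) := by ring
    rw [e] at hfinal
    linarith
  simp only
  rw [intervalIntegral.integral_const_mul]
  calc c * Real.log (sumSq F a) ≤ c * ((2 * Real.pi)⁻¹ * ∫ θ in (0 : ℝ)..(2 * Real.pi),
        Real.log (S (Complex.exp (θ * Complex.I)))) := mul_le_mul_of_nonneg_left hgoal hc
    _ = _ := by ring

/-- A decreasing limit of continuous functions with the sub-mean property is psh. -/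
theorem isPsh_iInf {w : ℕ → (Fin n → ℂ) → ℝ} (hc : ∀ k, Continuous (w k))
    (hanti : ∀ x, Antitone fun k => w k x) (hs : ∀ k, SubMean (w k)) :
    IsPsh fun x => ⨅ k, (w k x : EReal) := by
  refine ⟨?_, ?_, ?_⟩
  · apply upperSemicontinuous_iInf
    intro k
    exact (continuous_coe_real_ereal.comp (hc k)).upperSemicontinuous
  · intro x h
    change (⨅ k, (w k x : EReal)) = ⊤ at h
    have : (⨅ k, (w k x : EReal)) ≤ (w 0 x : EReal) := iInf_le _ 0
    rw [h] at this
    exact absurd this (by simp)
  · intro a b M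
    have hpi : (0 : ℝ) < 2 * Real.pi := by positivity
    -- the limit of the truncated means
    have hlim : Tendsto (fun k => ∫ θ in (0 : ℝ)..(2 * Real.pi),
        max (w k (a + Complex.exp (θ * Complex.I) • b)) M) atTop
        (𝓝 (∫ θ in (0 : ℝ)..(2 * Real.pi),
          (max (⨅ k, (w k (a + Complex.exp (θ * Complex.I) • b) : EReal)) (M : EReal)).toReal)) := by
      have hcirc : Continuous fun θ : ℝ => w 0 (a + Complex.exp (θ * Complex.I) • b) :=
        (hc 0).comp (continuous_circ a b)
      apply intervalIntegral.tendsto_integral_filter_of_dominated_convergence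
        (fun θ => |w 0 (a + Complex.exp (θ * Complex.I) • b)| + |M|)
      · filter_upwards with k
        apply Continuous.aestronglyMeasurable
        exact ((hc k).comp (continuous_circ a b)).max continuous_const
      · filter_upwards with k
        filter_upwards with θ _
        rw [Real.norm_eq_abs, abs_le]
        have h1 : w k (a + Complex.exp (θ * Complex.I) • b) ≤
          w 0 (a + Complex.exp (θ * Complex.I) • b) := hanti _ (Nat.zero_le k)
        constructor
        · have := le_max_right (w k (a + Complex.exp (θ * Complex.I) • b)) M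
          have h2 := neg_abs_le M
          have h3 := abs_nonneg (w 0 (a + Complex.exp (θ * Complex.I) • b))
          linarith
        · apply max_le
          · have h2 := le_abs_self (w 0 (a + Complex.exp (θ * Complex.I) • b))
            have h3 := abs_nonneg M
            linarith
          · have h2 := le_abs_self M
            have h3 := abs_nonneg (w 0 (a + Complex.exp (θ * Complex.I) • b))
            linarith
      · exact (hcirc.abs.add continuous_const).intervalIntegrable _ _
      · filter_upwards with θ _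
        set y := a + Complex.exp (θ * Complex.I) • b with hy
        have h1 : Tendsto (fun k => (w k y : EReal)) atTop (𝓝 (⨅ k, (w k y : EReal))) := by
          apply tendsto_atTop_iInf
          intro k l hkl
          exact EReal.coe_le_coe_iff.mpr (hanti y hkl)
        have h2 : Tendsto (fun k => max (w k y : EReal) (M : EReal)) atTop
            (𝓝 (max (⨅ k, (w k y : EReal)) (M : EReal))) := h1.max tendsto_const_nhds
        have h3 : max (⨅ k, (w k y : EReal)) (M : EReal) ≠ ⊥ := by
          intro h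
          have := le_max_right (⨅ k, (w k y : EReal)) (M : EReal)
          rw [h] at this
          exact absurd this (by simp)
        have h4 : max (⨅ k, (w k y : EReal)) (M : EReal) ≠ ⊤ := by
          intro h
          have h5 : max (⨅ k, (w k y : EReal)) (M : EReal) ≤ max (w 0 y : EReal) (M : EReal) :=
            max_le_max (iInf_le _ 0) le_rfl
          rw [h] at h5
          have h6 : max (w 0 y : EReal) (M : EReal) = ((max (w 0 y) M : ℝ) : EReal) := by
            exact (EReal.coe_strictMono.monotone.map_max).symm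
          rw [h6] at h5
          exact absurd h5 (by simp)
        have h7 := (EReal.tendsto_toReal h4 h3).comp h2
        refine h7.congr ?_
        intro k
        simp only [Function.comp_apply]
        have h6 : max (w k y : EReal) (M : EReal) = ((max (w k y) M : ℝ) : EReal) :=
          (EReal.coe_strictMono.monotone.map_max).symm
        rw [h6, EReal.toReal_coe]
    have hlim2 := hlim.const_mul ((2 * Real.pi)⁻¹)
    have hle : ∀ k, (⨅ k, (w k a : EReal)) ≤ (((2 * Real.pi)⁻¹ * ∫ θ in (0 : ℝ)..(2 * Real.pi),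
        max (w k (a + Complex.exp (θ * Complex.I) • b)) M : ℝ) : EReal) := by
      intro k
      refine (iInf_le _ k).trans ?_
      have h1 := hs k a b
      have hck : Continuous fun θ : ℝ => w k (a + Complex.exp (θ * Complex.I) • b) :=
        (hc k).comp (continuous_circ a b)
      have h2 : ∫ θ in (0 : ℝ)..(2 * Real.pi), w k (a + Complex.exp (θ * Complex.I) • b) ≤
          ∫ θ in (0 : ℝ)..(2 * Real.pi), max (w k (a + Complex.exp (θ * Complex.I) • b)) M := by
        apply intervalIntegral.integral_mono_on hpi.le (hck.intervalIntegrable _ _)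
          ((hck.max continuous_const).intervalIntegrable _ _)
        intro θ _
        exact le_max_left _ _
      have h3 := mul_le_mul_of_nonneg_left h2 (by positivity : 0 ≤ (2 * Real.pi)⁻¹)
      exact_mod_cast h1.trans h3
    have hlim3 := (continuous_coe_real_ereal.tendsto _).comp hlim2
    exact ge_of_tendsto' hlim3 hle

lemma isPsh_of_subMean {u : (Fin n → ℂ) → ℝ} (hc : Continuous u) (hs : SubMean u) :
    IsPsh fun x => (u x : EReal) := by
  have := isPsh_iInf (w := fun _ => u) (fun _ => hc) (fun x => antitone_const) (fun _ => hs)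
  simpa using this

end Pool.Agent.Helper853
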