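import Pool.Agent.Helper853.Glue

open scoped Topology ContDiff ComplexOrder ENNReal
open MeasureTheory Filter

namespace Pool.Agent.Helper853

variable {n : ℕ}

/-- Smooth psh functions on an open set. -/
def SPsh (Ω : Set (Fin n → ℂ)) (u : (Fin n → ℂ) → ℝ) : Prop :=
  ContDiffOn ℝ ∞ u Ω ∧ ∀ x ∈ Ω, ∀ v, 0 ≤ lap2 u x v

/-- determinant of the complex Hessian as a real number -/
noncomputable def dH (u : (Fin n → ℂ) → ℝ) (x : Fin n → ℂ) : ℝ := (cHess u x).det.re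

lemma SPsh.mono {Ω Ω' : Set (Fin n → ℂ)} {u : (Fin n → ℂ) → ℝ} (h : SPsh Ω u) (hs : Ω' ⊆ Ω) :
    SPsh Ω' u := ⟨h.1.mono hs, fun x hx => h.2 x (hs hx)⟩

lemma SPsh.contDiffAt {Ω : Set (Fin n → ℂ)} (hΩ : IsOpen Ω) {u : (Fin n → ℂ) → ℝ} (h : SPsh Ω u)
    {x : Fin n → ℂ} (hx : x ∈ Ω) : ContDiffAt ℝ 2 u x :=
  (h.1.contDiffAt (hΩ.mem_nhds hx)).of_le ENat.LEInfty.out

lemma SPsh.posSemidef {Ω : Set (Fin n → ℂ)} (hΩ : IsOpen Ω) {u : (Fin n → ℂ) → ℝ} (h : SPsh Ω u)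
    {x : Fin n → ℂ} (hx : x ∈ Ω) : (cHess u x).PosSemidef :=
  (cHess_posSemidef_iff (h.contDiffAt hΩ hx)).mpr (h.2 x hx)

lemma SPsh.dH_nonneg {Ω : Set (Fin n → ℂ)} (hΩ : IsOpen Ω) {u : (Fin n → ℂ) → ℝ} (h : SPsh Ω u)
    {x : Fin n → ℂ} (hx : x ∈ Ω) : 0 ≤ dH u x := by
  have := (h.posSemidef hΩ hx).det_nonneg
  exact (Complex.nonneg_iff.mp this).1

lemma SPsh.continuousOn_dH {Ω : Set (Fin n → ℂ)} (hΩ : IsOpen Ω) {u : (Fin n → ℂ) → ℝ}
    (h : SPsh Ω u) : ContinuousOn (dH u) Ω := by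
  have h1 := continuousOn_cHess hΩ h.1
  have h2 : Continuous fun M : Matrix (Fin n) (Fin n) ℂ => M.det.re :=
    Complex.continuous_re.comp (continuous_id.matrix_det)
  exact h2.comp_continuousOn h1

lemma dH_congr {u v : (Fin n → ℂ) → ℝ} {x : Fin n → ℂ} (h : u =ᶠ[𝓝 x] v) :
    dH u x = dH v x := by
  unfold dH
  rw [cHess_congr h]

lemma cHess_add {u v : (Fin n → ℂ) → ℝ} {x : Fin n → ℂ} (hu : ContDiffAt ℝ 2 u x)
    (hv : ContDiffAt ℝ 2 v x) : cHess (fun y => u y + v y) x = cHess u x + cHess v x := by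
  have h : fderiv ℝ (fun y => u y + v y) =ᶠ[𝓝 x] fun y => fderiv ℝ u y + fderiv ℝ v y := by
    filter_upwards [eventually_diffAt hu, eventually_diffAt hv] with y h1 h2
    exact fderiv_fun_add h1 h2
  ext i j
  rw [cHess_apply (hu.add hv), Matrix.add_apply, cHess_apply hu, cHess_apply hv]
  rw [h.fderiv_eq, fderiv_fun_add (fderiv_diffAt hu) (fderiv_diffAt hv)]
  simp only [_root_.add_apply]
  push_cast
  ring

lemma cHess_const_mul {u : (Fin n → ℂ) → ℝ} {x : Fin n → ℂ} (hu : ContDiffAt ℝ 2 u x) (c : ℝ) :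
    cHess (fun y => c * u y) x = (c : ℂ) • cHess u x := by
  have h : fderiv ℝ (fun y => c * u y) =ᶠ[𝓝 x] fun y => c • fderiv ℝ u y := by
    filter_upwards [eventually_diffAt hu] with y h1
    exact fderiv_const_mul h1 c
  ext i j
  rw [cHess_apply (contDiffAt_const.mul hu), Matrix.smul_apply, cHess_apply hu]
  rw [h.fderiv_eq, fderiv_fun_const_smul (fderiv_diffAt hu)]
  simp only [_root_.smul_apply, smul_eq_mul]
  push_cast
  ring

lemma cHess_add_const {u : (Fin n → ℂ) → ℝ} {x : Fin n → ℂ} (c : ℝ) :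
    cHess (fun y => u y + c) x = cHess u x := by
  have hz : ∀ j : Fin n, dzbar j (fun y => ((u y + c : ℝ) : ℂ)) = dzbar j (fun y => (u y : ℂ)) := by
    intro j
    ext y
    unfold dzbar
    have : (fun y => ((u y + c : ℝ) : ℂ)) = fun y => (u y : ℂ) + (c : ℂ) := by
      ext y; push_cast; rfl
    rw [this, fderiv_add_const]
  ext i j
  simp only [cHess, Matrix.of_apply, hz]

lemma dH_add_const {u : (Fin n → ℂ) → ℝ} {x : Fin n → ℂ} (c : ℝ) :
    dH (fun y => u y + c) x = dH u x := by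
  unfold dH
  rw [cHess_add_const]

lemma dH_const_mul {u : (Fin n → ℂ) → ℝ} {x : Fin n → ℂ} (hu : ContDiffAt ℝ 2 u x) (c : ℝ) :
    dH (fun y => c * u y) x = c ^ n * dH u x := by
  unfold dH
  rw [cHess_const_mul hu, Matrix.det_smul, Fintype.card_fin]
  rw [← Complex.ofReal_pow, Complex.re_ofReal_mul]

lemma SPsh.add {Ω : Set (Fin n → ℂ)} (hΩ : IsOpen Ω) {u v : (Fin n → ℂ) → ℝ} (hu : SPsh Ω u)
    (hv : SPsh Ω v) : SPsh Ω fun y => u y + v y := by
  refine ⟨hu.1.add hv.1, ?_⟩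
  intro x hx w
  rw [lap2_add (hu.contDiffAt hΩ hx) (hv.contDiffAt hΩ hx)]
  exact add_nonneg (hu.2 x hx w) (hv.2 x hx w)

lemma SPsh.const_mul {Ω : Set (Fin n → ℂ)} (hΩ : IsOpen Ω) {u : (Fin n → ℂ) → ℝ} (hu : SPsh Ω u)
    {c : ℝ} (hc : 0 ≤ c) : SPsh Ω fun y => c * u y := by
  refine ⟨contDiffOn_const.mul hu.1, ?_⟩
  intro x hx w
  rw [lap2_const_mul (hu.contDiffAt hΩ hx)]
  exact mul_nonneg hc (hu.2 x hx w)

lemma SPsh.add_const {Ω : Set (Fin n → ℂ)} {u : (Fin n → ℂ) → ℝ} (hu : SPsh Ω u)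
    (c : ℝ) : SPsh Ω fun y => u y + c := by
  refine ⟨hu.1.add contDiffOn_const, ?_⟩
  intro x hx w
  rw [lap2_add_const]
  exact hu.2 x hx w

lemma SPsh.glue {Ω : Set (Fin n → ℂ)} (hΩ : IsOpen Ω) {φ u : (Fin n → ℂ) → ℝ} (hφ : SPsh Ω φ)
    (hu : SPsh Ω u) {c : ℝ} (hc : 0 < c) :
    SPsh Ω fun y => φ y + Helper853.glue c (u y - φ y) := by
  refine ⟨hφ.1.add ((contDiff_glue c).comp_contDiffOn (hu.1.sub hφ.1)), ?_⟩
  intro x hx v
  exact lap2_glue_nonneg hc (hφ.contDiffAt hΩ hx) (hu.contDiffAt hΩ hx) v (hφ.2 x hx v)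
    (hu.2 x hx v)

lemma setLIntegral_dH {Ω L : Set (Fin n → ℂ)} (hΩ : IsOpen Ω) (hL : IsCompact L) (hLΩ : L ⊆ Ω)
    {u : (Fin n → ℂ) → ℝ} (hu : SPsh Ω u) :
    ∫⁻ x in L, ENNReal.ofReal (dH u x) = ENNReal.ofReal (∫ x in L, (cHess u x).det).re := by
  have hc : ContinuousOn (fun x => (cHess u x).det) L := by
    have h1 := (continuousOn_cHess hΩ hu.1).mono hLΩ
    exact (continuous_id.matrix_det).comp_continuousOn h1
  have hi : IntegrableOn (fun x => (cHess u x).det) L := hc.integrableOn_compact hL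
  have e : (∫ x in L, (cHess u x).det).re = ∫ x in L, dH u x := by
    have := integral_re hi
    simpa [dH] using this.symm
  rw [e, ofReal_integral_eq_lintegral_ofReal]
  · exact ((hu.continuousOn_dH hΩ).mono hLΩ).integrableOn_compact hL
  · rw [EventuallyLE, ae_restrict_iff' hL.measurableSet]
    filter_upwards with x hx
    exact hu.dH_nonneg hΩ (hLΩ hx)

/-- Comparison: gluing `u` into `φ` over a compact set does not change the total mass. -/
theorem compare {m : ℕ} {Ω L A : Set (Fin (m + 1) → ℂ)} (hΩ : IsOpen Ω) (hL : IsCompact L)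
    (hLΩ : L ⊆ Ω) {φ u : (Fin (m + 1) → ℂ) → ℝ} (hφ : SPsh Ω φ) (hu : SPsh Ω u) {c : ℝ}
    (hc : 0 < c) (hoff : ∀ x ∈ Ω \ L, u x - φ x ≤ -c) (hA : A ⊆ L) (hAm : MeasurableSet A)
    (hAc : ∀ x ∈ A, c < u x - φ x) :
    ∫⁻ x in A, ENNReal.ofReal (dH u x) ≤ ∫⁻ x in L, ENNReal.ofReal (dH φ x) := by
  set w : (Fin (m + 1) → ℂ) → ℝ := fun y => φ y + Helper853.glue c (u y - φ y) with hw
  have hwp : SPsh Ω w := hφ.glue hΩ hu hc
  have h1 : ∫⁻ x in A, ENNReal.ofReal (dH u x) = ∫⁻ x in A, ENNReal.ofReal (dH w x) := by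
    apply setLIntegral_congr_fun hAm
    intro x hx
    have hxΩ : x ∈ Ω := hLΩ (hA hx)
    have hcont : ContinuousAt (fun y => u y - φ y) x :=
      ((hu.1.continuousOn.sub hφ.1.continuousOn).continuousAt (hΩ.mem_nhds hxΩ))
    have hev : ∀ᶠ y in 𝓝 x, c < u y - φ y := hcont.eventually (lt_mem_nhds (hAc x hx))
    have heq : w =ᶠ[𝓝 x] fun y => u y + (Helper853.glue c c - c) := by
      filter_upwards [hev] with y hy
      simp only [hw]
      rw [glue_of_ge hc hy.le]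
      ring
    simp only
    rw [dH_congr heq, dH_add_const]
  have h2 : ∫ x in L, (cHess w x).det = ∫ x in L, (cHess φ x).det := by
    apply setIntegral_det_eq hΩ hL hLΩ hwp.1 hφ.1
    intro x hx
    simp only [hw]
    rw [glue_of_le hc (hoff x hx), add_zero]
  calc ∫⁻ x in A, ENNReal.ofReal (dH u x) = ∫⁻ x in A, ENNReal.ofReal (dH w x) := h1
    _ ≤ ∫⁻ x in L, ENNReal.ofReal (dH w x) := lintegral_mono_set hA
    _ = ENNReal.ofReal (∫ x in L, (cHess w x).det).re := setLIntegral_dH hΩ hL hLΩ hwp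
    _ = ENNReal.ofReal (∫ x in L, (cHess φ x).det).re := by rw [h2]
    _ = ∫⁻ x in L, ENNReal.ofReal (dH φ x) := (setLIntegral_dH hΩ hL hLΩ hφ).symm

lemma le_of_forall_eps {a b : ℝ≥0∞} {k : ℕ} {ε₀ : ℝ} (hε₀ : 0 < ε₀)
    (h : ∀ ε : ℝ, 0 < ε → ε < ε₀ → a ≤ ENNReal.ofReal ((1 + ε) ^ k) * b) : a ≤ b := by
  have hlim : Tendsto (fun ε : ℝ => ENNReal.ofReal ((1 + ε) ^ k) * b) (𝓝[>] 0) (𝓝 b) := by
    have h1 : Tendsto (fun ε : ℝ => ENNReal.ofReal ((1 + ε) ^ k)) (𝓝[>] 0) (𝓝 1) := by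
      have : Tendsto (fun ε : ℝ => (1 + ε) ^ k) (𝓝[>] 0) (𝓝 1) := by
        have hc : Continuous fun ε : ℝ => (1 + ε) ^ k := by fun_prop
        have := hc.tendsto 0
        simp only [add_zero, one_pow] at this
        exact this.mono_left nhdsWithin_le_nhds
      have h2 := ENNReal.tendsto_ofReal this
      simpa using h2
    have h3 := ENNReal.Tendsto.mul_const (b := b) h1 (Or.inl one_ne_zero)
    simpa using h3
  refine ge_of_tendsto hlim ?_
  filter_upwards [Ioo_mem_nhdsGT hε₀] with ε hε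
  exact h ε hε.1 hε.2

lemma exists_compact_exhaustion {Ω : Set (Fin n → ℂ)} (hΩ : IsOpen Ω) :
    ∃ F : ℕ → Set (Fin n → ℂ), (∀ k, IsCompact (F k)) ∧ (∀ k, F k ⊆ Ω) ∧ ⋃ k, F k = Ω ∧
      Monotone F := by
  obtain ⟨F, hc, hs, hU, hm⟩ := hΩ.exists_iUnion_isClosed
  refine ⟨fun k => F k ∩ Metric.closedBall 0 k, ?_, ?_, ?_, ?_⟩
  · intro k
    exact (isCompact_closedBall 0 (k : ℝ)).inter_left (hc k)
  · intro k
    exact Set.inter_subset_left.trans (hs k)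
  · apply Set.Subset.antisymm
    · exact Set.iUnion_subset fun k => Set.inter_subset_left.trans (hs k)
    · intro x hx
      rw [← hU] at hx
      obtain ⟨k, hk⟩ := Set.mem_iUnion.mp hx
      obtain ⟨N, hN⟩ := exists_nat_ge ‖x‖
      refine Set.mem_iUnion.mpr ⟨max k N, hm (le_max_left _ _) hk, ?_⟩
      rw [mem_closedBall_zero_iff]
      exact hN.trans (by exact_mod_cast le_max_right k N)
  · intro k l hkl
    apply Set.inter_subset_inter (hm hkl)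
    exact Metric.closedBall_subset_closedBall (by exact_mod_cast hkl)

lemma setLIntegral_le_of_compact {Ω : Set (Fin n → ℂ)} (hΩ : IsOpen Ω) {f : (Fin n → ℂ) → ℝ≥0∞}
    {b : ℝ≥0∞} (h : ∀ K, IsCompact K → K ⊆ Ω → ∫⁻ x in K, f x ≤ b) : ∫⁻ x in Ω, f x ≤ b := by
  obtain ⟨F, hc, hs, hU, hm⟩ := exists_compact_exhaustion hΩ
  rw [← hU, setLIntegral_iUnion_of_directed]
  · exact iSup_le fun k => h _ (hc k) (hs k)
  · exact hm.directed_le

/-- Mass comparison. -/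
theorem mass_le {m : ℕ} {Ω : Set (Fin (m + 1) → ℂ)} (hΩ : IsOpen Ω)
    {u v : (Fin (m + 1) → ℂ) → ℝ} (hu : SPsh Ω u) (hv : SPsh Set.univ v)
    (hoff : ∀ ε : ℝ, 0 < ε → ∀ K : ℝ, ∃ L, IsCompact L ∧ L ⊆ Ω ∧
      ∀ x ∈ Ω \ L, u x - (1 + ε) * v x ≤ K) :
    ∫⁻ x in Ω, ENNReal.ofReal (dH u x) ≤ ∫⁻ x, ENNReal.ofReal (dH v x) := by
  apply setLIntegral_le_of_compact hΩ
  intro B hB hBΩ
  apply le_of_forall_eps (k := m + 1) one_pos
  intro ε hε _
  -- lower bound on B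
  have hcont : ContinuousOn (fun x => u x - (1 + ε) * v x) B :=
    (hu.1.continuousOn.sub (continuousOn_const.mul
      (hv.1.continuousOn.mono (Set.subset_univ _)))).mono hBΩ
  obtain ⟨K₀, hK₀⟩ : ∃ K₀ : ℝ, ∀ x ∈ B, K₀ ≤ u x - (1 + ε) * v x := by
    obtain ⟨K₀, hK₀⟩ := (hB.image_of_continuousOn hcont).bddBelow
    exact ⟨K₀, fun x hx => hK₀ ⟨x, hx, rfl⟩⟩
  obtain ⟨L, hL, hLΩ, hLoff⟩ := hoff ε hε (K₀ - 3)
  set φ : (Fin (m + 1) → ℂ) → ℝ := fun y => (1 + ε) * v y + (K₀ - 2) with hφ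
  have hφp : SPsh Set.univ φ := (hv.const_mul isOpen_univ (by linarith)).add_const _
  have key := compare hΩ (hL.union hB) (Set.union_subset hLΩ hBΩ) (hφp.mono (Set.subset_univ _)) hu
    one_pos (A := B) ?_ Set.subset_union_right hB.measurableSet ?_
  · refine key.trans ?_
    have e : ∀ x, ENNReal.ofReal (dH φ x) =
        ENNReal.ofReal ((1 + ε) ^ (m + 1)) * ENNReal.ofReal (dH v x) := by
      intro x
      rw [hφ, dH_add_const, dH_const_mul (hv.contDiffAt isOpen_univ (Set.mem_univ x)),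
        ENNReal.ofReal_mul (by positivity)]
    simp_rw [e]
    rw [lintegral_const_mul']
    · exact mul_le_mul' le_rfl (setLIntegral_le_lintegral _ _)
    · exact ENNReal.ofReal_ne_top
  · intro x hx
    have := hLoff x ⟨hx.1, fun h => hx.2 (Or.inl h)⟩
    simp only [hφ]
    linarith
  · intro x hx
    have := hK₀ x hx
    simp only [hφ]
    linarith

end Pool.Agent.Helper853
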