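import Pool.Agent.Helper853.Submean

open scoped Topology ContDiff ComplexOrder ENNReal ComplexConjugate
open MeasureTheory Filter

namespace Pool.Agent.Helper853

section exponents

/-- the exponents `⌈ν 2^k⌉` -/
noncomputable def ex (ν : ℝ) (k : ℕ) : ℕ := ⌈ν * 2 ^ k⌉₊

lemma le_ex (ν : ℝ) (k : ℕ) : ν * 2 ^ k ≤ ex ν k := Nat.le_ceil _

lemma ex_lt {ν : ℝ} (h0 : 0 < ν) (k : ℕ) : (ex ν k : ℝ) < ν * 2 ^ k + 1 :=
  Nat.ceil_lt_add_one (by positivity)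

lemma ex_pos {ν : ℝ} (h0 : 0 < ν) (k : ℕ) : 0 < ex ν k := Nat.ceil_pos.mpr (by positivity)

lemma ex_le {ν : ℝ} (h1 : ν ≤ 1) (k : ℕ) : ex ν k ≤ 2 ^ k := by
  apply Nat.ceil_le.mpr
  push_cast
  have : (0 : ℝ) < 2 ^ k := by positivity
  nlinarith

lemma ex_succ_le (ν : ℝ) (k : ℕ) : ex ν (k + 1) ≤ 2 * ex ν k := by
  apply Nat.ceil_le.mpr
  push_cast
  have := le_ex ν k
  rw [pow_succ]
  linarith

end exponents

variable {m : ℕ}

/-- index of the second homogeneous coordinate -/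
def i1 : Fin (m + 3) := Fin.succ 0

/-- index of the third homogeneous coordinate -/
def i2 : Fin (m + 3) := Fin.succ (Fin.succ 0)

/-- the `m + 2` functions at stage `k` -/
noncomputable def Fk (P : (Fin (m + 3) → ℂ) → ℂ) (k : ℕ) (j : Fin (m + 2)) :
    (Fin (m + 3) → ℂ) → ℂ :=
  Fin.cases P (fun (j : Fin (m + 1)) x => x j.succ.succ ^ (2 ^ k)) j

@[simp] lemma Fk_zero (P : (Fin (m + 3) → ℂ) → ℂ) (k : ℕ) : Fk P k 0 = P := rfl

@[simp] lemma Fk_succ (P : (Fin (m + 3) → ℂ) → ℂ) (k : ℕ) (j : Fin (m + 1)) :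
    Fk P k j.succ = fun x => x j.succ.succ ^ (2 ^ k) := rfl

lemma sumSq_Fk (P : (Fin (m + 3) → ℂ) → ℂ) (k : ℕ) (x : Fin (m + 3) → ℂ) :
    sumSq (Fk P k) x = ‖P x‖ ^ 2 + ∑ j : Fin (m + 1), ‖x j.succ.succ‖ ^ (2 * 2 ^ k) := by
  unfold sumSq
  rw [Fin.sum_univ_succ]
  congr 1
  apply Finset.sum_congr rfl
  intro j _
  simp only [Fk_succ, norm_pow]
  rw [← pow_mul]
  congr 1
  ring

/-- the compact sets exhausting the complement of the pole -/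
def Kset (m k : ℕ) : Set (Fin (m + 3) → ℂ) := {x | ‖x‖ = 1 ∧ 1 / ((k : ℝ) + 1) ≤ ‖Fin.tail x‖}

lemma continuous_tail : Continuous (fun x : Fin (m + 3) → ℂ => (Fin.tail x : Fin (m + 2) → ℂ)) := by
  apply continuous_pi
  intro i
  exact continuous_apply _

lemma isCompact_Kset (k : ℕ) : IsCompact (Kset m k) := by
  have : Kset m k = Metric.sphere 0 1 ∩ {x | 1 / ((k : ℝ) + 1) ≤ ‖Fin.tail x‖} := by
    ext x
    simp [Kset]
  rw [this]
  exact (isCompact_sphere 0 1).inter_right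
    (isClosed_le continuous_const (continuous_tail.norm))

lemma Kset_mono {k l : ℕ} (h : k ≤ l) : Kset m k ⊆ Kset m l := by
  intro x hx
  refine ⟨hx.1, le_trans ?_ hx.2⟩
  have : (k : ℝ) ≤ l := by exact_mod_cast h
  gcongr

/-- the next function in the recursion -/
noncomputable def nextP (ν : ℝ) (k : ℕ) (P : (Fin (m + 3) → ℂ) → ℂ) (ε : ℝ) :
    (Fin (m + 3) → ℂ) → ℂ :=
  fun x => P x ^ 2 + (ε : ℂ) * (x 0 ^ (2 ^ (k + 1) - ex ν (k + 1)) * x i2 ^ (ex ν (k + 1)))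

/-- the invariants of the recursion -/
structure Good (ν : ℝ) (k : ℕ) (P : (Fin (m + 3) → ℂ) → ℂ) : Prop where
  smooth : ContDiff ℂ ∞ P
  homog : ∀ (c : ℂ) x, P (c • x) = c ^ (2 ^ k) * P x
  restr : ∀ x, x i2 = 0 → P x = x i1 ^ (2 ^ k)
  bound : ∀ x, ∀ r : ℝ, ‖x 0‖ ≤ 1 → (∀ j : Fin (m + 2), ‖x j.succ‖ ≤ r) → r ≤ 1 →
    2 * ‖P x‖ ≤ 2 ^ (2 ^ k) * r ^ (ex ν k)

lemma two_le_pow_pow (k : ℕ) : (2 : ℝ) ≤ 2 ^ (2 ^ k) := by
  calc (2 : ℝ) = 2 ^ 1 := by norm_num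
    _ ≤ 2 ^ (2 ^ k) := by
      apply pow_le_pow_right₀ (by norm_num)
      exact Nat.one_le_two_pow

lemma good_zero {ν : ℝ} (h0 : 0 < ν) (h1 : ν ≤ 1) :
    Good ν 0 (fun x : Fin (m + 3) → ℂ => x i1) := by
  have he : ex ν 0 = 1 := by
    have := ex_le h1 0
    have := ex_pos h0 0
    simp at *
    omega
  refine ⟨by fun_prop, by intro c x; simp, by intro x _; simp, ?_⟩
  intro x r _ hr _
  rw [he]
  have := hr 0
  simpa [i1] using this

lemma good_next {ν : ℝ} (h0 : 0 < ν) (h1 : ν ≤ 1) {k : ℕ} {P : (Fin (m + 3) → ℂ) → ℂ}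
    (hP : Good ν k P) {ε : ℝ} (hε0 : 0 ≤ ε) (hε1 : ε ≤ 1) : Good ν (k + 1) (nextP ν k P ε) := by
  refine ⟨?_, ?_, ?_, ?_⟩
  · have := hP.smooth
    unfold nextP
    fun_prop
  · intro c x
    unfold nextP
    rw [hP.homog]
    simp only [Pi.smul_apply, smul_eq_mul]
    have e : c ^ (2 ^ (k + 1)) =
        c ^ (2 ^ (k + 1) - ex ν (k + 1)) * c ^ (ex ν (k + 1)) := by
      rw [← pow_add, Nat.sub_add_cancel (ex_le h1 _)]
    have e2 : (c ^ (2 ^ k)) ^ 2 = c ^ (2 ^ (k + 1)) := by rw [← pow_mul, pow_succ]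
    rw [mul_pow, mul_pow, mul_pow, e2, mul_add]
    rw [e]
    ring
  · intro x hx
    unfold nextP
    rw [hP.restr x hx, hx, zero_pow (ex_pos h0 _).ne', ← pow_mul, ← pow_succ]
    simp
  · intro x r hx0 hr hr1
    have hr0 : 0 ≤ r := (norm_nonneg _).trans (hr 0)
    have hb := hP.bound x r hx0 hr hr1
    unfold nextP
    have hmono : ‖x 0 ^ (2 ^ (k + 1) - ex ν (k + 1)) * x i2 ^ (ex ν (k + 1))‖ ≤
        r ^ (ex ν (k + 1)) := by
      rw [norm_mul, norm_pow, norm_pow]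
      calc ‖x 0‖ ^ (2 ^ (k + 1) - ex ν (k + 1)) * ‖x i2‖ ^ (ex ν (k + 1)) ≤
          1 * r ^ (ex ν (k + 1)) := by
            apply mul_le_mul _ _ (by positivity) zero_le_one
            · exact pow_le_one₀ (norm_nonneg _) hx0
            · exact pow_le_pow_left₀ (norm_nonneg _) (hr (Fin.succ 0)) _
        _ = _ := one_mul _
    have hrr : r ^ (2 * ex ν k) ≤ r ^ (ex ν (k + 1)) :=
      pow_le_pow_of_le_one hr0 hr1 (ex_succ_le ν k)
    set C : ℝ := 2 ^ (2 ^ k) with hC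
    have hC2 : (2 : ℝ) ≤ C := two_le_pow_pow k
    have hCs : (2 : ℝ) ^ (2 ^ (k + 1)) = C ^ 2 := by rw [hC, ← pow_mul, pow_succ]
    rw [hCs]
    have hn : ‖P x ^ 2 + (ε : ℂ) * (x 0 ^ (2 ^ (k + 1) - ex ν (k + 1)) *
        x i2 ^ (ex ν (k + 1)))‖ ≤ ‖P x‖ ^ 2 + ε * r ^ (ex ν (k + 1)) := by
      refine (norm_add_le _ _).trans ?_
      rw [norm_pow, norm_mul, Complex.norm_real, Real.norm_of_nonneg hε0]
      gcongr
    have h4 : (2 * ‖P x‖) ^ 2 ≤ (C * r ^ (ex ν k)) ^ 2 := by gcongr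
    have h5 : (C * r ^ (ex ν k)) ^ 2 = C ^ 2 * r ^ (2 * ex ν k) := by
      rw [mul_pow]
      congr 1
      rw [← pow_mul, mul_comm (ex ν k) 2]
    rw [h5] at h4
    have h6 : C ^ 2 * r ^ (2 * ex ν k) ≤ C ^ 2 * r ^ (ex ν (k + 1)) := by gcongr
    have hpow : 0 ≤ r ^ (ex ν (k + 1)) := by positivity
    have h7 : 4 * r ^ (ex ν (k + 1)) ≤ C ^ 2 * r ^ (ex ν (k + 1)) := by
      have : (4 : ℝ) ≤ C ^ 2 := by nlinarith
      gcongr
    have h8 : ε * r ^ (ex ν (k + 1)) ≤ 1 * r ^ (ex ν (k + 1)) := by gcongr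
    have h9 : (2 * ‖P x‖) ^ 2 = 4 * ‖P x‖ ^ 2 := by ring
    linarith

lemma good_norm_le {ν : ℝ} {k : ℕ} {P : (Fin (m + 3) → ℂ) → ℂ} (hP : Good ν k P)
    {x : Fin (m + 3) → ℂ} (hx : ‖x‖ ≤ 1) : ‖P x‖ ≤ 2 ^ (2 ^ k) := by
  have := hP.bound x 1 ((norm_le_pi_norm x 0).trans hx)
    (fun j => (norm_le_pi_norm x j.succ).trans hx) le_rfl
  rw [one_pow, mul_one] at this
  have h2 : (0 : ℝ) ≤ 2 ^ (2 ^ k) := by positivity
  linarith

lemma good_pos {ν : ℝ} {k : ℕ} {P : (Fin (m + 3) → ℂ) → ℂ} (hP : Good ν k P)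
    {x : Fin (m + 3) → ℂ} (hx : Fin.tail x ≠ 0) : 0 < sumSq (Fk P k) x := by
  rw [sumSq_Fk]
  by_contra hcon
  push Not at hcon
  have h1 : 0 ≤ ‖P x‖ ^ 2 := by positivity
  have h2 : 0 ≤ ∑ j : Fin (m + 1), ‖x j.succ.succ‖ ^ (2 * 2 ^ k) :=
    Finset.sum_nonneg fun j _ => by positivity
  have h3 : ∑ j : Fin (m + 1), ‖x j.succ.succ‖ ^ (2 * 2 ^ k) = 0 := by linarith
  have h4 : ‖P x‖ ^ 2 = 0 := by linarith
  have h5 : ∀ j : Fin (m + 1), x j.succ.succ = 0 := by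
    intro j
    have := (Finset.sum_eq_zero_iff_of_nonneg (fun j _ => by positivity)).mp h3 j
      (Finset.mem_univ j)
    have h6 : 2 * 2 ^ k ≠ 0 := by positivity
    simpa [h6] using this
  have h6 : P x = x i1 ^ (2 ^ k) := hP.restr x (h5 0)
  have h7 : x i1 = 0 := by
    have : P x = 0 := by simpa using h4
    rw [h6] at this
    exact pow_eq_zero_iff (by positivity) |>.mp this
  apply hx
  ext j
  refine Fin.cases ?_ (fun j => ?_) j
  · exact h7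
  · exact h5 j

lemma contDiff_Fk {ν : ℝ} {k : ℕ} {P : (Fin (m + 3) → ℂ) → ℂ} (hP : Good ν k P) (j : Fin (m + 2)) :
    ContDiff ℂ ∞ (Fk P k j) := by
  refine Fin.cases ?_ (fun j => ?_) j
  · exact hP.smooth
  · rw [Fk_succ]
    fun_prop

/-- the minimum of `sumSq` on the compact set `Kset m k` -/
noncomputable def dl (k : ℕ) (P : (Fin (m + 3) → ℂ) → ℂ) : ℝ :=
  sInf ((fun x => sumSq (Fk P k) x) '' Kset m k)

lemma tail_ne_zero {k : ℕ} {x : Fin (m + 3) → ℂ} (hx : x ∈ Kset m k) : Fin.tail x ≠ 0 := by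
  intro h
  have := hx.2
  rw [h, norm_zero] at this
  have h2 : (0 : ℝ) < 1 / ((k : ℝ) + 1) := by positivity
  linarith

lemma Kset_nonempty (k : ℕ) : (Kset m k).Nonempty := by
  refine ⟨fun _ => 1, ?_, ?_⟩
  · simp
  · have : (Fin.tail (fun _ : Fin (m + 3) => (1 : ℂ)) : Fin (m + 2) → ℂ) = fun _ => 1 := rfl
    rw [this]
    simp only [one_div, pi_norm_const, norm_one]
    have : (1 : ℝ) ≤ (k : ℝ) + 1 := by linarith [Nat.cast_nonneg (α := ℝ) k]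
    exact inv_le_one_of_one_le₀ this

lemma dl_pos {ν : ℝ} {k : ℕ} {P : (Fin (m + 3) → ℂ) → ℂ} (hP : Good ν k P) : 0 < dl k P := by
  have hc : Continuous fun x => sumSq (Fk P k) x := (contDiff_sumSq (contDiff_Fk hP)).continuous
  obtain ⟨x, hx, hmin⟩ := (isCompact_Kset k).exists_isMinOn (Kset_nonempty k) hc.continuousOn
  have : dl k P = sumSq (Fk P k) x := by
    apply IsLeast.csInf_eq
    exact ⟨⟨x, hx, rfl⟩, by rintro _ ⟨y, hy, rfl⟩; exact hmin hy⟩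
  rw [this]
  exact good_pos hP (tail_ne_zero hx)

lemma dl_le {k : ℕ} {P : (Fin (m + 3) → ℂ) → ℂ} {x : Fin (m + 3) → ℂ}
    (hx : x ∈ Kset m k) : dl k P ≤ sumSq (Fk P k) x := by
  apply csInf_le
  · refine ⟨0, ?_⟩
    rintro _ ⟨y, _, rfl⟩
    exact Finset.sum_nonneg fun j _ => by positivity
  · exact ⟨x, hx, rfl⟩

/-- the perturbation size -/
noncomputable def epsOf (m k : ℕ) (δ : ℝ) : ℝ := δ ^ 2 / (8 * (m + 2) * (2 ^ (2 ^ k)) ^ 2)

/-- The recursion: the functions `P_k` and the regularisation parameters `δ_k`. -/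
noncomputable def st (m : ℕ) (ν : ℝ) : ℕ → ((Fin (m + 3) → ℂ) → ℂ) × ℝ
  | 0 => (fun x => x i1, min (Real.exp (-1)) (dl 0 (fun x : Fin (m + 3) → ℂ => x i1)))
  | k + 1 =>
    (nextP ν k (st m ν k).1 (epsOf m k (st m ν k).2),
      min (min ((st m ν k).2 ^ 2 / 2) (Real.exp (-(4 ^ (k + 1)))))
        (dl (k + 1) (nextP ν k (st m ν k).1 (epsOf m k (st m ν k).2))))

/-- the functions of the construction -/
noncomputable def PP (m : ℕ) (ν : ℝ) (k : ℕ) : (Fin (m + 3) → ℂ) → ℂ := (st m ν k).1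

/-- the regularisation parameters -/
noncomputable def dd (m : ℕ) (ν : ℝ) (k : ℕ) : ℝ := (st m ν k).2

/-- the perturbations -/
noncomputable def ee (m : ℕ) (ν : ℝ) (k : ℕ) : ℝ := epsOf m k (dd m ν k)

lemma PP_zero (m : ℕ) (ν : ℝ) : PP m ν 0 = fun x => x i1 := rfl

lemma PP_succ (m : ℕ) (ν : ℝ) (k : ℕ) : PP m ν (k + 1) = nextP ν k (PP m ν k) (ee m ν k) := rfl

lemma dd_zero (m : ℕ) (ν : ℝ) : dd m ν 0 = min (Real.exp (-1)) (dl 0 (PP m ν 0)) := rfl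

lemma dd_succ (m : ℕ) (ν : ℝ) (k : ℕ) : dd m ν (k + 1) =
    min (min (dd m ν k ^ 2 / 2) (Real.exp (-(4 ^ (k + 1))))) (dl (k + 1) (PP m ν (k + 1))) := rfl

lemma good_all {ν : ℝ} (h0 : 0 < ν) (h1 : ν ≤ 1) (k : ℕ) :
    Good ν k (PP m ν k) ∧ 0 < dd m ν k ∧ dd m ν k ≤ 1 ∧ 0 < ee m ν k ∧ ee m ν k ≤ 1 := by
  have key : ∀ k : ℕ, 0 < dd m ν k → dd m ν k ≤ 1 → 0 < ee m ν k ∧ ee m ν k ≤ 1 := by
    intro k hd0 hd1
    unfold ee epsOf
    constructor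
    · positivity
    · rw [div_le_one (by positivity)]
      have h2 := two_le_pow_pow k
      have h3 : (1 : ℝ) ≤ (2 ^ (2 ^ k)) ^ 2 := one_le_pow₀ (by linarith)
      have h4 : (0 : ℝ) ≤ m := Nat.cast_nonneg m
      have h5 : dd m ν k ^ 2 ≤ 1 := pow_le_one₀ hd0.le hd1
      nlinarith
  induction k with
  | zero =>
    have hg : Good ν 0 (PP m ν 0) := good_zero h0 h1
    have hd0 : 0 < dd m ν 0 := by
      rw [dd_zero]
      exact lt_min (Real.exp_pos _) (dl_pos hg)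
    have hd1 : dd m ν 0 ≤ 1 := by
      rw [dd_zero]
      exact (min_le_left _ _).trans (Real.exp_le_one_iff.mpr (by norm_num))
    exact ⟨hg, hd0, hd1, key 0 hd0 hd1⟩
  | succ k ih =>
    obtain ⟨hg, hd0, hd1, he0, he1⟩ := ih
    have hg' : Good ν (k + 1) (PP m ν (k + 1)) := by
      rw [PP_succ]
      exact good_next h0 h1 hg he0.le he1
    have hd0' : 0 < dd m ν (k + 1) := by
      rw [dd_succ]
      exact lt_min (lt_min (by positivity) (Real.exp_pos _)) (dl_pos hg')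
    have hd1' : dd m ν (k + 1) ≤ 1 := by
      rw [dd_succ]
      refine (min_le_left _ _).trans ((min_le_left _ _).trans ?_)
      have : dd m ν k ^ 2 ≤ 1 := pow_le_one₀ hd0.le hd1
      linarith
    exact ⟨hg', hd0', hd1', key _ hd0' hd1'⟩

lemma dd_le_exp {ν : ℝ} (k : ℕ) : dd m ν k ≤ Real.exp (-(4 ^ k)) := by
  cases k with
  | zero =>
    rw [dd_zero]
    simp
  | succ k =>
    rw [dd_succ]
    exact (min_le_left _ _).trans (min_le_right _ _)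

lemma dd_le_sumSq {ν : ℝ} (k : ℕ) {x : Fin (m + 3) → ℂ} (hx : x ∈ Kset m k) :
    dd m ν k ≤ sumSq (Fk (PP m ν k) k) x := by
  refine le_trans ?_ (dl_le hx)
  cases k with
  | zero => rw [dd_zero]; exact min_le_right _ _
  | succ k => rw [dd_succ]; exact min_le_right _ _

lemma dd_succ_le {ν : ℝ} (k : ℕ) : dd m ν (k + 1) ≤ dd m ν k ^ 2 / 2 := by
  rw [dd_succ]
  exact (min_le_left _ _).trans (min_le_left _ _)

end Pool.Agent.Helper853
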