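import Pool.Agent.Helper853.Compare

open scoped Topology ContDiff ComplexOrder ENNReal Matrix

namespace Pool.Agent.Helper853

variable {n : ℕ}

lemma det_affine_hermitian {A : Matrix (Fin n) (Fin n) ℂ} (hA : A.IsHermitian) (s t : ℂ) :
    (s • A + t • (1 : Matrix (Fin n) (Fin n) ℂ)).det = ∏ i, (s * (hA.eigenvalues i : ℂ) + t) := by
  set U := hA.eigenvectorUnitary with hU
  have h1 := hA.conjStarAlgAut_star_eigenvectorUnitary
  have h2 : Unitary.conjStarAlgAut ℂ _ (star U) (s • A + t • (1 : Matrix (Fin n) (Fin n) ℂ)) =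
      Matrix.diagonal (fun i => s * (hA.eigenvalues i : ℂ) + t) := by
    rw [map_add, map_smul, map_smul, map_one, h1]
    ext i j
    simp only [Matrix.add_apply, Matrix.smul_apply, Matrix.diagonal_apply, Matrix.one_apply,
      Function.comp_apply, smul_eq_mul]
    split_ifs with h <;> simp
  have h3 : (Unitary.conjStarAlgAut ℂ _ (star U) (s • A + t • (1 : Matrix (Fin n) (Fin n) ℂ))).det =
      (s • A + t • (1 : Matrix (Fin n) (Fin n) ℂ)).det := by
    rw [Unitary.conjStarAlgAut_apply, Matrix.det_mul, Matrix.det_mul, mul_comm, ← mul_assoc,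
      ← Matrix.det_mul]
    simp
  rw [← h3, h2, Matrix.det_diagonal]

open scoped MatrixOrder Matrix.Norms.L2Operator in
lemma exists_factor {C : Matrix (Fin n) (Fin n) ℂ} (hC : C.PosSemidef) :
    ∃ Q : Matrix (Fin n) (Fin n) ℂ, C = Qᴴ * Q := by
  obtain ⟨B, hB⟩ := CStarAlgebra.nonneg_iff_eq_star_mul_self.mp hC.nonneg
  exact ⟨B, hB⟩

/-- If `A` and `B` are positive semidefinite and `A` is singular, then mixing `B` in with weight
`η` produces a determinant of size `O(η)`. -/
theorem det_combo_le {A B : Matrix (Fin n) (Fin n) ℂ} (hA : A.PosSemidef) (hB : B.PosSemidef)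
    (hdet : A.det = 0) {η : ℝ} (h0 : 0 ≤ η) (h1 : η ≤ 1) :
    ((((1 - η : ℝ) : ℂ) • A + (η : ℂ) • B).det).re ≤ η * ((A + B).det).re := by
  have hC : (A + B).PosSemidef := hA.add hB
  by_cases hCd : (A + B).det = 0
  · obtain ⟨v, hv0, hv⟩ := Matrix.exists_mulVec_eq_zero_iff.mpr hCd
    have e1 : star v ⬝ᵥ (A + B).mulVec v = 0 := by rw [hv]; simp
    rw [Matrix.add_mulVec, dotProduct_add] at e1
    have a1 := hA.dotProduct_mulVec_nonneg v
    have b1 := hB.dotProduct_mulVec_nonneg v
    have a2 : star v ⬝ᵥ A.mulVec v = 0 := by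
      apply le_antisymm _ a1
      calc star v ⬝ᵥ A.mulVec v ≤ star v ⬝ᵥ A.mulVec v + star v ⬝ᵥ B.mulVec v :=
            le_add_of_nonneg_right b1
        _ = 0 := e1
    have b2 : star v ⬝ᵥ B.mulVec v = 0 := by rw [a2, zero_add] at e1; exact e1
    have a3 := (hA.dotProduct_mulVec_zero_iff v).mp a2
    have b3 := (hB.dotProduct_mulVec_zero_iff v).mp b2
    have : (((1 - η : ℝ) : ℂ) • A + (η : ℂ) • B).det = 0 := by
      apply Matrix.exists_mulVec_eq_zero_iff.mp
      refine ⟨v, hv0, ?_⟩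
      rw [Matrix.add_mulVec, Matrix.smul_mulVec, Matrix.smul_mulVec, a3, b3]
      simp
    rw [this, hCd]
    simp
  · obtain ⟨Q, hQ⟩ : ∃ Q : Matrix (Fin n) (Fin n) ℂ, A + B = Qᴴ * Q := exists_factor hC
    have hQd : Q.det ≠ 0 := by
      intro h
      apply hCd
      rw [hQ, Matrix.det_mul, h, mul_zero]
    have hQu : IsUnit Q.det := isUnit_iff_ne_zero.mpr hQd
    set R := Q⁻¹ with hR
    have hQR : Q * R = 1 := Matrix.mul_nonsing_inv Q hQu
    have hRQ : R * Q = 1 := Matrix.nonsing_inv_mul Q hQu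
    have hQRh : Qᴴ * Rᴴ = 1 := by rw [← Matrix.conjTranspose_mul, hRQ]; simp
    have hRQh : Rᴴ * Qᴴ = 1 := by rw [← Matrix.conjTranspose_mul, hQR]; simp
    set A' := Rᴴ * A * R with hA'
    set B' := Rᴴ * B * R with hB'
    have pA : A'.PosSemidef := hA.conjTranspose_mul_mul_same R
    have pB : B'.PosSemidef := hB.conjTranspose_mul_mul_same R
    have hsum : A' + B' = 1 := by
      have : A' + B' = Rᴴ * (A + B) * R := by
        rw [hA', hB', ← Matrix.add_mul, ← Matrix.mul_add]
      rw [this, hQ]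
      calc Rᴴ * (Qᴴ * Q) * R = (Rᴴ * Qᴴ) * (Q * R) := by simp only [Matrix.mul_assoc]
        _ = 1 := by rw [hRQh, hQR, one_mul]
    have hAe : A = Qᴴ * A' * Q := by
      rw [hA']
      calc A = (Qᴴ * Rᴴ) * A * (R * Q) := by rw [hQRh, hRQ, one_mul, mul_one]
        _ = _ := by simp only [Matrix.mul_assoc]
    have hBe : B = Qᴴ * B' * Q := by
      rw [hB']
      calc B = (Qᴴ * Rᴴ) * B * (R * Q) := by rw [hQRh, hRQ, one_mul, mul_one]
        _ = _ := by simp only [Matrix.mul_assoc]
    have hB1 : B' = 1 - A' := by rw [← hsum]; simp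
    set s : ℝ := 1 - 2 * η with hs
    have hcomb : ((1 - η : ℝ) : ℂ) • A + (η : ℂ) • B =
        Qᴴ * (((s : ℝ) : ℂ) • A' + (η : ℂ) • (1 : Matrix (Fin n) (Fin n) ℂ)) * Q := by
      conv_lhs => rw [hAe, hBe, hB1]
      rw [hs]
      simp only [Matrix.mul_sub, Matrix.sub_mul, Matrix.mul_add, Matrix.add_mul, Matrix.mul_smul,
        Matrix.smul_mul, Matrix.mul_one, smul_sub]
      push_cast
      module
    have hdA' : A'.det = 0 := by
      rw [hA', Matrix.det_mul, Matrix.det_mul, hdet]; simp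
    have hprod : (((s : ℝ) : ℂ) • A' + (η : ℂ) • (1 : Matrix (Fin n) (Fin n) ℂ)).det =
        ((∏ i, (s * pA.1.eigenvalues i + η) : ℝ) : ℂ) := by
      rw [det_affine_hermitian pA.1]
      push_cast
      rfl
    have hdetC : (A + B).det = Qᴴ.det * Q.det := by rw [hQ, Matrix.det_mul]
    have hdetc : (((1 - η : ℝ) : ℂ) • A + (η : ℂ) • B).det =
        (A + B).det * ((∏ i, (s * pA.1.eigenvalues i + η) : ℝ) : ℂ) := by
      rw [hcomb, Matrix.det_mul, Matrix.det_mul, hprod, hdetC]
      ring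
    -- eigenvalues in [0,1]
    have hl0 : ∀ i, 0 ≤ pA.1.eigenvalues i := fun i => pA.eigenvalues_nonneg i
    have hl1 : ∀ i, pA.1.eigenvalues i ≤ 1 := by
      intro i
      have := pB.dotProduct_mulVec_nonneg (pA.1.eigenvectorBasis i).ofLp
      rw [hB1, Matrix.sub_mulVec, Matrix.one_mulVec, dotProduct_sub,
        pA.1.mulVec_eigenvectorBasis, dotProduct_smul] at this
      have hn : star (pA.1.eigenvectorBasis i).ofLp ⬝ᵥ (pA.1.eigenvectorBasis i).ofLp = (1 : ℂ) := by
        rw [dotProduct_comm, ← EuclideanSpace.inner_eq_star_dotProduct]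
        rw [inner_self_eq_norm_sq_to_K, pA.1.eigenvectorBasis.orthonormal.1 i]
        simp
      rw [hn] at this
      have h2 : (0 : ℂ) ≤ ((1 - pA.1.eigenvalues i : ℝ) : ℂ) := by
        convert this using 1
        push_cast
        simp
      have h3 := Complex.zero_le_real.mp h2
      linarith
    have hex : ∃ i, pA.1.eigenvalues i = 0 := by
      have := pA.1.det_eq_prod_eigenvalues
      rw [hdA'] at this
      obtain ⟨i, -, hi⟩ := Finset.prod_eq_zero_iff.mp this.symm
      exact ⟨i, by simpa using hi⟩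
    obtain ⟨i₀, hi₀⟩ := hex
    have hfac0 : ∀ i, 0 ≤ s * pA.1.eigenvalues i + η := by
      intro i
      have := hl0 i
      have := hl1 i
      rw [hs]
      nlinarith
    have hfac1 : ∀ i, s * pA.1.eigenvalues i + η ≤ 1 := by
      intro i
      have := hl0 i
      have := hl1 i
      rw [hs]
      nlinarith
    have hprod_le : ∏ i, (s * pA.1.eigenvalues i + η) ≤ η := by
      rw [← Finset.mul_prod_erase Finset.univ _ (Finset.mem_univ i₀), hi₀, mul_zero, zero_add]
      have : ∏ i ∈ Finset.univ.erase i₀, (s * pA.1.eigenvalues i + η) ≤ 1 :=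
        Finset.prod_le_one (fun i _ => hfac0 i) (fun i _ => hfac1 i)
      nlinarith
    have hCre : 0 ≤ ((A + B).det).re := (Complex.nonneg_iff.mp hC.det_nonneg).1
    rw [hdetc, Complex.re_mul_ofReal]
    nlinarith

end Pool.Agent.Helper853
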