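import Pool.Agent.Helper853.Levi

open scoped Topology ContDiff ComplexOrder
open MeasureTheory Filter

namespace Pool.Agent.Helper853

section cutoff

variable {n : ℕ}

lemma exists_cutoff {Ω L : Set (Fin n → ℂ)} (hΩ : IsOpen Ω) (hL : IsCompact L) (hLΩ : L ⊆ Ω) :
    ∃ χ : (Fin n → ℂ) → ℝ, ContDiff ℝ ∞ χ ∧ HasCompactSupport χ ∧ tsupport χ ⊆ Ω ∧
      ∀ x ∈ L, ∀ᶠ y in 𝓝 x, χ y = 1 := by
  obtain ⟨K, hK, hLK, hKΩ⟩ := exists_compact_between hL hΩ hLΩ
  obtain ⟨f, hf0, hf1, -⟩ := exists_contMDiffMap_zero_one_nhds_of_isClosed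
    (modelWithCornersSelf ℝ (Fin n → ℂ)) (n := ⊤)
    (s := (interior K)ᶜ) (t := L) isOpen_interior.isClosed_compl hL.isClosed
    (Set.disjoint_left.mpr fun x hx hx' => hx (hLK hx'))
  have hsupp : Function.support f ⊆ K := by
    intro x hx
    by_contra hxK
    apply hx
    exact hf0.self_of_nhdsSet x (fun h => hxK (interior_subset h))
  have hts : tsupport f ⊆ K := closure_minimal hsupp hK.isClosed
  refine ⟨f, ?_, ?_, hts.trans hKΩ, ?_⟩
  · exact f.contMDiff.contDiff
  · exact hK.of_isClosed_subset (isClosed_tsupport _) hts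
  · intro x hx
    exact (eventually_nhdsSet_iff_forall.mp hf1) x hx

lemma contDiff_cutoff_mul {Ω : Set (Fin n → ℂ)} (hΩ : IsOpen Ω) {χ u : (Fin n → ℂ) → ℝ}
    (hχ : ContDiff ℝ ∞ χ) (hs : tsupport χ ⊆ Ω) (hu : ContDiffOn ℝ ∞ u Ω) :
    ContDiff ℝ ∞ fun x => χ x * u x := by
  rw [contDiff_iff_contDiffAt]
  intro x
  by_cases hx : x ∈ tsupport χ
  · exact hχ.contDiffAt.mul (hu.contDiffAt (hΩ.mem_nhds (hs hx)))
  · have h0 : χ =ᶠ[𝓝 x] fun _ => 0 := notMem_tsupport_iff_eventuallyEq.mp hx
    have h1 : (fun x => χ x * u x) =ᶠ[𝓝 x] fun _ => 0 := by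
      filter_upwards [h0] with y hy
      rw [hy, zero_mul]
    exact contDiffAt_const.congr_of_eventuallyEq h1

lemma continuousOn_cHess {Ω : Set (Fin n → ℂ)} (hΩ : IsOpen Ω) {u : (Fin n → ℂ) → ℝ}
    (hu : ContDiffOn ℝ ∞ u Ω) : ContinuousOn (cHess u) Ω := by
  intro x hx
  apply ContinuousAt.continuousWithinAt
  -- localise
  obtain ⟨χ, hχ, hχc, hχs, hχ1⟩ := exists_cutoff hΩ (isCompact_singleton (x := x))
    (by simpa using hx)
  have sw : ContDiff ℝ ∞ (fun y => χ y * u y) := contDiff_cutoff_mul hΩ hχ hχs hu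
  have hu' : ContDiff ℝ ∞ fun y => ((χ y * u y : ℝ) : ℂ) := Complex.ofRealCLM.contDiff.comp sw
  have c1 : Continuous fun y => cHess (fun y => χ y * u y) y := by
    apply continuous_matrix
    intro i j
    exact (contDiff_dz (contDiff_dzbar hu' j) i).continuous
  have hev : (fun y => χ y * u y) =ᶠ[𝓝 x] u := by
    filter_upwards [hχ1 x rfl] with y hy
    rw [hy, one_mul]
  refine c1.continuousAt.congr ?_
  filter_upwards [hev.eventually_nhds] with y hy
  exact cHess_congr hy

/-- Stokes theorem: if two smooth functions agree off a compact subset of an open set, their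
complex Monge-Ampere masses on it agree. -/
theorem setIntegral_det_eq {m : ℕ} {Ω L : Set (Fin (m + 1) → ℂ)} (hΩ : IsOpen Ω)
    (hL : IsCompact L) (hLΩ : L ⊆ Ω) {w v : (Fin (m + 1) → ℂ) → ℝ} (hw : ContDiffOn ℝ ∞ w Ω)
    (hv : ContDiffOn ℝ ∞ v Ω) (heq : ∀ x ∈ Ω \ L, w x = v x) :
    ∫ x in L, (cHess w x).det = ∫ x in L, (cHess v x).det := by
  obtain ⟨χ, hχ, hχc, hχs, hχ1⟩ := exists_cutoff hΩ hL hLΩ
  set w' := fun x => χ x * w x with hw'
  set v' := fun x => χ x * v x with hv'
  have sw : ContDiff ℝ ∞ w' := contDiff_cutoff_mul hΩ hχ hχs hw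
  have sv : ContDiff ℝ ∞ v' := contDiff_cutoff_mul hΩ hχ hχs hv
  have cw : HasCompactSupport w' := hχc.mul_right
  have cv : HasCompactSupport v' := hχc.mul_right
  have iw := integral_det_cHess_eq_zero sw cw
  have iv := integral_det_cHess_eq_zero sv cv
  have hint : ∀ u : (Fin (m + 1) → ℂ) → ℝ, ContDiff ℝ ∞ u → HasCompactSupport u →
      Integrable fun x => (cHess u x).det := by
    intro u hu hc
    have hu' : ContDiff ℝ ∞ fun y => (u y : ℂ) := Complex.ofRealCLM.contDiff.comp hu
    have c1 : Continuous fun x => cHess u x := by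
      apply continuous_matrix
      intro i j
      exact (contDiff_dz (contDiff_dzbar hu' j) i).continuous
    apply Continuous.integrable_of_hasCompactSupport (c1.matrix_det)
    apply HasCompactSupport.intro hc
    intro x hx
    have : u =ᶠ[𝓝 x] fun _ => 0 := notMem_tsupport_iff_eventuallyEq.mp hx
    rw [cHess_congr this]
    have h0 : cHess (fun _ : Fin (m + 1) → ℂ => (0 : ℝ)) x = 0 := by
      ext i j
      have hz : dzbar j (fun _ : Fin (m + 1) → ℂ => (0 : ℂ)) = fun _ => 0 := by
        ext y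
        simp [dzbar]
      simp only [cHess, Matrix.of_apply, Complex.ofReal_zero, hz]
      simp [dz]
    rw [h0]
    simp
  -- split the integrals
  have hLm : MeasurableSet L := hL.measurableSet
  have s1 := integral_add_compl hLm (hint w' sw cw)
  have s2 := integral_add_compl hLm (hint v' sv cv)
  have e1 : ∫ x in L, (cHess w' x).det = ∫ x in L, (cHess w x).det := by
    apply setIntegral_congr_fun hLm
    intro x hx
    have : w' =ᶠ[𝓝 x] w := by
      filter_upwards [hχ1 x hx] with y hy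
      simp [hw', hy]
    simp only [cHess_congr this]
  have e2 : ∫ x in L, (cHess v' x).det = ∫ x in L, (cHess v x).det := by
    apply setIntegral_congr_fun hLm
    intro x hx
    have : v' =ᶠ[𝓝 x] v := by
      filter_upwards [hχ1 x hx] with y hy
      simp [hv', hy]
    simp only [cHess_congr this]
  have e3 : ∫ x in Lᶜ, (cHess w' x).det = ∫ x in Lᶜ, (cHess v' x).det := by
    apply setIntegral_congr_fun hLm.compl
    intro x hx
    have : w' =ᶠ[𝓝 x] v' := by
      filter_upwards [hL.isClosed.isOpen_compl.mem_nhds hx] with y hy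
      simp only [hw', hv']
      by_cases hyΩ : y ∈ Ω
      · rw [heq y ⟨hyΩ, hy⟩]
      · have : χ y = 0 := by
          by_contra h
          exact hyΩ (hχs (subset_tsupport _ h))
        rw [this, zero_mul, zero_mul]
    simp only [cHess_congr this]
  rw [← e1, ← e2]
  rw [iw] at s1
  rw [iv] at s2
  rw [e3] at s1
  have := s1.trans s2.symm
  exact add_right_cancel this

end cutoff

section gluefun

/-- A smooth convex function vanishing for `s ≤ -c` and of slope one for `s ≥ c`. -/
noncomputable def glue (c s : ℝ) : ℝ := ∫ t in (-c)..s, Real.smoothTransition ((t + c) / (2 * c))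

lemma hasDerivAt_glue (c s : ℝ) :
    HasDerivAt (glue c) (Real.smoothTransition ((s + c) / (2 * c))) s := by
  have hc : Continuous fun t => Real.smoothTransition ((t + c) / (2 * c)) :=
    Real.smoothTransition.continuous.comp (by fun_prop)
  exact intervalIntegral.integral_hasDerivAt_right (hc.intervalIntegrable _ _)
    (hc.stronglyMeasurableAtFilter _ _) hc.continuousAt

lemma deriv_glue (c : ℝ) : deriv (glue c) = fun s => Real.smoothTransition ((s + c) / (2 * c)) :=
  funext fun s => (hasDerivAt_glue c s).deriv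

lemma contDiff_glue (c : ℝ) : ContDiff ℝ ∞ (glue c) := by
  rw [contDiff_infty_iff_deriv]
  refine ⟨fun s => (hasDerivAt_glue c s).differentiableAt, ?_⟩
  rw [deriv_glue]
  exact (Real.smoothTransition.contDiff (n := ⊤)).comp (by fun_prop)

lemma glue_of_le {c s : ℝ} (hc : 0 < c) (hs : s ≤ -c) : glue c s = 0 := by
  unfold glue
  rw [intervalIntegral.integral_symm, neg_eq_zero]
  apply intervalIntegral.integral_zero_ae
  filter_upwards with t ht
  rw [Set.uIoc_of_le hs] at ht
  apply Real.smoothTransition.zero_of_nonpos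
  apply div_nonpos_of_nonpos_of_nonneg <;> linarith [ht.2]

lemma glue_of_ge {c s : ℝ} (hc : 0 < c) (hs : c ≤ s) : glue c s = s + (glue c c - c) := by
  have h1 : glue c s - glue c c = ∫ t in c..s, Real.smoothTransition ((t + c) / (2 * c)) := by
    unfold glue
    have hc' : Continuous fun t => Real.smoothTransition ((t + c) / (2 * c)) :=
      Real.smoothTransition.continuous.comp (by fun_prop)
    rw [intervalIntegral.integral_interval_sub_left (hc'.intervalIntegrable _ _)
      (hc'.intervalIntegrable _ _)]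
  have h2 : ∫ t in c..s, Real.smoothTransition ((t + c) / (2 * c)) = ∫ t in c..s, (1 : ℝ) := by
    apply intervalIntegral.integral_congr
    intro t ht
    rw [Set.uIcc_of_le hs] at ht
    apply Real.smoothTransition.one_of_one_le
    rw [le_div_iff₀ (by linarith)]
    linarith [ht.1]
  rw [h2] at h1
  simp at h1
  linarith

lemma deriv_glue_nonneg (c s : ℝ) : 0 ≤ deriv (glue c) s := by
  rw [deriv_glue]; exact Real.smoothTransition.nonneg _

lemma deriv_glue_le_one (c s : ℝ) : deriv (glue c) s ≤ 1 := by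
  rw [deriv_glue]; exact Real.smoothTransition.le_one _

lemma deriv_deriv_glue_nonneg {c : ℝ} (hc : 0 < c) (s : ℝ) : 0 ≤ deriv (deriv (glue c)) s := by
  apply Monotone.deriv_nonneg
  rw [deriv_glue]
  intro a b hab
  apply Real.smoothTransition.monotone
  gcongr

end gluefun

section secondderiv

variable {n : ℕ}

lemma fderiv_diffAt {u : (Fin n → ℂ) → ℝ} {x : Fin n → ℂ} (hu : ContDiffAt ℝ 2 u x) :
    DifferentiableAt ℝ (fderiv ℝ u) x := by
  have : ContDiffAt ℝ 1 (fderiv ℝ u) x := hu.fderiv_right (by norm_num)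
  exact this.differentiableAt (by norm_num)

lemma eventually_diffAt {u : (Fin n → ℂ) → ℝ} {x : Fin n → ℂ} (hu : ContDiffAt ℝ 2 u x) :
    ∀ᶠ y in 𝓝 x, DifferentiableAt ℝ u y := by
  filter_upwards [hu.eventually (by simp)] with y hy
  exact hy.differentiableAt (by norm_num)

lemma lap2_add {u v : (Fin n → ℂ) → ℝ} {x : Fin n → ℂ} (hu : ContDiffAt ℝ 2 u x)
    (hv : ContDiffAt ℝ 2 v x) (w : Fin n → ℂ) :
    lap2 (fun y => u y + v y) x w = lap2 u x w + lap2 v x w := by
  have h : fderiv ℝ (fun y => u y + v y) =ᶠ[𝓝 x] fun y => fderiv ℝ u y + fderiv ℝ v y := by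
    filter_upwards [eventually_diffAt hu, eventually_diffAt hv] with y h1 h2
    exact fderiv_fun_add h1 h2
  unfold lap2
  rw [h.fderiv_eq, fderiv_fun_add (fderiv_diffAt hu) (fderiv_diffAt hv)]
  simp only [_root_.add_apply]
  ring

lemma lap2_const_mul {u : (Fin n → ℂ) → ℝ} {x : Fin n → ℂ} (hu : ContDiffAt ℝ 2 u x) (c : ℝ)
    (w : Fin n → ℂ) :
    lap2 (fun y => c * u y) x w = c * lap2 u x w := by
  have h : fderiv ℝ (fun y => c * u y) =ᶠ[𝓝 x] fun y => c • fderiv ℝ u y := by
    filter_upwards [eventually_diffAt hu] with y h1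
    exact fderiv_const_mul h1 c
  unfold lap2
  rw [h.fderiv_eq, fderiv_fun_const_smul (fderiv_diffAt hu)]
  simp only [_root_.smul_apply, smul_eq_mul]
  ring

lemma lap2_const (c : ℝ) (x w : Fin n → ℂ) : lap2 (fun _ => c) x w = 0 := by
  unfold lap2
  simp

lemma lap2_add_const (u : (Fin n → ℂ) → ℝ) (c : ℝ) (x w : Fin n → ℂ) :
    lap2 (fun y => u y + c) x w = lap2 u x w := by
  have h : fderiv ℝ (fun y => u y + c) = fderiv ℝ u := by
    ext1 y
    simp
  unfold lap2
  rw [h]

lemma lap2_comp {g : ℝ → ℝ} (hg : ContDiff ℝ ∞ g) {f : (Fin n → ℂ) → ℝ} {x : Fin n → ℂ}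
    (hf : ContDiffAt ℝ 2 f x) (v : Fin n → ℂ) :
    lap2 (fun y => g (f y)) x v = deriv (deriv g) (f x) *
      ((fderiv ℝ f x v) ^ 2 + (fderiv ℝ f x (Complex.I • v)) ^ 2) +
      deriv g (f x) * lap2 f x v := by
  have hg' : ContDiff ℝ ∞ (deriv g) := (contDiff_infty_iff_deriv.mp hg).2
  have h : fderiv ℝ (fun y => g (f y)) =ᶠ[𝓝 x] fun y => deriv g (f y) • fderiv ℝ f y := by
    filter_upwards [eventually_diffAt hf] with y h1
    have := ((hg.differentiable (by simp)).differentiableAt (x := f y)).hasDerivAt.comp_hasFDerivAt y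
      h1.hasFDerivAt
    exact this.fderiv
  have h2 : HasFDerivAt (fun y => deriv g (f y)) (deriv (deriv g) (f x) • fderiv ℝ f x) x := by
    have hd : DifferentiableAt ℝ f x := hf.differentiableAt (by norm_num)
    exact ((hg'.differentiable (by simp)).differentiableAt
      (x := f x)).hasDerivAt.comp_hasFDerivAt x hd.hasFDerivAt
  have h3 := h2.smul (fderiv_diffAt hf).hasFDerivAt
  unfold lap2
  rw [h.fderiv_eq]
  have h4 : fderiv ℝ (fun y => deriv g (f y) • fderiv ℝ f y) x = _ := h3.fderiv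
  rw [h4]
  simp only [_root_.add_apply, _root_.smul_apply, ContinuousLinearMap.smulRight_apply, smul_eq_mul]
  ring

/-- The glued function `φ + g(u - φ)` is psh where `u` and `φ` are. -/
lemma lap2_glue_nonneg {c : ℝ} (hc : 0 < c) {φ u : (Fin n → ℂ) → ℝ} {x : Fin n → ℂ}
    (hφ : ContDiffAt ℝ 2 φ x) (hu : ContDiffAt ℝ 2 u x) (v : Fin n → ℂ)
    (h1 : 0 ≤ lap2 φ x v) (h2 : 0 ≤ lap2 u x v) :
    0 ≤ lap2 (fun y => φ y + glue c (u y - φ y)) x v := by
  have hd : ContDiffAt ℝ 2 (fun y => u y - φ y) x := hu.sub hφ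
  have hg : ContDiffAt ℝ 2 (fun y => glue c (u y - φ y)) x :=
    (((contDiff_glue c).of_le ENat.LEInfty.out).contDiffAt).comp x hd
  rw [lap2_add hφ hg, lap2_comp (contDiff_glue c) hd]
  have e : lap2 (fun y => u y - φ y) x v = lap2 u x v - lap2 φ x v := by
    have : (fun y => u y - φ y) = fun y => u y + (-1) * φ y := by
      ext y; ring
    rw [this, lap2_add hu (contDiffAt_const.mul hφ), lap2_const_mul hφ]
    ring
  rw [e]
  have g0 := deriv_glue_nonneg c (u x - φ x)
  have g1 := deriv_glue_le_one c (u x - φ x)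
  have g2 := deriv_deriv_glue_nonneg hc (u x - φ x)
  have : 0 ≤ deriv (deriv (glue c)) (u x - φ x) *
      ((fderiv ℝ (fun y => u y - φ y) x v) ^ 2 +
        (fderiv ℝ (fun y => u y - φ y) x (Complex.I • v)) ^ 2) := by positivity
  nlinarith

end secondderiv

end Pool.Agent.Helper853
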