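import Pool.Agent.Helper853.SmallMass

open scoped Topology ContDiff ComplexOrder ENNReal ComplexConjugate
open MeasureTheory Filter

namespace Pool.Agent.Helper853

variable {n : ℕ}

lemma lap2_comp' {g : ℝ → ℝ} {f : (Fin n → ℂ) → ℝ} {x : Fin n → ℂ}
    (hg1 : ∀ᶠ t in 𝓝 (f x), DifferentiableAt ℝ g t) (hg2 : DifferentiableAt ℝ (deriv g) (f x))
    (hf : ContDiffAt ℝ 2 f x) (v : Fin n → ℂ) :
    lap2 (fun y => g (f y)) x v = deriv (deriv g) (f x) *
      ((fderiv ℝ f x v) ^ 2 + (fderiv ℝ f x (Complex.I • v)) ^ 2) +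
      deriv g (f x) * lap2 f x v := by
  have hg1' : ∀ᶠ y in 𝓝 x, DifferentiableAt ℝ g (f y) := hf.continuousAt.eventually hg1
  have h : fderiv ℝ (fun y => g (f y)) =ᶠ[𝓝 x] fun y => deriv g (f y) • fderiv ℝ f y := by
    filter_upwards [eventually_diffAt hf, hg1'] with y h1 h2
    exact (h2.hasDerivAt.comp_hasFDerivAt y h1.hasFDerivAt).fderiv
  have h2 : HasFDerivAt (fun y => deriv g (f y)) (deriv (deriv g) (f x) • fderiv ℝ f x) x := by
    have hd : DifferentiableAt ℝ f x := hf.differentiableAt (by norm_num)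
    exact hg2.hasDerivAt.comp_hasFDerivAt x hd.hasFDerivAt
  have h3 := h2.smul (fderiv_diffAt hf).hasFDerivAt
  unfold lap2
  rw [h.fderiv_eq]
  have h4 : fderiv ℝ (fun y => deriv g (f y) • fderiv ℝ f y) x = _ := h3.fderiv
  rw [h4]
  simp only [_root_.add_apply, _root_.smul_apply, ContinuousLinearMap.smulRight_apply, smul_eq_mul]
  ring

/-- Real differential of a holomorphic function is complex linear. -/
lemma fderiv_smul_I {f : (Fin n → ℂ) → ℂ} {x : Fin n → ℂ} (hf : DifferentiableAt ℂ f x)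
    (w : Fin n → ℂ) : fderiv ℝ f x (Complex.I • w) = Complex.I * fderiv ℝ f x w := by
  rw [hf.fderiv_restrictScalars ℝ]
  simp

lemma snd_smul_I {f : (Fin n → ℂ) → ℂ} (hf : ContDiff ℂ ∞ f) (x v : Fin n → ℂ) :
    fderiv ℝ (fderiv ℝ f) x (Complex.I • v) (Complex.I • v) =
      - fderiv ℝ (fderiv ℝ f) x v v := by
  have hR : ContDiff ℝ ∞ f := hf.restrict_scalars ℝ
  have h2 : ContDiffAt ℝ 2 f x := (hR.of_le ENat.LEInfty.out).contDiffAt
  have hd : ∀ y, DifferentiableAt ℂ f y := fun y => (hf.differentiable (by simp)).differentiableAt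
  have step : ∀ a w : Fin n → ℂ, fderiv ℝ (fderiv ℝ f) x a (Complex.I • w) =
      Complex.I * fderiv ℝ (fderiv ℝ f) x a w := by
    intro a w
    rw [← fderiv_fderiv_apply h2, ← fderiv_fderiv_apply h2]
    have : (fun y => fderiv ℝ f y (Complex.I • w)) = fun y => Complex.I * fderiv ℝ f y w := by
      ext y
      exact fderiv_smul_I (hd y) w
    rw [this, fderiv_const_mul]
    · rfl
    · have h1 : DifferentiableAt ℝ (fderiv ℝ f) x := by
        have : ContDiffAt ℝ 1 (fderiv ℝ f) x := h2.fderiv_right (by norm_num)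
        exact this.differentiableAt (by norm_num)
      exact h1.clm_apply (differentiableAt_const _)
  rw [step, snd_symm h2, step, ← mul_assoc, Complex.I_mul_I]
  ring

/-- The real part of a holomorphic function has vanishing Levi form. -/
lemma lap2_clm {f : (Fin n → ℂ) → ℂ} (hf : ContDiff ℂ ∞ f) (ℓ : ℂ →L[ℝ] ℝ) (x v : Fin n → ℂ) :
    lap2 (fun y => ℓ (f y)) x v = 0 := by
  have hR : ContDiff ℝ ∞ f := hf.restrict_scalars ℝ
  have h2 : ContDiffAt ℝ 2 f x := (hR.of_le ENat.LEInfty.out).contDiffAt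
  have h : fderiv ℝ (fun y => ℓ (f y)) = fun y => ℓ.comp (fderiv ℝ f y) := by
    ext1 y
    exact (ℓ.hasFDerivAt.comp y
      ((hR.differentiable (by simp)).differentiableAt (x := y)).hasFDerivAt).fderiv
  have h1 : DifferentiableAt ℝ (fderiv ℝ f) x := by
    have : ContDiffAt ℝ 1 (fderiv ℝ f) x := h2.fderiv_right (by norm_num)
    exact this.differentiableAt (by norm_num)
  have h3 : ∀ a w : Fin n → ℂ, fderiv ℝ (fderiv ℝ (fun y => ℓ (f y))) x a w =
      ℓ (fderiv ℝ (fderiv ℝ f) x a w) := by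
    intro a w
    have hc : ContDiffAt ℝ 2 (fun y => ℓ (f y)) x := ℓ.contDiff.contDiffAt.comp x h2
    rw [← fderiv_fderiv_apply hc, ← fderiv_fderiv_apply h2, h]
    have : (fun y => (ℓ.comp (fderiv ℝ f y)) w) = fun y => ℓ (fderiv ℝ f y w) := rfl
    rw [this]
    have h4 := (ℓ.hasFDerivAt.comp x (h1.clm_apply (differentiableAt_const w)).hasFDerivAt)
    have h5 : HasFDerivAt (fun y => ℓ (fderiv ℝ f y w))
      (ℓ.comp (fderiv ℝ (fun y => fderiv ℝ f y w) x)) x := h4
    rw [h5.fderiv]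
    rfl
  unfold lap2
  rw [h3, h3, snd_smul_I hf, map_neg]
  ring

lemma lap2_sq {p : (Fin n → ℂ) → ℝ} {x : Fin n → ℂ} (hp : ContDiffAt ℝ 2 p x) (v : Fin n → ℂ) :
    lap2 (fun y => p y ^ 2) x v = 2 * ((fderiv ℝ p x v) ^ 2 + (fderiv ℝ p x (Complex.I • v)) ^ 2) +
      2 * p x * lap2 p x v := by
  have h1 : deriv (fun t : ℝ => t ^ 2) = fun t => 2 * t := by
    ext t; simp
  have := lap2_comp' (g := fun t => t ^ 2) (f := p) (x := x)
    (Filter.Eventually.of_forall fun t => by fun_prop) (by rw [h1]; fun_prop) hp v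
  rw [this, h1]
  have h2 : deriv (fun t : ℝ => 2 * t) = fun _ => 2 := by
    ext t
    rw [deriv_const_mul _ differentiableAt_id]
    simp
  rw [h2]

lemma lap2_normSq {f : (Fin n → ℂ) → ℂ} (hf : ContDiff ℂ ∞ f) (x v : Fin n → ℂ) :
    lap2 (fun y => ‖f y‖ ^ 2) x v = 4 * ‖fderiv ℝ f x v‖ ^ 2 := by
  have hR : ContDiff ℝ ∞ f := hf.restrict_scalars ℝ
  have h2 : ContDiffAt ℝ 2 f x := (hR.of_le ENat.LEInfty.out).contDiffAt
  have hd : DifferentiableAt ℂ f x := (hf.differentiable (by simp)).differentiableAt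
  have hdR : DifferentiableAt ℝ f x := (hR.differentiable (by simp)).differentiableAt
  have e : (fun y => ‖f y‖ ^ 2) = fun y => (Complex.reCLM (f y)) ^ 2 + (Complex.imCLM (f y)) ^ 2 := by
    ext y
    rw [Complex.sq_norm, Complex.normSq_apply]
    simp
    ring
  have c1 : ContDiffAt ℝ 2 (fun y => Complex.reCLM (f y)) x :=
    Complex.reCLM.contDiff.contDiffAt.comp x h2
  have c2 : ContDiffAt ℝ 2 (fun y => Complex.imCLM (f y)) x :=
    Complex.imCLM.contDiff.contDiffAt.comp x h2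
  rw [e, lap2_add (c1.pow 2) (c2.pow 2), lap2_sq c1, lap2_sq c2, lap2_clm hf, lap2_clm hf]
  have d1 : ∀ w, fderiv ℝ (fun y => Complex.reCLM (f y)) x w = (fderiv ℝ f x w).re := by
    intro w
    have h4 : HasFDerivAt (fun y => Complex.reCLM (f y)) (Complex.reCLM.comp (fderiv ℝ f x)) x :=
      (Complex.reCLM.hasFDerivAt.comp x hdR.hasFDerivAt)
    rw [h4.fderiv]
    rfl
  have d2 : ∀ w, fderiv ℝ (fun y => Complex.imCLM (f y)) x w = (fderiv ℝ f x w).im := by
    intro w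
    have h4 : HasFDerivAt (fun y => Complex.imCLM (f y)) (Complex.imCLM.comp (fderiv ℝ f x)) x :=
      (Complex.imCLM.hasFDerivAt.comp x hdR.hasFDerivAt)
    rw [h4.fderiv]
    rfl
  rw [d1, d1, d2, d2, fderiv_smul_I hd, Complex.sq_norm, Complex.normSq_apply]
  simp
  ring

section sums

variable {ι : Type*} [Fintype ι]

lemma lap2_sum (f : ι → (Fin n → ℂ) → ℝ) {x : Fin n → ℂ} (hf : ∀ j, ContDiffAt ℝ 2 (f j) x)
    (v : Fin n → ℂ) : lap2 (fun y => ∑ j, f j y) x v = ∑ j, lap2 (f j) x v := by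
  classical
  have : ∀ s : Finset ι, lap2 (fun y => ∑ j ∈ s, f j y) x v = ∑ j ∈ s, lap2 (f j) x v := by
    intro s
    induction s using Finset.induction_on with
    | empty => simpa using lap2_const 0 x v
    | insert a s ha ih =>
      simp_rw [Finset.sum_insert ha]
      rw [lap2_add (hf a) (ContDiffAt.sum fun j _ => hf j), ih]
  exact this Finset.univ

/-- sum of squares of the moduli -/
noncomputable def sumSq (F : ι → (Fin n → ℂ) → ℂ) (x : Fin n → ℂ) : ℝ := ∑ j, ‖F j x‖ ^ 2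

lemma contDiff_normSq {f : (Fin n → ℂ) → ℂ} (hf : ContDiff ℂ ∞ f) :
    ContDiff ℝ ∞ fun y => ‖f y‖ ^ 2 := (hf.restrict_scalars ℝ).norm_sq ℂ

lemma contDiff_sumSq {F : ι → (Fin n → ℂ) → ℂ} (hF : ∀ j, ContDiff ℂ ∞ (F j)) :
    ContDiff ℝ ∞ (sumSq F) := ContDiff.sum fun j _ => contDiff_normSq (hF j)

lemma lap2_sumSq {F : ι → (Fin n → ℂ) → ℂ} (hF : ∀ j, ContDiff ℂ ∞ (F j)) (x v : Fin n → ℂ) :
    lap2 (sumSq F) x v = 4 * ∑ j, ‖fderiv ℝ (F j) x v‖ ^ 2 := by
  have := lap2_sum (fun j y => ‖F j y‖ ^ 2) (x := x)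
    (fun j => ((contDiff_normSq (hF j)).of_le ENat.LEInfty.out).contDiffAt) v
  unfold sumSq
  rw [this, Finset.mul_sum]
  apply Finset.sum_congr rfl
  intro j _
  exact lap2_normSq (hF j) x v

lemma fderiv_sumSq {F : ι → (Fin n → ℂ) → ℂ} (hF : ∀ j, ContDiff ℂ ∞ (F j)) (x w : Fin n → ℂ) :
    fderiv ℝ (sumSq F) x w = 2 * (∑ j, conj (F j x) * fderiv ℝ (F j) x w).re := by
  have h : ∀ j, HasFDerivAt (fun y => ‖F j y‖ ^ 2)
      (2 • (innerSL ℝ (F j x)).comp (fderiv ℝ (F j) x)) x := by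
    intro j
    have hR : DifferentiableAt ℝ (F j) x :=
      (((hF j).restrict_scalars ℝ).differentiable (by simp)).differentiableAt
    exact hR.hasFDerivAt.norm_sq
  have h2 : HasFDerivAt (sumSq F) (∑ j, 2 • (innerSL ℝ (F j x)).comp (fderiv ℝ (F j) x)) x :=
    HasFDerivAt.fun_sum fun j _ => h j
  rw [h2.fderiv, _root_.sum_apply, Complex.re_sum, Finset.mul_sum]
  apply Finset.sum_congr rfl
  intro j _
  simp only [_root_.smul_apply, ContinuousLinearMap.comp_apply, innerSL_apply_apply, nsmul_eq_mul]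
  rw [Complex.inner]
  simp
  ring

/-- Levi form of the logarithm of a sum of squares of holomorphic functions. -/
theorem lap2_log_sumSq {F : ι → (Fin n → ℂ) → ℂ} (hF : ∀ j, ContDiff ℂ ∞ (F j)) {x : Fin n → ℂ}
    (hx : 0 < sumSq F x) (v : Fin n → ℂ) :
    lap2 (fun y => Real.log (sumSq F y)) x v =
      4 * (sumSq F x * ∑ j, ‖fderiv ℝ (F j) x v‖ ^ 2 -
        ‖∑ j, conj (F j x) * fderiv ℝ (F j) x v‖ ^ 2) / (sumSq F x) ^ 2 := by
  have hne : sumSq F x ≠ 0 := hx.ne'
  have hc : ContDiffAt ℝ 2 (sumSq F) x := ((contDiff_sumSq hF).of_le ENat.LEInfty.out).contDiffAt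
  have hder : deriv Real.log = fun t => t⁻¹ := funext fun t => Real.deriv_log t
  have h1 : ∀ᶠ t in 𝓝 (sumSq F x), DifferentiableAt ℝ Real.log t := by
    filter_upwards [isOpen_ne.mem_nhds hne] with t ht
    exact Real.differentiableAt_log ht
  have h2 : DifferentiableAt ℝ (deriv Real.log) (sumSq F x) := by
    rw [hder]
    exact differentiableAt_inv hne
  rw [lap2_comp' h1 h2 hc, hder]
  simp only [deriv_inv]
  rw [lap2_sumSq hF, fderiv_sumSq hF, fderiv_sumSq hF]
  have e : ∑ j, conj (F j x) * fderiv ℝ (F j) x (Complex.I • v) =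
      Complex.I * ∑ j, conj (F j x) * fderiv ℝ (F j) x v := by
    rw [Finset.mul_sum]
    apply Finset.sum_congr rfl
    intro j _
    rw [fderiv_smul_I ((hF j).differentiable (by simp)).differentiableAt]
    ring
  rw [e]
  set Z := ∑ j, conj (F j x) * fderiv ℝ (F j) x v with hZ
  have e2 : (2 * Z.re) ^ 2 + (2 * (Complex.I * Z).re) ^ 2 = 4 * ‖Z‖ ^ 2 := by
    rw [Complex.sq_norm, Complex.normSq_apply]
    simp
    ring
  rw [e2]
  field_simp
  ring

lemma cauchy_sumSq (a b : ι → ℂ) :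
    ‖∑ j, conj (a j) * b j‖ ^ 2 ≤ (∑ j, ‖a j‖ ^ 2) * ∑ j, ‖b j‖ ^ 2 := by
  have h1 : ‖∑ j, conj (a j) * b j‖ ≤ ∑ j, ‖a j‖ * ‖b j‖ := by
    refine (norm_sum_le _ _).trans (le_of_eq ?_)
    apply Finset.sum_congr rfl
    intro j _
    simp
  calc ‖∑ j, conj (a j) * b j‖ ^ 2 ≤ (∑ j, ‖a j‖ * ‖b j‖) ^ 2 := by gcongr
    _ ≤ _ := Finset.sum_mul_sq_le_sq_mul_sq _ _ _

/-- `c log Σ |F_j|²` is smooth psh where the `F_j` have no common zero. -/
theorem sPsh_log_sumSq {F : ι → (Fin n → ℂ) → ℂ} (hF : ∀ j, ContDiff ℂ ∞ (F j))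
    {Ω : Set (Fin n → ℂ)} (hΩ : ∀ x ∈ Ω, 0 < sumSq F x) (hop : IsOpen Ω) {c : ℝ} (hc : 0 ≤ c) :
    SPsh Ω fun y => c * Real.log (sumSq F y) := by
  have hl : ContDiffOn ℝ ∞ (fun y => Real.log (sumSq F y)) Ω :=
    ((contDiff_sumSq hF).contDiffOn).log fun x hx => (hΩ x hx).ne'
  have : SPsh Ω fun y => Real.log (sumSq F y) := by
    refine ⟨hl, ?_⟩
    intro x hx v
    rw [lap2_log_sumSq hF (hΩ x hx)]
    have := cauchy_sumSq (fun j => F j x) (fun j => fderiv ℝ (F j) x v)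
    have h2 : 0 ≤ sumSq F x * ∑ j, ‖fderiv ℝ (F j) x v‖ ^ 2 -
        ‖∑ j, conj (F j x) * fderiv ℝ (F j) x v‖ ^ 2 := by
      have e : sumSq F x = ∑ j, ‖F j x‖ ^ 2 := rfl
      rw [e]
      linarith
    positivity
  exact this.const_mul hop hc

/-- If the number of functions is the dimension, the Monge-Ampere measure of `c log Σ |F_j|²`
vanishes where the `F_j` have no common zero. -/
theorem det_log_sumSq {m : ℕ} {F : Fin (m + 1) → (Fin (m + 1) → ℂ) → ℂ}
    (hF : ∀ j, ContDiff ℂ ∞ (F j)) {x : Fin (m + 1) → ℂ} (hx : 0 < sumSq F x) {c : ℝ}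
    (hc : 0 ≤ c) : (cHess (fun y => c * Real.log (sumSq F y)) x).det = 0 := by
  -- localise on an open set
  set Ω : Set (Fin (m + 1) → ℂ) := {y | 0 < sumSq F y} with hΩ
  have hop : IsOpen Ω := isOpen_lt continuous_const (contDiff_sumSq hF).continuous
  have hps := sPsh_log_sumSq hF (Ω := Ω) (fun y hy => hy) hop hc
  have hcd : ContDiffAt ℝ 2 (fun y => c * Real.log (sumSq F y)) x := hps.contDiffAt hop hx
  have hcl : ContDiffAt ℝ 2 (fun y => Real.log (sumSq F y)) x :=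
    ((contDiff_sumSq hF).contDiffAt.log hx.ne').of_le ENat.LEInfty.out
  -- the differential of F
  set D : (Fin (m + 1) → ℂ) →ₗ[ℂ] (Fin (m + 1) → ℂ) :=
    LinearMap.pi fun j => ((fderiv ℂ (F j) x : (Fin (m + 1) → ℂ) →L[ℂ] ℂ) :
      (Fin (m + 1) → ℂ) →ₗ[ℂ] ℂ) with hD
  have hDj : ∀ v j, fderiv ℝ (F j) x v = D v j := by
    intro v j
    rw [((hF j).differentiable (by simp)).differentiableAt.fderiv_restrictScalars ℝ]
    rfl
  obtain ⟨v, hv0, hv⟩ : ∃ v : Fin (m + 1) → ℂ, v ≠ 0 ∧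
      ∃ t : ℂ, ∀ j, D v j = t * F j x := by
    by_cases hinj : Function.Injective D
    · have hsurj : Function.Surjective D := LinearMap.surjective_of_injective hinj
      obtain ⟨v, hv⟩ := hsurj (fun j => F j x)
      refine ⟨v, ?_, 1, ?_⟩
      · rintro rfl
        rw [map_zero] at hv
        have : sumSq F x = 0 := by
          unfold sumSq
          apply Finset.sum_eq_zero
          intro j _
          have := congrFun hv j
          simp at this
          simp [← this]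
        linarith
      · intro j
        rw [hv, one_mul]
    · rw [← LinearMap.ker_eq_bot, Submodule.eq_bot_iff] at hinj
      push Not at hinj
      obtain ⟨v, hv, hv0⟩ := hinj
      refine ⟨v, hv0, 0, ?_⟩
      intro j
      rw [LinearMap.mem_ker] at hv
      rw [hv]
      simp
  obtain ⟨t, ht⟩ := hv
  have hzero : lap2 (fun y => c * Real.log (sumSq F y)) x v = 0 := by
    rw [lap2_const_mul hcl, lap2_log_sumSq hF hx]
    have e1 : ∑ j, ‖fderiv ℝ (F j) x v‖ ^ 2 = ‖t‖ ^ 2 * sumSq F x := by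
      unfold sumSq
      rw [Finset.mul_sum]
      apply Finset.sum_congr rfl
      intro j _
      rw [hDj, ht, norm_mul]
      ring
    have e2 : ∑ j, conj (F j x) * fderiv ℝ (F j) x v = t * ((sumSq F x : ℝ) : ℂ) := by
      unfold sumSq
      push_cast
      rw [Finset.mul_sum]
      apply Finset.sum_congr rfl
      intro j _
      rw [hDj, ht, ← Complex.conj_mul']
      ring
    rw [e1, e2, norm_mul, Complex.norm_real, Real.norm_of_nonneg hx.le]
    ring
  have hpsd : (cHess (fun y => c * Real.log (sumSq F y)) x).PosSemidef := hps.posSemidef hop hx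
  have hq := cHess_quadForm hcd (star v)
  rw [star_star, hzero] at hq
  have hmv := (hpsd.dotProduct_mulVec_zero_iff (star v)).mp (by rw [star_star, hq]; simp)
  apply Matrix.exists_mulVec_eq_zero_iff.mp
  exact ⟨star v, by simpa using hv0, hmv⟩

end sums

end Pool.Agent.Helper853
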