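import Pool.Agent.Helper853.Proj

open scoped Topology ContDiff ComplexOrder ENNReal ComplexConjugate LinearAlgebra.Projectivization
open MeasureTheory Filter

namespace Pool.Agent.Helper853

section mass

/-- the normalising constant `n! (2/π)^n` -/
noncomputable def kn (n : ℕ) : ℝ := n.factorial * (2 / Real.pi) ^ n

lemma kn_pos (n : ℕ) : 0 < kn n := by
  unfold kn
  positivity

lemma maDensity_eq {n : ℕ} (u : (Fin n → ℂ) → ℝ) (x : Fin n → ℂ) :
    maDensity u x = kn n * dH u x := rfl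

lemma kn_fs (n : ℕ) :
    ENNReal.ofReal (kn n) * ∫⁻ x : Fin n → ℂ, ENNReal.ofReal (dH fsPot x) = 1 := by
  rw [← lintegral_const_mul' _ _ ENNReal.ofReal_ne_top, ← lintegral_maDensity_fsPot (n := n)]
  apply lintegral_congr
  intro x
  rw [maDensity_eq, ENNReal.ofReal_mul (kn_pos n).le]

lemma total_mass_dH {m : ℕ} {u : (Fin (m + 1) → ℂ) → ℝ} (hu : SPsh Set.univ u) {C : ℝ}
    (hC : ∀ x, |u x - fsPot x| ≤ C) :
    ∫⁻ x, ENNReal.ofReal (dH u x) = ∫⁻ x : Fin (m + 1) → ℂ, ENNReal.ofReal (dH fsPot x) := by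
  have aux : ∀ v w : (Fin (m + 1) → ℂ) → ℝ, SPsh Set.univ v → SPsh Set.univ w →
      Tendsto w (cocompact _) atTop → (∀ x, v x ≤ w x + C) →
      ∫⁻ x, ENNReal.ofReal (dH v x) ≤ ∫⁻ x, ENNReal.ofReal (dH w x) := by
    intro v w hv hw hinf hle
    have := mass_le isOpen_univ hv hw ?_
    · simpa using this
    · intro ε hε K
      have h1 := hinf.eventually (eventually_ge_atTop ((C - K) / ε))
      obtain ⟨S, hS, hSf⟩ := mem_cocompact.mp h1
      refine ⟨S, hS, Set.subset_univ _, ?_⟩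
      intro x hx
      have h2 := hSf hx.2
      simp only [Set.mem_ofPred_eq] at h2
      rw [div_le_iff₀ hε] at h2
      have h3 := hle x
      linarith
  apply le_antisymm
  · exact aux u fsPot hu sPsh_fsPot fsPot_tendsto fun x => by linarith [(abs_le.mp (hC x)).2]
  · refine aux fsPot u sPsh_fsPot hu ?_ fun x => by linarith [(abs_le.mp (hC x)).1]
    have : Tendsto (fun x : Fin (m + 1) → ℂ => fsPot x + (-C)) (cocompact _) atTop :=
      tendsto_atTop_add_const_right _ _ fsPot_tendsto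
    apply tendsto_atTop_mono _ this
    intro x
    linarith [(abs_le.mp (hC x)).1]

end mass

section concentration

/-- probability measures concentrating at the origin converge to the Dirac mass -/
lemma tendsto_of_concentration {n : ℕ} {ρ : ℕ → Measure (Fin n → ℂ)}
    (hp : ∀ j, IsProbabilityMeasure (ρ j)) {g : (Fin n → ℂ) → ℝ} (hg : Continuous g) {B : ℝ}
    (hB : ∀ x, |g x| ≤ B)
    (hρ : ∀ r : ℝ, 0 < r → Tendsto (fun j => ρ j {x | r ≤ ‖x‖}) atTop (𝓝 0)) :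
    Tendsto (fun j => ∫ x, g x ∂(ρ j)) atTop (𝓝 (g 0)) := by
  rw [Metric.tendsto_atTop]
  intro ε hε
  -- neighbourhood of the origin
  obtain ⟨r, hr, hrg⟩ := Metric.continuous_iff.mp hg 0 (ε / 2) (by positivity)
  have hB0 : 0 ≤ B := (abs_nonneg _).trans (hB 0)
  have h1 := (ENNReal.tendsto_toReal ENNReal.zero_ne_top).comp (hρ r hr)
  simp only [ENNReal.toReal_zero] at h1
  have h2 : ∀ᶠ j in atTop, (ρ j {x | r ≤ ‖x‖}).toReal < ε / (2 * (2 * B + 1)) := by
    have := h1.eventually (gt_mem_nhds (show (0 : ℝ) < ε / (2 * (2 * B + 1)) by positivity))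
    simpa using this
  obtain ⟨N, hN⟩ := eventually_atTop.mp h2
  refine ⟨N, ?_⟩
  intro j hj
  have hj' := hN j hj
  have := hp j
  have hm : MeasurableSet {x : Fin n → ℂ | r ≤ ‖x‖} :=
    (isClosed_le continuous_const continuous_norm).measurableSet
  have hgi : Integrable g (ρ j) :=
    Integrable.of_bound hg.aestronglyMeasurable B (by filter_upwards with x; exact hB x)
  have e1 : ∫ x, g x ∂(ρ j) - g 0 = ∫ x, (g x - g 0) ∂(ρ j) := by
    rw [integral_sub hgi (integrable_const _)]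
    simp
  rw [Real.dist_eq, e1]
  set ind : (Fin n → ℂ) → ℝ := Set.indicator {x | r ≤ ‖x‖} (fun _ => 2 * B) with hind
  have hii : Integrable ind (ρ j) := (integrable_const _).indicator hm
  have hb : ∀ x, |g x - g 0| ≤ ε / 2 + ind x := by
    intro x
    by_cases hx : r ≤ ‖x‖
    · have : ind x = 2 * B := Set.indicator_of_mem (show x ∈ {x : Fin n → ℂ | r ≤ ‖x‖} from hx) _
      rw [this]
      have h3 := abs_sub (g x) (g 0)
      have h4 := hB x
      have h5 := hB 0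
      linarith
    · have : ind x = 0 := Set.indicator_of_notMem (show x ∉ {x : Fin n → ℂ | r ≤ ‖x‖} from hx) _
      rw [this, add_zero]
      push Not at hx
      have := hrg x (by simpa using hx)
      rw [Real.dist_eq] at this
      exact this.le
  calc |∫ x, (g x - g 0) ∂(ρ j)| ≤ ∫ x, |g x - g 0| ∂(ρ j) := abs_integral_le_integral_abs
    _ ≤ ∫ x, (ε / 2 + ind x) ∂(ρ j) := by
        apply integral_mono _ ((integrable_const _).add hii) hb
        exact (hgi.sub (integrable_const _)).abs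
    _ = ε / 2 + (ρ j {x | r ≤ ‖x‖}).toReal * (2 * B) := by
        rw [integral_add (integrable_const _) hii, hind, integral_indicator_const _ hm]
        simp [Measure.real]
    _ < ε := by
        rw [lt_div_iff₀ (by positivity)] at hj'
        have h6 : (ρ j {x | r ≤ ‖x‖}).toReal * (2 * B) ≤
            (ρ j {x | r ≤ ‖x‖}).toReal * (2 * B + 1) := by
          apply mul_le_mul_of_nonneg_left _ ENNReal.toReal_nonneg
          linarith
        linarith

end concentration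

section chartzero

variable {m : ℕ} {ν : ℝ}

lemma tail_homog (x : Fin (m + 2) → ℂ) : Fin.tail (homog 0 x) = x := by
  ext j
  simp only [Fin.tail, homog]
  simp

lemma homog_zero_apply (x : Fin (m + 2) → ℂ) : homog 0 x 0 = 1 := by simp [homog]

lemma homog_succ_apply (x : Fin (m + 2) → ℂ) (j : Fin (m + 2)) : homog 0 x j.succ = x j :=
  congrFun (tail_homog x) j

lemma norm_homog (x : Fin (m + 2) → ℂ) : ‖homog 0 x‖ = max 1 ‖x‖ := by
  apply le_antisymm
  · rw [pi_norm_le_iff_of_nonneg (by positivity)]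
    intro i
    refine Fin.cases ?_ (fun j => ?_) i
    · rw [homog_zero_apply]
      simp
    · rw [homog_succ_apply]
      exact (norm_le_pi_norm x j).trans (le_max_right _ _)
  · apply max_le
    · have := norm_le_pi_norm (homog 0 x) 0
      rwa [homog_zero_apply, norm_one] at this
    · rw [pi_norm_le_iff_of_nonneg (norm_nonneg _)]
      intro j
      have := norm_le_pi_norm (homog 0 x) j.succ
      rwa [homog_succ_apply] at this

lemma exists_Kset_rep {k : ℕ} {x : Fin (m + 2) → ℂ} (hx : 1 / ((k : ℝ) + 1) ≤ ‖x‖) :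
    ∃ (c : ℂ) (y : Fin (m + 3) → ℂ), c ≠ 0 ∧ y ∈ Kset m k ∧ homog 0 x = c • y := by
  have hM : 0 < max 1 ‖x‖ := lt_of_lt_of_le one_pos (le_max_left _ _)
  have hM' : ((max 1 ‖x‖ : ℝ) : ℂ) ≠ 0 := by exact_mod_cast hM.ne'
  refine ⟨((max 1 ‖x‖ : ℝ) : ℂ), ((max 1 ‖x‖ : ℝ) : ℂ)⁻¹ • homog 0 x, hM', ⟨?_, ?_⟩, ?_⟩
  · rw [norm_smul, norm_inv, Complex.norm_real, norm_homog, Real.norm_of_nonneg hM.le]
    field_simp
  · have e : (Fin.tail (((max 1 ‖x‖ : ℝ) : ℂ)⁻¹ • homog 0 x) : Fin (m + 2) → ℂ) =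
        ((max 1 ‖x‖ : ℝ) : ℂ)⁻¹ • x := by
      conv_rhs => rw [← tail_homog x]
      rfl
    rw [e, norm_smul, norm_inv, Complex.norm_real, Real.norm_of_nonneg hM.le]
    have hk : (1 : ℝ) / ((k : ℝ) + 1) ≤ 1 := by
      rw [div_le_one (by positivity)]
      linarith [Nat.cast_nonneg (α := ℝ) k]
    rcases le_total ‖x‖ 1 with h | h
    · rw [max_eq_left h]
      simpa using hx
    · rw [max_eq_right h]
      have : ‖x‖ ≠ 0 := by linarith
      rw [inv_mul_cancel₀ this]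
      exact hk
  · rw [smul_smul, mul_inv_cancel₀ hM', one_smul]

lemma VV_smul (h0 : 0 < ν) (h1 : ν ≤ 1) {c : ℂ} (hc : c ≠ 0) {y : Fin (m + 3) → ℂ}
    (ht : Fin.tail y ≠ 0) : VV m ν (c • y) = Real.log ‖c‖ + VV m ν y := by
  have hy : y ≠ 0 := by
    rintro rfl
    exact ht rfl
  have ht' : Fin.tail (c • y) ≠ 0 := by
    intro h
    apply ht
    ext j
    have := congrFun h j
    simp [Fin.tail] at this ⊢
    exact this.resolve_left hc
  have l1 := VV_tendsto (m := m) h0 h1 ht'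
  have l2 := (VV_tendsto (m := m) h0 h1 ht).const_add (Real.log ‖c‖)
  apply tendsto_nhds_unique l1
  refine l2.congr ?_
  intro k
  rw [vv_smul h0 h1 k hc hy]

lemma sphere_ne_zero {k : ℕ} {y : Fin (m + 3) → ℂ} (hy : y ∈ Kset m k) : y ≠ 0 := by
  rintro rfl
  have := hy.1
  simp at this

/-- `h_k` in the chart is uniformly close to the limit away from the pole -/
lemma hh_close (h0 : 0 < ν) (h1 : ν ≤ 1) {k : ℕ} {x : Fin (m + 2) → ℂ}
    (hx : 1 / ((k : ℝ) + 1) ≤ ‖x‖) :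
    |hh m ν k (homog 0 x) - VV m ν (homog 0 x)| ≤ cc m / 2 ^ k := by
  obtain ⟨c, y, hc, hy, e⟩ := exists_Kset_rep hx
  rw [e, hh_smul h0 h1 k hc (tail_ne_zero hy), VV_smul h0 h1 hc (tail_ne_zero hy)]
  have := hh_sub_VV h0 h1 hy
  rwa [add_sub_add_left_eq_sub]

lemma LL_sphere {y : Fin (m + 3) → ℂ} (hy : ‖y‖ = 1) :
    0 ≤ LL y ∧ LL y ≤ Real.log (m + 3) := by
  have hm : (0 : ℝ) ≤ m := Nat.cast_nonneg m
  have h1 : 1 ≤ ∑ i, ‖y i‖ ^ 2 := by
    obtain ⟨i, hi⟩ := exists_norm_eq hy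
    have : ‖y i‖ ^ 2 ≤ ∑ i, ‖y i‖ ^ 2 :=
      Finset.single_le_sum (f := fun i => ‖y i‖ ^ 2) (fun i _ => by positivity)
        (Finset.mem_univ i)
    rw [hi, one_pow] at this
    exact this
  have h2 : ∑ i, ‖y i‖ ^ 2 ≤ m + 3 := by
    calc ∑ i, ‖y i‖ ^ 2 ≤ ∑ i : Fin (m + 3), (1 : ℝ) := by
          apply Finset.sum_le_sum
          intro i _
          exact pow_le_one₀ (norm_nonneg _) ((norm_le_pi_norm y i).trans hy.le)
      _ = m + 3 := by simp
  unfold LL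
  have h3 := Real.log_nonneg h1
  have h4 : Real.log (∑ i, ‖y i‖ ^ 2) ≤ Real.log (m + 3) := Real.log_le_log (by linarith) h2
  constructor <;> linarith

/-- upper bound for `h_k - ½ log(1+|x|²)` -/
lemma hh_sub_fs_le (h0 : 0 < ν) (h1 : ν ≤ 1) (k : ℕ) : ∃ C : ℝ, ∀ x : Fin (m + 2) → ℂ, x ≠ 0 →
    hh m ν k (homog 0 x) ≤ fsPot x + C := by
  refine ⟨1 / (2 * 2 ^ k) * Real.log ((2 ^ (2 ^ k)) ^ 2 + (m + 1)), ?_⟩
  intro x hx
  have hm : (0 : ℝ) ≤ m := Nat.cast_nonneg m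
  have hn : 0 < ‖x‖ := norm_pos_iff.mpr hx
  obtain ⟨l, hl⟩ := exists_nat_one_div_lt hn
  obtain ⟨c, y, hc, hy, e⟩ := exists_Kset_rep hl.le
  have ht := tail_ne_zero hy
  have hy0 := sphere_ne_zero hy
  rw [← LL_homog 0 x, e, hh_smul h0 h1 k hc ht, LL_smul hc hy0]
  have hL := (LL_sphere hy.1).1
  have hS : SS m ν k y ≤ (2 ^ (2 ^ k)) ^ 2 + (m + 1) := by
    rw [SS_eq]
    have hb := good_norm_le (good_all (m := m) h0 h1 k).1 hy.1.le
    have h2 : ∑ j : Fin (m + 1), ‖y j.succ.succ‖ ^ (2 * 2 ^ k) ≤ m + 1 := by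
      calc ∑ j : Fin (m + 1), ‖y j.succ.succ‖ ^ (2 * 2 ^ k) ≤ ∑ j : Fin (m + 1), (1 : ℝ) := by
            apply Finset.sum_le_sum
            intro i _
            exact pow_le_one₀ (norm_nonneg _) ((norm_le_pi_norm y _).trans hy.1.le)
        _ = m + 1 := by simp
    have h3 : ‖PP m ν k y‖ ^ 2 ≤ (2 ^ (2 ^ k)) ^ 2 := by gcongr
    linarith
  have h4 := Real.log_le_log (SS_pos h0 h1 k ht) hS
  have h5 : hh m ν k y ≤ 1 / (2 * 2 ^ k) * Real.log ((2 ^ (2 ^ k)) ^ 2 + (m + 1)) := by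
    unfold hh
    gcongr
  linarith

/-- lower bound for `h_k - ½ log(1+|x|²)` away from the pole -/
lemma fs_sub_le_hh (h0 : 0 < ν) (h1 : ν ≤ 1) (k : ℕ) : ∃ C : ℝ, ∀ x : Fin (m + 2) → ℂ,
    1 / ((k : ℝ) + 1) ≤ ‖x‖ → fsPot x - C ≤ hh m ν k (homog 0 x) := by
  refine ⟨Real.log (m + 3) - 1 / (2 * 2 ^ k) * Real.log (dd m ν k), ?_⟩
  intro x hx
  obtain ⟨c, y, hc, hy, e⟩ := exists_Kset_rep hx
  have ht := tail_ne_zero hy
  have hy0 := sphere_ne_zero hy
  rw [← LL_homog 0 x, e, hh_smul h0 h1 k hc ht, LL_smul hc hy0]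
  have hL := (LL_sphere hy.1).2
  have hd := (good_all (m := m) h0 h1 k).2.1
  have hdS : dd m ν k ≤ SS m ν k y := dd_le_sumSq k hy
  have h4 := Real.log_le_log hd hdS
  have h5 : 1 / (2 * 2 ^ k) * Real.log (dd m ν k) ≤ hh m ν k y := by
    unfold hh
    gcongr
  linarith

/-- behaviour of `h_k` near the pole -/
lemma hh_near (h0 : 0 < ν) (h1 : ν ≤ 1) (k : ℕ) {x : Fin (m + 2) → ℂ} (hx : x ≠ 0)
    (hx1 : ‖x‖ ≤ 1) :
    hh m ν k (homog 0 x) ≤ Real.log (m + 2) + Real.log 2 + ν * Real.log ‖x‖ := by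
  have hm : (0 : ℝ) ≤ m := Nat.cast_nonneg m
  have hn : 0 < ‖x‖ := norm_pos_iff.mpr hx
  have ht : Fin.tail (homog 0 x) ≠ 0 := by rwa [tail_homog]
  obtain ⟨hg, -⟩ := good_all (m := m) h0 h1 k
  set C : ℝ := 2 ^ (2 ^ k) with hC
  have hC2 : (2 : ℝ) ≤ C := two_le_pow_pow k
  have hb := hg.bound (homog 0 x) ‖x‖ (by rw [homog_zero_apply]; simp)
    (fun j => by rw [homog_succ_apply]; exact norm_le_pi_norm x j) hx1
  have hP : ‖PP m ν k (homog 0 x)‖ ≤ C * ‖x‖ ^ (ex ν k) := by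
    have := norm_nonneg (PP m ν k (homog 0 x))
    linarith
  have hS : SS m ν k (homog 0 x) ≤ (m + 2) * (C * ‖x‖ ^ (ex ν k)) ^ 2 := by
    rw [SS_eq]
    have h2 : ∑ j : Fin (m + 1), ‖homog 0 x j.succ.succ‖ ^ (2 * 2 ^ k) ≤
        (m + 1) * (C * ‖x‖ ^ (ex ν k)) ^ 2 := by
      calc ∑ j : Fin (m + 1), ‖homog 0 x j.succ.succ‖ ^ (2 * 2 ^ k) ≤
          ∑ j : Fin (m + 1), (C * ‖x‖ ^ (ex ν k)) ^ 2 := by
            apply Finset.sum_le_sum
            intro j _
            rw [homog_succ_apply]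
            calc ‖x j.succ‖ ^ (2 * 2 ^ k) ≤ ‖x‖ ^ (2 * 2 ^ k) := by
                  gcongr
                  exact norm_le_pi_norm x _
              _ ≤ ‖x‖ ^ (2 * ex ν k) :=
                  pow_le_pow_of_le_one hn.le hx1 (Nat.mul_le_mul_left 2 (ex_le h1 k))
              _ = (1 * ‖x‖ ^ (ex ν k)) ^ 2 := by rw [one_mul, ← pow_mul, mul_comm]
              _ ≤ (C * ‖x‖ ^ (ex ν k)) ^ 2 := by
                  gcongr
                  linarith
        _ = (m + 1) * (C * ‖x‖ ^ (ex ν k)) ^ 2 := by simp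
    have h3 : ‖PP m ν k (homog 0 x)‖ ^ 2 ≤ (C * ‖x‖ ^ (ex ν k)) ^ 2 := by gcongr
    linarith
  have h4 := Real.log_le_log (SS_pos h0 h1 k ht) hS
  have hxp : 0 < ‖x‖ ^ (ex ν k) := by positivity
  rw [Real.log_mul (by positivity) (by positivity), Real.log_pow,
    Real.log_mul (by positivity) hxp.ne', Real.log_pow, Real.log_pow] at h4
  push_cast at h4
  have hlx : Real.log ‖x‖ ≤ 0 := Real.log_nonpos hn.le hx1
  have h2k : (0 : ℝ) < 2 ^ k := by positivity
  have h5 : hh m ν k (homog 0 x) ≤ 1 / (2 * 2 ^ k) * (Real.log (m + 2) + 2 * (2 ^ k * Real.log 2 +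
      (ex ν k) * Real.log ‖x‖)) := by
    unfold hh
    gcongr
  have h6 : 1 / (2 * 2 ^ k) * (Real.log ((m : ℝ) + 2) + 2 * (2 ^ k * Real.log 2 +
      (ex ν k) * Real.log ‖x‖)) = Real.log (m + 2) / (2 * 2 ^ k) + Real.log 2 +
        ((ex ν k) / 2 ^ k) * Real.log ‖x‖ := by
    field_simp
    ring
  rw [h6] at h5
  have h7 : Real.log ((m : ℝ) + 2) / (2 * 2 ^ k) ≤ Real.log (m + 2) := by
    have : 0 ≤ Real.log ((m : ℝ) + 2) := Real.log_nonneg (by linarith)
    apply div_le_self this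
    have : (1 : ℝ) ≤ 2 ^ k := one_le_pow₀ (by norm_num)
    linarith
  have h8 : ((ex ν k) / 2 ^ k) * Real.log ‖x‖ ≤ ν * Real.log ‖x‖ := by
    apply mul_le_mul_of_nonpos_right _ hlx
    rw [le_div_iff₀ h2k]
    exact le_ex ν k
  linarith

lemma tail_homog_ne {x : Fin (m + 2) → ℂ} (hx : x ≠ 0) : Fin.tail (homog 0 x) ≠ 0 := by
  rwa [tail_homog]

lemma hh_tendsto (h0 : 0 < ν) (h1 : ν ≤ 1) {x : Fin (m + 2) → ℂ} (hx : x ≠ 0) :
    Tendsto (fun k => hh m ν k (homog 0 x)) atTop (𝓝 (VV m ν (homog 0 x))) := by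
  have hn : 0 < ‖x‖ := norm_pos_iff.mpr hx
  obtain ⟨l, hl⟩ := exists_nat_one_div_lt hn
  rw [tendsto_iff_norm_sub_tendsto_zero]
  have hlim : Tendsto (fun k : ℕ => cc m / 2 ^ k) atTop (𝓝 0) := by
    have := (tendsto_pow_atTop_nhds_zero_of_lt_one (r := (1 / 2 : ℝ)) (by norm_num)
      (by norm_num)).const_mul (cc m)
    simp only [mul_zero] at this
    refine this.congr ?_
    intro l
    rw [one_div, inv_pow]
    rfl
  apply squeeze_zero' (Filter.Eventually.of_forall fun k => norm_nonneg _) _ hlim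
  filter_upwards [eventually_ge_atTop l] with k hk
  rw [Real.norm_eq_abs]
  apply hh_close h0 h1
  refine le_trans ?_ hl.le
  have : (l : ℝ) ≤ k := by exact_mod_cast hk
  gcongr

/-- behaviour of the limit near the pole -/
lemma VV_near (h0 : 0 < ν) (h1 : ν ≤ 1) {x : Fin (m + 2) → ℂ} (hx : x ≠ 0)
    (hx1 : ‖x‖ ≤ 1) :
    VV m ν (homog 0 x) ≤ Real.log (m + 2) + Real.log 2 + ν * Real.log ‖x‖ :=
  le_of_tendsto' (hh_tendsto h0 h1 hx) fun k => hh_near h0 h1 k hx hx1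

/-- lower bound for the limit away from the pole -/
lemma fs_sub_le_VV (h0 : 0 < ν) (h1 : ν ≤ 1) (k : ℕ) : ∃ C : ℝ, ∀ x : Fin (m + 2) → ℂ,
    1 / ((k : ℝ) + 1) ≤ ‖x‖ → fsPot x - C ≤ VV m ν (homog 0 x) := by
  obtain ⟨C, hC⟩ := fs_sub_le_hh (m := m) h0 h1 k
  refine ⟨C + cc m / 2 ^ k, ?_⟩
  intro x hx
  have h2 := hC x hx
  have h3 := (abs_le.mp (hh_close (m := m) h0 h1 hx)).2
  linarith

/-- the functions of the chart used for the comparison -/
lemma hh_eq_log (k : ℕ) : (fun x : Fin (m + 2) → ℂ => hh m ν k (homog 0 x)) =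
    fun x => 1 / (2 * 2 ^ k) * Real.log (sumSq (fun j x => Fk (PP m ν k) k j (homog 0 x)) x) := rfl

lemma sPsh_hh (h0 : 0 < ν) (h1 : ν ≤ 1) (k : ℕ) :
    SPsh {0}ᶜ fun x : Fin (m + 2) → ℂ => hh m ν k (homog 0 x) := by
  rw [hh_eq_log]
  apply sPsh_log_sumSq
  · intro j
    exact (contDiff_Fk (good_all h0 h1 k).1 j).comp (contDiff_homog' 0)
  · intro x hx
    exact SS_pos h0 h1 k (tail_homog_ne hx)
  · exact isOpen_compl_singleton
  · positivity

lemma det_hh (h0 : 0 < ν) (h1 : ν ≤ 1) (k : ℕ) (x : Fin (m + 2) → ℂ) (hx : x ≠ 0) :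
    (cHess (fun x : Fin (m + 2) → ℂ => hh m ν k (homog 0 x)) x).det = 0 := by
  rw [hh_eq_log]
  apply det_log_sumSq
  · intro j
    exact (contDiff_Fk (good_all h0 h1 k).1 j).comp (contDiff_homog' 0)
  · exact SS_pos h0 h1 k (tail_homog_ne hx)
  · positivity

lemma hh_atBot (h0 : 0 < ν) (h1 : ν ≤ 1) (k : ℕ) :
    Tendsto (fun x : Fin (m + 2) → ℂ => hh m ν k (homog 0 x)) (𝓝[≠] 0) atBot := by
  have hlog : Tendsto (fun x : Fin (m + 2) → ℂ => Real.log ‖x‖) (𝓝[≠] 0) atBot :=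
    Real.tendsto_log_nhdsNE_zero.comp (by
      have := tendsto_norm_nhdsNE_zero (E := Fin (m + 2) → ℂ)
      exact this.mono_right (nhdsWithin_mono _ (fun x hx => (ne_of_gt hx : x ≠ 0))))
  have h2 : Tendsto (fun x : Fin (m + 2) → ℂ => Real.log (m + 2) + Real.log 2 + ν * Real.log ‖x‖)
      (𝓝[≠] 0) atBot :=
    tendsto_atBot_add_const_left _ _ (hlog.const_mul_atBot h0)
  apply tendsto_atBot_mono' _ _ h2
  have h3 : ∀ᶠ x in 𝓝[≠] (0 : Fin (m + 2) → ℂ), ‖x‖ ≤ 1 := by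
    apply mem_nhdsWithin_of_mem_nhds
    have := Metric.closedBall_mem_nhds (0 : Fin (m + 2) → ℂ) one_pos
    filter_upwards [this] with x hx
    simpa using hx
  filter_upwards [h3, self_mem_nhdsWithin] with x hx hx0
  exact hh_near h0 h1 k hx0 hx

end chartzero

end Pool.Agent.Helper853
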