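import Pool.Agent.Helper853.LogSum

open scoped Topology ContDiff ComplexOrder ENNReal ComplexConjugate
open MeasureTheory Filter

namespace Pool.Agent.Helper853

variable {n : ℕ}

lemma sumSq_homog (i : Fin (n + 1)) (x : Fin n → ℂ) :
    ∑ k, ‖homog i x k‖ ^ 2 = 1 + ∑ j, ‖x j‖ ^ 2 := by
  rw [Fin.sum_univ_succAbove _ i]
  simp [homog]

/-- the coordinates of the affine lift -/
lemma contDiff_homog (i : Fin (n + 1)) (k : Fin (n + 1)) :
    ContDiff ℂ ∞ fun x : Fin n → ℂ => homog i x k := by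
  rcases Fin.eq_self_or_eq_succAbove i k with h | ⟨j, h⟩
  · subst h
    simp only [homog, Fin.insertNth_apply_same]
    exact contDiff_const
  · subst h
    simp only [homog, Fin.insertNth_apply_succAbove]
    fun_prop

lemma sPsh_fsPot : SPsh Set.univ (fsPot : (Fin n → ℂ) → ℝ) := by
  have h := sPsh_log_sumSq (F := fun k (x : Fin n → ℂ) => homog 0 x k)
    (fun k => contDiff_homog 0 k) (Ω := Set.univ)
    (fun x _ => by
      have := sumSq_homog 0 x
      unfold sumSq
      rw [this]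
      positivity) isOpen_univ (c := 1 / 2) (by norm_num)
  have e : (fsPot : (Fin n → ℂ) → ℝ) =
      fun y => 1 / 2 * Real.log (sumSq (fun k (x : Fin n → ℂ) => homog 0 x k) y) := by
    ext y
    unfold sumSq fsPot
    rw [sumSq_homog]
  rw [e]
  exact h

lemma log_norm_le_fsPot {x : Fin n → ℂ} (hx : x ≠ 0) : Real.log ‖x‖ ≤ fsPot x := by
  have hn : 0 < ‖x‖ := norm_pos_iff.mpr hx
  have h1 : ‖x‖ ^ 2 ≤ 1 + ∑ j, ‖x j‖ ^ 2 := by
    have h2 : ∃ j, ‖x j‖ = ‖x‖ := by
      by_contra hcon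
      push Not at hcon
      have h3 : ∀ j, ‖x j‖ < ‖x‖ := fun j => lt_of_le_of_ne (norm_le_pi_norm x j) (hcon j)
      exact absurd ((pi_norm_lt_iff hn).mpr h3) (lt_irrefl _)
    obtain ⟨j, hj⟩ := h2
    have h4 : ‖x j‖ ^ 2 ≤ ∑ j, ‖x j‖ ^ 2 :=
      Finset.single_le_sum (f := fun j => ‖x j‖ ^ 2) (fun i _ => by positivity) (Finset.mem_univ j)
    rw [hj] at h4
    linarith
  unfold fsPot
  have h5 : Real.log (‖x‖ ^ 2) ≤ Real.log (1 + ∑ j, ‖x j‖ ^ 2) :=
    Real.log_le_log (by positivity) h1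
  rw [Real.log_pow] at h5
  push_cast at h5
  linarith

lemma fsPot_tendsto : Tendsto (fsPot : (Fin n → ℂ) → ℝ) (cocompact _) atTop := by
  have h1 : Tendsto (fun x : Fin n → ℂ => ‖x‖) (cocompact _) atTop := tendsto_norm_cocompact_atTop
  have h2 : Tendsto (fun x : Fin n → ℂ => Real.log ‖x‖) (cocompact _) atTop :=
    Real.tendsto_log_atTop.comp h1
  apply tendsto_atTop_mono' _ _ h2
  have : ∀ᶠ x in cocompact (Fin n → ℂ), 0 < ‖x‖ := h1.eventually (eventually_gt_atTop 0)
  filter_upwards [this] with x hx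
  exact log_norm_le_fsPot (norm_pos_iff.mp hx)

/-- `1 + |x|²` -/
noncomputable def sN (x : Fin n → ℂ) : ℝ := 1 + ∑ j, ‖x j‖ ^ 2

lemma sN_pos (x : Fin n → ℂ) : 0 < sN x := by unfold sN; positivity

lemma hasFDerivAt_sN (x : Fin n → ℂ) (w : Fin n → ℂ) :
    DifferentiableAt ℝ sN x ∧ fderiv ℝ sN x w = 2 * (∑ j, conj (x j) * w j).re := by
  have h : ∀ j : Fin n, HasFDerivAt (fun y : Fin n → ℂ => ‖y j‖ ^ 2)
      (2 • (innerSL ℝ (x j)).comp (ContinuousLinearMap.proj (R := ℝ) j)) x := by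
    intro j
    exact (ContinuousLinearMap.proj (R := ℝ) (φ := fun _ : Fin n => ℂ) j).hasFDerivAt.norm_sq
  have h2 : HasFDerivAt sN
      (∑ j, 2 • (innerSL ℝ (x j)).comp (ContinuousLinearMap.proj (R := ℝ) j)) x := by
    exact (HasFDerivAt.fun_sum fun j _ => h j).const_add 1
  refine ⟨h2.differentiableAt, ?_⟩
  rw [h2.fderiv, _root_.sum_apply, Complex.re_sum, Finset.mul_sum]
  apply Finset.sum_congr rfl
  intro j _
  simp only [_root_.smul_apply, ContinuousLinearMap.comp_apply, innerSL_apply_apply, nsmul_eq_mul,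
    ContinuousLinearMap.proj_apply]
  rw [Complex.inner]
  simp
  ring

lemma fderiv_fsPot (x w : Fin n → ℂ) :
    fderiv ℝ fsPot x w = (∑ j, conj (x j) * w j).re / sN x := by
  have h := (hasFDerivAt_sN x w)
  have h2 := (h.1.hasFDerivAt.log (sN_pos x).ne').const_mul (1 / 2)
  have h3 : HasFDerivAt fsPot ((1 / 2 : ℝ) • ((sN x)⁻¹ • fderiv ℝ sN x)) x := h2
  rw [h3.fderiv]
  simp only [_root_.smul_apply, smul_eq_mul, h.2]
  ring

lemma dzbar_fsPot (j : Fin n) : dzbar j (fun y => ((fsPot y : ℝ) : ℂ)) =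
    fun y => (1 / 2) * (y j * ((sN y)⁻¹ : ℝ)) := by
  ext y
  have hd : DifferentiableAt ℝ fsPot y :=
    ((sPsh_fsPot.1.contDiffAt (Filter.univ_mem)).differentiableAt (by simp))
  unfold dzbar
  rw [fderiv_ofReal hd, fderiv_ofReal hd, fderiv_fsPot, fderiv_fsPot]
  have e1 : (∑ k, conj (y k) * (Pi.single j (1 : ℂ) : Fin n → ℂ) k) = conj (y j) := by
    rw [Finset.sum_eq_single j]
    · simp
    · intro b _ hb
      simp [hb]
    · simp
  have e2 : (∑ k, conj (y k) * (Pi.single j Complex.I : Fin n → ℂ) k) =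
      conj (y j) * Complex.I := by
    rw [Finset.sum_eq_single j]
    · simp
    · intro b _ hb
      simp [hb]
    · simp
  have e3 : (y j) = (y j).re + (y j).im * Complex.I := (Complex.re_add_im _).symm
  have a1 : (conj (y j)).re = (y j).re := Complex.conj_re _
  have a2 : (conj (y j) * Complex.I).re = (y j).im := by simp
  rw [e1, e2, a1, a2]
  push_cast
  linear_combination (-1 / 2 * (sN y : ℂ)⁻¹) * e3

lemma dz_coord (i j : Fin n) (x : Fin n → ℂ) :
    dz i (fun y : Fin n → ℂ => y j) x = if i = j then 1 else 0 := by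
  unfold dz
  have h : fderiv ℝ (fun y : Fin n → ℂ => y j) x = ContinuousLinearMap.proj (R := ℝ) j :=
    (ContinuousLinearMap.proj (R := ℝ) (φ := fun _ : Fin n => ℂ) j).fderiv
  rw [h]
  simp only [ContinuousLinearMap.proj_apply, Pi.single_apply]
  by_cases hij : i = j
  · subst hij
    simp
    norm_num
  · have : ¬ j = i := fun h => hij h.symm
    simp [hij, this]

lemma dz_sN_inv (i : Fin n) (x : Fin n → ℂ) :
    dz i (fun y => (((sN y)⁻¹ : ℝ) : ℂ)) x = - conj (x i) * (((sN x)⁻¹ : ℝ) : ℂ) ^ 2 := by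
  have h := hasFDerivAt_sN x
  have hd : HasFDerivAt (fun y => (sN y)⁻¹) (-((sN x) ^ 2)⁻¹ • fderiv ℝ sN x) x := by
    have := (hasDerivAt_inv (sN_pos x).ne').comp_hasFDerivAt x (h 0).1.hasFDerivAt
    exact this
  unfold dz
  rw [fderiv_ofReal hd.differentiableAt, fderiv_ofReal hd.differentiableAt, hd.fderiv]
  simp only [_root_.smul_apply, (h _).2, smul_eq_mul]
  have e1 : (∑ k, conj (x k) * (Pi.single i (1 : ℂ) : Fin n → ℂ) k) = conj (x i) := by
    rw [Finset.sum_eq_single i]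
    · simp
    · intro b _ hb
      simp [hb]
    · simp
  have e2 : (∑ k, conj (x k) * (Pi.single i Complex.I : Fin n → ℂ) k) =
      conj (x i) * Complex.I := by
    rw [Finset.sum_eq_single i]
    · simp
    · intro b _ hb
      simp [hb]
    · simp
  rw [e1, e2]
  have e3 : conj (x i) = (x i).re - (x i).im * Complex.I := by
    apply Complex.ext <;> simp
  conv_rhs => rw [e3]
  simp
  ring

lemma cHess_fsPot (x : Fin n → ℂ) (i j : Fin n) : cHess fsPot x i j =
    (1 / 2) * (((sN x)⁻¹ : ℝ) : ℂ) * ((if i = j then 1 else 0) -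
      (((sN x)⁻¹ : ℝ) : ℂ) * conj (x i) * x j) := by
  simp only [cHess, Matrix.of_apply]
  rw [dzbar_fsPot]
  have h1 : DifferentiableAt ℝ (fun y : Fin n → ℂ => y j) x := by fun_prop
  have h2 : DifferentiableAt ℝ (fun y : Fin n → ℂ => (((sN y)⁻¹ : ℝ) : ℂ)) x := by
    have h := hasFDerivAt_sN x
    have hd : HasFDerivAt (fun y => (sN y)⁻¹) (-((sN x) ^ 2)⁻¹ • fderiv ℝ sN x) x := by
      have := (hasDerivAt_inv (sN_pos x).ne').comp_hasFDerivAt x (h 0).1.hasFDerivAt
      exact this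
    exact Complex.ofRealCLM.differentiableAt.comp x hd.differentiableAt
  have e : (fun y : Fin n → ℂ => (1 / 2 : ℂ) * (y j * (((sN y)⁻¹ : ℝ) : ℂ))) =
      fun y => (1 / 2 : ℂ) * ((fun y : Fin n → ℂ => y j * (((sN y)⁻¹ : ℝ) : ℂ)) y) := rfl
  rw [e, dz_mul (differentiableAt_const _) (h1.fun_mul h2), dz_mul h1 h2, dz_coord, dz_sN_inv]
  have h0 : dz i (fun _ : Fin n → ℂ => (1 / 2 : ℂ)) x = 0 := by simp [dz]
  rw [h0]
  ring

lemma det_cHess_fsPot (x : Fin n → ℂ) :
    (cHess fsPot x).det = (((1 / 2) ^ n * ((sN x)⁻¹) ^ (n + 1) : ℝ) : ℂ) := by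
  have e : cHess fsPot x = ((1 / 2 : ℂ) * (((sN x)⁻¹ : ℝ) : ℂ)) •
      (1 - Matrix.replicateCol Unit (fun i => (((sN x)⁻¹ : ℝ) : ℂ) * conj (x i)) *
        Matrix.replicateRow Unit x) := by
    ext i j
    rw [cHess_fsPot]
    simp [Matrix.one_apply, Matrix.mul_apply]
  rw [e, Matrix.det_smul, Matrix.det_one_sub_mul_comm, Matrix.det_unique, Fintype.card_fin]
  simp only [Matrix.sub_apply, Matrix.one_apply_eq, Matrix.mul_apply, Matrix.replicateRow_apply,
    Matrix.replicateCol_apply]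
  have h1 : ∑ k, x k * ((((sN x)⁻¹ : ℝ) : ℂ) * conj (x k)) =
      (((sN x)⁻¹ * (sN x - 1) : ℝ) : ℂ) := by
    have : sN x - 1 = ∑ j, ‖x j‖ ^ 2 := by unfold sN; ring
    rw [this]
    push_cast
    rw [Finset.mul_sum]
    apply Finset.sum_congr rfl
    intro k _
    rw [← Complex.mul_conj']
    ring
  rw [h1]
  have h2 : (1 : ℂ) - (((sN x)⁻¹ * (sN x - 1) : ℝ) : ℂ) = (((sN x)⁻¹ : ℝ) : ℂ) := by
    have : (1 : ℝ) - ((sN x)⁻¹ * (sN x - 1)) = (sN x)⁻¹ := by
      have := (sN_pos x).ne'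
      field_simp
      ring
    exact_mod_cast this
  rw [h2, mul_pow]
  push_cast
  ring

lemma dH_fsPot (x : Fin n → ℂ) : dH fsPot x = (1 / 2) ^ n * ((sN x)⁻¹) ^ (n + 1) := by
  unfold dH
  rw [det_cHess_fsPot, Complex.ofReal_re]

lemma gaussian_lintegral {s : ℝ} (hs : 0 < s) :
    ∫⁻ x : Fin n → ℂ, ENNReal.ofReal (Real.exp (-s * ∑ j, ‖x j‖ ^ 2)) =
      ENNReal.ofReal ((Real.pi / s) ^ n) := by
  have h1 : ∫ z : ℂ, Real.exp (-s * ‖z‖ ^ 2) = Real.pi / s := by
    have := GaussianFourier.integral_rexp_neg_mul_sq_norm (V := ℂ) hs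
    rw [this]
    simp
  have h2 : ∫ x : Fin n → ℂ, ∏ j, Real.exp (-s * ‖x j‖ ^ 2) = (Real.pi / s) ^ n := by
    rw [integral_fintype_prod_volume_eq_pow (ι := Fin n) (fun z : ℂ => Real.exp (-s * ‖z‖ ^ 2)), h1,
      Fintype.card_fin]
  have h3 : (fun x : Fin n → ℂ => ∏ j, Real.exp (-s * ‖x j‖ ^ 2)) =
      fun x => Real.exp (-s * ∑ j, ‖x j‖ ^ 2) := by
    ext x
    rw [← Real.exp_sum, Finset.mul_sum]
  rw [h3] at h2
  have hint : Integrable fun x : Fin n → ℂ => Real.exp (-s * ∑ j, ‖x j‖ ^ 2) := by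
    by_contra hcon
    rw [integral_undef hcon] at h2
    have : 0 < (Real.pi / s) ^ n := by positivity
    linarith
  rw [← h2, ofReal_integral_eq_lintegral_ofReal hint]
  filter_upwards with x
  positivity

/-- `∫ (1+|x|²)^{-(n+1)} dx = π^n / n!` -/
lemma lintegral_sN :
    ∫⁻ x : Fin n → ℂ, ENNReal.ofReal (((sN x)⁻¹) ^ (n + 1)) =
      ENNReal.ofReal (Real.pi ^ n / n.factorial) := by
  have hg : ∀ x : Fin n → ℂ, ENNReal.ofReal (((sN x)⁻¹) ^ (n + 1)) =
      ENNReal.ofReal (1 / n.factorial) *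
        ∫⁻ s in Set.Ioi (0 : ℝ), ENNReal.ofReal (s ^ n * Real.exp (-(sN x * s))) := by
    intro x
    have h := Real.integral_rpow_mul_exp_neg_mul_Ioi (a := (n + 1 : ℝ)) (r := sN x)
      (by positivity) (sN_pos x)
    have h1 : ∫ s in Set.Ioi (0 : ℝ), s ^ n * Real.exp (-(sN x * s)) =
        (n.factorial : ℝ) * ((sN x)⁻¹) ^ (n + 1) := by
      have e1 : ∀ s ∈ Set.Ioi (0 : ℝ), s ^ ((n + 1 : ℝ) - 1) * Real.exp (-(sN x * s)) =
          s ^ n * Real.exp (-(sN x * s)) := by
        intro s _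
        simp
      rw [← setIntegral_congr_fun measurableSet_Ioi e1, h, Real.Gamma_nat_eq_factorial, one_div]
      rw [show ((n : ℝ) + 1) = ((n + 1 : ℕ) : ℝ) by push_cast; ring, Real.rpow_natCast]
      ring
    have hint : IntegrableOn (fun s => s ^ n * Real.exp (-(sN x * s))) (Set.Ioi (0 : ℝ)) := by
      by_contra hcon
      rw [integral_undef hcon] at h1
      have : 0 < (n.factorial : ℝ) * ((sN x)⁻¹) ^ (n + 1) := by
        have := sN_pos x
        positivity
      linarith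
    rw [← ofReal_integral_eq_lintegral_ofReal hint, h1, ← ENNReal.ofReal_mul (by positivity)]
    · congr 1
      field_simp
    · rw [EventuallyLE, ae_restrict_iff' measurableSet_Ioi]
      filter_upwards with s hs
      have : (0 : ℝ) < s := hs
      simp only [Pi.zero_apply]
      positivity
  simp_rw [hg]
  rw [lintegral_const_mul' _ _ ENNReal.ofReal_ne_top]
  rw [lintegral_lintegral_swap]
  · have hin : ∀ s ∈ Set.Ioi (0 : ℝ), ∫⁻ x : Fin n → ℂ,
        ENNReal.ofReal (s ^ n * Real.exp (-(sN x * s))) =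
        ENNReal.ofReal (Real.pi ^ n * Real.exp (-s)) := by
      intro s hs
      have hs' : (0 : ℝ) < s := hs
      have e : ∀ x : Fin n → ℂ, ENNReal.ofReal (s ^ n * Real.exp (-(sN x * s))) =
          ENNReal.ofReal (s ^ n * Real.exp (-s)) *
            ENNReal.ofReal (Real.exp (-s * ∑ j, ‖x j‖ ^ 2)) := by
        intro x
        rw [← ENNReal.ofReal_mul (by positivity), mul_assoc, ← Real.exp_add]
        congr 3
        unfold sN
        ring
      simp_rw [e]
      rw [lintegral_const_mul' _ _ ENNReal.ofReal_ne_top, gaussian_lintegral hs',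
        ← ENNReal.ofReal_mul (by positivity)]
      congr 1
      rw [div_pow]
      field_simp
    rw [setLIntegral_congr_fun measurableSet_Ioi hin]
    have hexp : ∫ s in Set.Ioi (0 : ℝ), Real.pi ^ n * Real.exp (-s) = Real.pi ^ n := by
      rw [integral_const_mul, integral_exp_neg_Ioi_zero, mul_one]
    have hint : IntegrableOn (fun s => Real.pi ^ n * Real.exp (-s)) (Set.Ioi (0 : ℝ)) := by
      by_contra hcon
      rw [integral_undef hcon] at hexp
      have : 0 < Real.pi ^ n := by positivity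
      linarith
    rw [← ofReal_integral_eq_lintegral_ofReal hint, hexp, ← ENNReal.ofReal_mul (by positivity)]
    · congr 1
      ring
    · filter_upwards with s
      simp only [Pi.zero_apply]
      positivity
  · apply Measurable.aemeasurable
    apply ENNReal.measurable_ofReal.comp
    apply Continuous.measurable
    have : Continuous fun p : (Fin n → ℂ) × ℝ =>
        p.2 ^ n * Real.exp (-((1 + ∑ j, ‖p.1 j‖ ^ 2) * p.2)) := by fun_prop
    exact this

/-- Normalisation: the Fubini-Study form has total mass one. -/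
theorem lintegral_maDensity_fsPot :
    ∫⁻ x : Fin n → ℂ, ENNReal.ofReal (maDensity fsPot x) = 1 := by
  have e : ∀ x : Fin n → ℂ, ENNReal.ofReal (maDensity fsPot x) =
      ENNReal.ofReal (n.factorial * (1 / Real.pi) ^ n) *
        ENNReal.ofReal (((sN x)⁻¹) ^ (n + 1)) := by
    intro x
    rw [← ENNReal.ofReal_mul (by positivity)]
    congr 1
    unfold maDensity
    have := dH_fsPot x
    unfold dH at this
    rw [this, div_pow, div_pow, div_pow]
    field_simp
  simp_rw [e]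
  rw [lintegral_const_mul' _ _ ENNReal.ofReal_ne_top, lintegral_sN,
    ← ENNReal.ofReal_mul (by positivity)]
  rw [← ENNReal.ofReal_one]
  congr 1
  rw [div_pow]
  have : (Real.pi : ℝ) ≠ 0 := Real.pi_ne_zero
  have h2 : (n.factorial : ℝ) ≠ 0 := by positivity
  field_simp
  simp

end Pool.Agent.Helper853
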