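import Mathlib

open scoped LinearAlgebra.Projectivization Topology ContDiff
open MeasureTheory Filter

namespace Pool.Agent.Helper853

/-- Complex projective space `CP^n`: the set of complex lines of `ℂ^{n+1}`. -/
abbrev CP (n : ℕ) : Type := ℙ ℂ (Fin (n + 1) → ℂ)

/-- `CP^n` carries the quotient topology of `ℂ^{n+1} \ {0}`. -/
instance instTopCP (n : ℕ) : TopologicalSpace (CP n) :=
  inferInstanceAs (TopologicalSpace (Quotient (projectivizationSetoid ℂ (Fin (n + 1) → ℂ))))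

/-- `CP^n` carries its Borel sigma-algebra. -/
instance instMeasCP (n : ℕ) : MeasurableSpace (CP n) := borel (CP n)

instance instBorelCP (n : ℕ) : BorelSpace (CP n) := ⟨rfl⟩

/-- The vector of `ℂ^{n+1}` obtained from `x` by inserting `1` at place `i`. -/
def homog {n : ℕ} (i : Fin (n + 1)) (x : Fin n → ℂ) : Fin (n + 1) → ℂ := i.insertNth 1 x

lemma homog_ne_zero {n : ℕ} (i : Fin (n + 1)) (x : Fin n → ℂ) : homog i x ≠ 0 := by
  intro h
  have := congrFun h i
  simp [homog] at this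

/-- The `i`-th affine chart `ℂ^n → CP^n`, sending `x` to the line through `x` with `1` inserted at
place `i`. -/
noncomputable def chart {n : ℕ} (i : Fin (n + 1)) (x : Fin n → ℂ) : CP n :=
  Projectivization.mk ℂ (homog i x) (homog_ne_zero i x)

/-- The local potential `(1/2) log (1 + |x|^2)` of the Fubini-Study form in an affine chart. -/
noncomputable def fsPot {n : ℕ} (x : Fin n → ℂ) : ℝ :=
  (1 / 2) * Real.log (1 + ∑ j, ‖x j‖ ^ 2)

/-- `u : ℂ^n → [-∞, ∞)` is plurisubharmonic (or identically `-∞`): upper semicontinuous, and at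
the centre of every complex disc at most the mean over its boundary circle. -/
def IsPsh {n : ℕ} (u : (Fin n → ℂ) → EReal) : Prop :=
  UpperSemicontinuous u ∧ (∀ x, u x ≠ ⊤) ∧
    ∀ (a b : Fin n → ℂ) (M : ℝ),
      u a ≤ (((2 * Real.pi)⁻¹ * ∫ θ in (0 : ℝ)..(2 * Real.pi),
        (max (u (a + Complex.exp (θ * Complex.I) • b)) (M : EReal)).toReal : ℝ) : EReal)

/-- `φ : CP^n → [-∞, ∞)` is `ω`-plurisubharmonic, `ω` the Fubini-Study form: not identically `-∞`,
upper semicontinuous, and in every affine chart `φ` plus the local potential of `ω` is psh. -/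
def IsOmegaPsh {n : ℕ} (φ : CP n → EReal) : Prop :=
  (∃ p, φ p ≠ ⊥) ∧ UpperSemicontinuous φ ∧
    ∀ i : Fin (n + 1), IsPsh fun x => φ (chart i x) + (fsPot x : EReal)

/-- `φ : CP^n → ℝ` is a smooth `ω`-psh function. -/
def IsSmoothOmegaPsh {n : ℕ} (φ : CP n → ℝ) : Prop :=
  (∀ i : Fin (n + 1), ContDiff ℝ ∞ fun x => φ (chart i x)) ∧ IsOmegaPsh fun p => (φ p : EReal)

/-- The Wirtinger derivative `∂f/∂z_i`. -/
noncomputable def dz {n : ℕ} (i : Fin n) (f : (Fin n → ℂ) → ℂ) (x : Fin n → ℂ) : ℂ :=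
  (1 / 2) * (fderiv ℝ f x (Pi.single i 1) - Complex.I * fderiv ℝ f x (Pi.single i Complex.I))

/-- The Wirtinger derivative `∂f/∂\bar z_i`. -/
noncomputable def dzbar {n : ℕ} (i : Fin n) (f : (Fin n → ℂ) → ℂ) (x : Fin n → ℂ) : ℂ :=
  (1 / 2) * (fderiv ℝ f x (Pi.single i 1) + Complex.I * fderiv ℝ f x (Pi.single i Complex.I))

/-- The complex Hessian matrix `(∂²u/∂z_i∂\bar z_j)`. -/
noncomputable def cHess {n : ℕ} (u : (Fin n → ℂ) → ℝ) (x : Fin n → ℂ) : Matrix (Fin n) (Fin n) ℂ :=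
  Matrix.of fun i j => dz i (dzbar j fun y => (u y : ℂ)) x

/-- The density of `(dd^c u)^n` with respect to Lebesgue measure on `ℂ^n`, where
`dd^c = (i/π) ∂∂bar`; it is `n! (2/π)^n det (∂²u/∂z_i∂\bar z_j)`. -/
noncomputable def maDensity {n : ℕ} (u : (Fin n → ℂ) → ℝ) (x : Fin n → ℂ) : ℝ :=
  n.factorial * (2 / Real.pi) ^ n * (cHess u x).det.re

/-- The measure `(ω + dd^c φ)^n` on `CP^n` of a smooth `ω`-psh function `φ`. It has a smooth
density, so it does not charge the hyperplane missed by the chart `0`. -/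
noncomputable def smoothMA {n : ℕ} (φ : CP n → ℝ) : Measure (CP n) :=
  ((volume : Measure (Fin n → ℂ)).withDensity fun x =>
    ENNReal.ofReal (maDensity (fun y => φ (chart 0 y) + fsPot y) x)).map (chart 0)

/-- `φ_j` is a sequence of smooth `ω`-psh functions decreasing to `φ` on `CP^n`. -/
def DecreasesTo {n : ℕ} (u : ℕ → CP n → ℝ) (φ : CP n → EReal) : Prop :=
  (∀ j, IsSmoothOmegaPsh (u j)) ∧ (∀ p, Antitone fun j => u j p) ∧
    ∀ p, Tendsto (fun j => (u j p : EReal)) atTop (𝓝 (φ p))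

/-- `φ ∈ DMA(CP^n, ω)` and `MA(φ) = μ`: for every sequence of smooth `ω`-psh functions decreasing
to `φ` on `CP^n` (there is at least one), the Monge-Ampere measures converge weakly to `μ`. -/
def HasMA {n : ℕ} (φ : CP n → EReal) (μ : Measure (CP n)) : Prop :=
  IsOmegaPsh φ ∧ IsFiniteMeasure μ ∧ (∃ u, DecreasesTo u φ) ∧
    ∀ u : ℕ → CP n → ℝ, DecreasesTo u φ → ∀ f : CP n → ℝ, Continuous f →
      Tendsto (fun j => ∫ p, f p ∂(smoothMA (u j))) atTop (𝓝 (∫ p, f p ∂μ))

/-- The Lelong number of `φ` at `a`, computed in the affine charts around `a`: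
the supremum of the `γ ≥ 0` such that `φ ≤ γ log |x - a| + O(1)` near `a`. -/
noncomputable def lelong {n : ℕ} (φ : CP n → EReal) (a : CP n) : ℝ :=
  sSup {γ : ℝ | 0 ≤ γ ∧ ∀ (i : Fin (n + 1)) (x₀ : Fin n → ℂ), chart i x₀ = a →
    ∃ C : ℝ, ∀ᶠ x in 𝓝[≠] x₀,
      φ (chart i x) ≤ ((γ * Real.log ‖x - x₀‖ + C : ℝ) : EReal)}

end Pool.Agent.Helper853
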