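import Pool.Agent.Helper853.Stokes

open scoped Topology ContDiff ComplexOrder
open MeasureTheory Filter

namespace Pool.Agent.Helper853

variable {n : ℕ}

/-- Four times the Levi form of `u` at `x` in direction `v`. -/
noncomputable def lap2 (u : (Fin n → ℂ) → ℝ) (x v : Fin n → ℂ) : ℝ :=
  fderiv ℝ (fderiv ℝ u) x v v + fderiv ℝ (fderiv ℝ u) x (Complex.I • v) (Complex.I • v)

lemma lap2_congr {u v : (Fin n → ℂ) → ℝ} {x : Fin n → ℂ} (h : u =ᶠ[𝓝 x] v) (w : Fin n → ℂ) :
    lap2 u x w = lap2 v x w := by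
  unfold lap2
  rw [(h.fderiv (𝕜 := ℝ)).fderiv_eq]

lemma fderiv_ofReal {u : (Fin n → ℂ) → ℝ} {x : Fin n → ℂ} (hu : DifferentiableAt ℝ u x)
    (v : Fin n → ℂ) : fderiv ℝ (fun y => (u y : ℂ)) x v = ((fderiv ℝ u x v : ℝ) : ℂ) := by
  have h := (Complex.ofRealCLM.hasFDerivAt (x := u x)).comp x hu.hasFDerivAt
  have h' : HasFDerivAt (fun y => (u y : ℂ)) (Complex.ofRealCLM.comp (fderiv ℝ u x)) x := h
  rw [h'.fderiv]
  simp

lemma snd_ofReal {u : (Fin n → ℂ) → ℝ} {x : Fin n → ℂ} (hu : ContDiffAt ℝ 2 u x)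
    (v w : Fin n → ℂ) :
    fderiv ℝ (fderiv ℝ fun y => (u y : ℂ)) x v w = ((fderiv ℝ (fderiv ℝ u) x v w : ℝ) : ℂ) := by
  have hC : ContDiffAt ℝ 2 (fun y => (u y : ℂ)) x :=
    Complex.ofRealCLM.contDiff.contDiffAt.comp x hu
  rw [← fderiv_fderiv_apply hC, ← fderiv_fderiv_apply hu]
  have hev : ∀ᶠ y in 𝓝 x, DifferentiableAt ℝ u y := by
    have := hu.eventually (by simp)
    filter_upwards [this] with y hy
    exact hy.differentiableAt (by norm_num)
  have h1 : (fun y => fderiv ℝ (fun y => (u y : ℂ)) y w) =ᶠ[𝓝 x]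
      fun y => ((fderiv ℝ u y w : ℝ) : ℂ) := by
    filter_upwards [hev] with y hy
    exact fderiv_ofReal hy w
  rw [h1.fderiv_eq]
  apply fderiv_ofReal
  have h1 : DifferentiableAt ℝ (fderiv ℝ u) x := by
    have : ContDiffAt ℝ 1 (fderiv ℝ u) x := hu.fderiv_right (by norm_num)
    exact this.differentiableAt (by norm_num)
  exact h1.clm_apply (differentiableAt_const _)

lemma cHess_apply {u : (Fin n → ℂ) → ℝ} {x : Fin n → ℂ} (hu : ContDiffAt ℝ 2 u x) (i j : Fin n) :
    cHess u x i j = (1 / 4) *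
      (((fderiv ℝ (fderiv ℝ u) x (Pi.single i 1) (Pi.single j 1) +
        fderiv ℝ (fderiv ℝ u) x (Pi.single i Complex.I) (Pi.single j Complex.I) : ℝ) : ℂ) +
      Complex.I * ((fderiv ℝ (fderiv ℝ u) x (Pi.single i 1) (Pi.single j Complex.I) -
        fderiv ℝ (fderiv ℝ u) x (Pi.single i Complex.I) (Pi.single j 1) : ℝ) : ℂ)) := by
  have hC : ContDiffAt ℝ 2 (fun y => (u y : ℂ)) x :=
    Complex.ofRealCLM.contDiff.contDiffAt.comp x hu
  simp only [cHess, Matrix.of_apply]
  unfold dz
  rw [fderiv_dzbar hC, fderiv_dzbar hC]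
  simp only [snd_ofReal hu]
  push_cast
  linear_combination ((1:ℂ)/4) * (-(fderiv ℝ (fderiv ℝ u) x (Pi.single i Complex.I)
    (Pi.single j Complex.I) : ℂ)) * Complex.I_sq

lemma cHess_isHermitian {u : (Fin n → ℂ) → ℝ} {x : Fin n → ℂ} (hu : ContDiffAt ℝ 2 u x) :
    (cHess u x).IsHermitian := by
  ext i j
  rw [Matrix.conjTranspose_apply, cHess_apply hu, cHess_apply hu]
  simp only [star_mul', star_add, RCLike.star_def, Complex.conj_ofReal, Complex.conj_I, map_div₀,
    map_one, map_ofNat]
  rw [snd_symm hu (Pi.single j 1) (Pi.single i 1),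
    snd_symm hu (Pi.single j Complex.I) (Pi.single i Complex.I),
    snd_symm hu (Pi.single j 1) (Pi.single i Complex.I),
    snd_symm hu (Pi.single j Complex.I) (Pi.single i 1)]
  push_cast
  ring

lemma decomp (w : Fin n → ℂ) :
    w = ∑ i, ((w i).re • (Pi.single i (1 : ℂ) : Fin n → ℂ) +
      (w i).im • (Pi.single i Complex.I : Fin n → ℂ)) := by
  ext k
  rw [Finset.sum_apply]
  simp only [Pi.add_apply, Pi.smul_apply, Pi.single_apply]
  rw [Finset.sum_eq_single k]
  · simp
  · intro b _ hb
    simp [hb.symm]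
  · simp

lemma decompI (w : Fin n → ℂ) :
    Complex.I • w = ∑ i, ((-(w i).im) • (Pi.single i (1 : ℂ) : Fin n → ℂ) +
      (w i).re • (Pi.single i Complex.I : Fin n → ℂ)) := by
  conv_lhs => rw [decomp (Complex.I • w)]
  simp

lemma bilin_expand (B : (Fin n → ℂ) →L[ℝ] (Fin n → ℂ) →L[ℝ] ℝ) (e f : Fin n → (Fin n → ℂ))
    (a b c d : Fin n → ℝ) :
    B (∑ i, (a i • e i + b i • f i)) (∑ j, (c j • e j + d j • f j)) =
      ∑ i, ∑ j, (a i * c j * B (e i) (e j) + a i * d j * B (e i) (f j) +
        b i * c j * B (f i) (e j) + b i * d j * B (f i) (f j)) := by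
  rw [map_sum B, _root_.sum_apply]
  apply Finset.sum_congr rfl
  intro i _
  rw [map_sum]
  apply Finset.sum_congr rfl
  intro j _
  simp only [map_add, map_smul, _root_.add_apply, _root_.smul_apply, smul_eq_mul]
  ring

/-- The quadratic form of the complex Hessian is a quarter of `lap2`. -/
lemma cHess_quadForm {u : (Fin n → ℂ) → ℝ} {x : Fin n → ℂ} (hu : ContDiffAt ℝ 2 u x)
    (v : Fin n → ℂ) :
    star v ⬝ᵥ (cHess u x).mulVec v = (((1 / 4) * lap2 u x (star v) : ℝ) : ℂ) := by
  set w := star v with hw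
  have hv : v = star w := by simp [hw]
  set B := fderiv ℝ (fderiv ℝ u) x with hB
  have e1 : lap2 u x w = ∑ i, ∑ j,
      (((w i).re * (w j).re + (w i).im * (w j).im) *
        (B (Pi.single i 1) (Pi.single j 1) + B (Pi.single i Complex.I) (Pi.single j Complex.I)) +
      ((w i).re * (w j).im - (w i).im * (w j).re) *
        (B (Pi.single i 1) (Pi.single j Complex.I) - B (Pi.single i Complex.I) (Pi.single j 1))) := by
    unfold lap2
    rw [← hB]
    have h1 := bilin_expand B (fun i => Pi.single i (1 : ℂ)) (fun i => Pi.single i Complex.I)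
      (fun i => (w i).re) (fun i => (w i).im) (fun i => (w i).re) (fun i => (w i).im)
    have h2 := bilin_expand B (fun i => Pi.single i (1 : ℂ)) (fun i => Pi.single i Complex.I)
      (fun i => -(w i).im) (fun i => (w i).re) (fun i => -(w i).im) (fun i => (w i).re)
    rw [← decomp w] at h1
    rw [← decompI w] at h2
    rw [h1, h2, ← Finset.sum_add_distrib]
    apply Finset.sum_congr rfl
    intro i _
    rw [← Finset.sum_add_distrib]
    apply Finset.sum_congr rfl
    intro j _
    ring
  have e2 : ∑ i, ∑ j,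
      (((w i).re * (w j).re + (w i).im * (w j).im) *
        (B (Pi.single i 1) (Pi.single j Complex.I) - B (Pi.single i Complex.I) (Pi.single j 1)) +
      ((w i).im * (w j).re - (w i).re * (w j).im) *
        (B (Pi.single i 1) (Pi.single j 1) + B (Pi.single i Complex.I) (Pi.single j Complex.I)))
        = 0 := by
    have h3 : ∀ i j : Fin n, (((w i).re * (w j).re + (w i).im * (w j).im) *
        (B (Pi.single i 1) (Pi.single j Complex.I) - B (Pi.single i Complex.I) (Pi.single j 1)) +
      ((w i).im * (w j).re - (w i).re * (w j).im) *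
        (B (Pi.single i 1) (Pi.single j 1) + B (Pi.single i Complex.I) (Pi.single j Complex.I)))
        = - (((w j).re * (w i).re + (w j).im * (w i).im) *
        (B (Pi.single j 1) (Pi.single i Complex.I) - B (Pi.single j Complex.I) (Pi.single i 1)) +
      ((w j).im * (w i).re - (w j).re * (w i).im) *
        (B (Pi.single j 1) (Pi.single i 1) + B (Pi.single j Complex.I) (Pi.single i Complex.I))) := by
      intro i j
      rw [hB, snd_symm hu (Pi.single j 1) (Pi.single i 1),
        snd_symm hu (Pi.single j Complex.I) (Pi.single i Complex.I),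
        snd_symm hu (Pi.single j 1) (Pi.single i Complex.I),
        snd_symm hu (Pi.single j Complex.I) (Pi.single i 1)]
      ring
    have h4 : ∀ g : Fin n → Fin n → ℝ, (∀ i j, g i j = - g j i) → ∑ i, ∑ j, g i j = 0 := by
      intro g hg
      have : ∑ i, ∑ j, g i j = - ∑ i, ∑ j, g i j := by
        conv_lhs => rw [Finset.sum_comm]
        rw [← Finset.sum_neg_distrib]
        apply Finset.sum_congr rfl
        intro i _
        rw [← Finset.sum_neg_distrib]
        apply Finset.sum_congr rfl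
        intro j _
        exact hg j i
      linarith
    exact h4 _ h3
  have e3 : w ⬝ᵥ (cHess u x).mulVec v = ∑ i, ∑ j, w i * (cHess u x i j * star (w j)) := by
    simp only [dotProduct, Matrix.mulVec, Finset.mul_sum]
    rw [hv]
    simp
  rw [e3]
  simp_rw [cHess_apply hu, ← hB]
  apply Complex.ext
  · rw [Complex.re_sum]
    simp_rw [Complex.re_sum]
    rw [Complex.ofReal_re, e1, Finset.mul_sum]
    apply Finset.sum_congr rfl
    intro i _
    rw [Finset.mul_sum]
    apply Finset.sum_congr rfl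
    intro j _
    simp
    ring
  · rw [Complex.im_sum]
    simp_rw [Complex.im_sum]
    rw [Complex.ofReal_im]
    have : (0 : ℝ) = (1 / 4) * 0 := by ring
    rw [this, ← e2, Finset.mul_sum]
    apply Finset.sum_congr rfl
    intro i _
    rw [Finset.mul_sum]
    apply Finset.sum_congr rfl
    intro j _
    simp
    ring

lemma cHess_posSemidef_iff {u : (Fin n → ℂ) → ℝ} {x : Fin n → ℂ} (hu : ContDiffAt ℝ 2 u x) :
    (cHess u x).PosSemidef ↔ ∀ v, 0 ≤ lap2 u x v := by
  constructor
  · intro h v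
    have := h.dotProduct_mulVec_nonneg (star v)
    rw [cHess_quadForm hu, star_star] at this
    have h2 := Complex.zero_le_real.mp this
    linarith
  · intro h
    refine Matrix.PosSemidef.of_dotProduct_mulVec_nonneg (cHess_isHermitian hu) ?_
    intro v
    rw [cHess_quadForm hu]
    exact Complex.zero_le_real.mpr (by have := h (star v); linarith)

end Pool.Agent.Helper853
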