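import Pool.Agent.Helper853.Limit

open scoped Topology ContDiff ComplexOrder ENNReal ComplexConjugate LinearAlgebra.Projectivization
open MeasureTheory Filter

namespace Pool.Agent.Helper853

section topology

variable {n : ℕ}

lemma continuous_mk_comp {X : Type*} [TopologicalSpace X] {g : X → (Fin (n + 1) → ℂ)}
    (hg : Continuous g) (h0 : ∀ x, g x ≠ 0) :
    Continuous fun x => (Projectivization.mk ℂ (g x) (h0 x) : CP n) := by
  have h1 : Continuous fun x => (⟨g x, h0 x⟩ : {v : Fin (n + 1) → ℂ // v ≠ 0}) :=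
    hg.subtype_mk h0
  exact continuous_quotient_mk'.comp h1

lemma continuous_homog (i : Fin (n + 1)) :
    Continuous (homog i : (Fin n → ℂ) → (Fin (n + 1) → ℂ)) :=
  continuous_pi fun k => (contDiff_homog i k).continuous

lemma continuous_chart (i : Fin (n + 1)) : Continuous (chart i : (Fin n → ℂ) → CP n) :=
  continuous_mk_comp (continuous_homog i) _

/-- affine coordinates in the chart `i` -/
noncomputable def aff (i : Fin (n + 1)) (x : Fin (n + 1) → ℂ) : Fin n → ℂ :=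
  fun j => x (i.succAbove j) / x i

lemma homog_aff {i : Fin (n + 1)} {x : Fin (n + 1) → ℂ} (hx : x i ≠ 0) :
    homog i (aff i x) = (x i)⁻¹ • x := by
  ext k
  rcases Fin.eq_self_or_eq_succAbove i k with h | ⟨j, h⟩
  · subst h
    simp [homog, hx]
  · subst h
    simp [homog, aff, div_eq_inv_mul]

lemma mk_smul_eq {c : ℂ} {x : Fin (n + 1) → ℂ} (hx : x ≠ 0) (h : c • x ≠ 0) :
    (Projectivization.mk ℂ (c • x) h : CP n) = Projectivization.mk ℂ x hx := by
  rw [Projectivization.mk_eq_mk_iff']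
  exact ⟨c, rfl⟩

lemma chart_aff {i : Fin (n + 1)} {x : Fin (n + 1) → ℂ} (hx : x i ≠ 0) (hx0 : x ≠ 0) :
    chart i (aff i x) = Projectivization.mk ℂ x hx0 := by
  unfold chart
  have h := homog_aff hx
  have h2 : (x i)⁻¹ • x ≠ 0 := by rw [← h]; exact homog_ne_zero _ _
  have e : (Projectivization.mk ℂ (homog i (aff i x)) (homog_ne_zero _ _) : CP n) =
      Projectivization.mk ℂ ((x i)⁻¹ • x) h2 := by
    congr 1
  rw [e, mk_smul_eq hx0]

/-- a function on `CP^n` is continuous if it is so in all affine charts -/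
lemma continuous_of_charts {φ : CP n → ℝ} (h : ∀ i, Continuous fun x => φ (chart i x)) :
    Continuous φ := by
  have hq : Topology.IsQuotientMap
      (Quotient.mk (projectivizationSetoid ℂ (Fin (n + 1) → ℂ))) := isQuotientMap_quotient_mk'
  have : Continuous (φ ∘ Quotient.mk (projectivizationSetoid ℂ (Fin (n + 1) → ℂ))) := by
    rw [continuous_iff_continuousAt]
    rintro ⟨x, hx⟩
    obtain ⟨i, hi⟩ := Function.ne_iff.mp hx
    have hi' : x i ≠ 0 := hi
    have hc : ContinuousAt (fun y : {v : Fin (n + 1) → ℂ // v ≠ 0} => aff i y.1) ⟨x, hx⟩ := by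
      apply tendsto_pi_nhds.mpr
      intro j
      have c1 : ContinuousAt (fun y : {v : Fin (n + 1) → ℂ // v ≠ 0} => y.1 (i.succAbove j))
          ⟨x, hx⟩ := ((continuous_apply _).comp continuous_subtype_val).continuousAt
      have c2 : ContinuousAt (fun y : {v : Fin (n + 1) → ℂ // v ≠ 0} => y.1 i)
          ⟨x, hx⟩ := ((continuous_apply _).comp continuous_subtype_val).continuousAt
      exact c1.div c2 hi'
    have h2 : ContinuousAt (fun y : {v : Fin (n + 1) → ℂ // v ≠ 0} => φ (chart i (aff i y.1)))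
        ⟨x, hx⟩ := ((h i).continuousAt (x := aff i x)).comp (f := fun y :
          {v : Fin (n + 1) → ℂ // v ≠ 0} => aff i y.1) (x := ⟨x, hx⟩) hc
    apply h2.congr
    have c3 : ∀ᶠ y : {v : Fin (n + 1) → ℂ // v ≠ 0} in 𝓝 ⟨x, hx⟩, y.1 i ≠ 0 :=
      (((continuous_apply i).comp continuous_subtype_val).continuousAt).eventually_ne hi'
    filter_upwards [c3] with y hy
    rw [chart_aff hy y.2]
    rfl
  exact hq.continuous_iff.mpr this

/-- continuous functions on `CP^n` are bounded -/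
lemma bounded_of_continuous {f : CP n → ℝ} (hf : Continuous f) : ∃ B : ℝ, ∀ p, |f p| ≤ B := by
  have hs : ∀ x : Metric.sphere (0 : Fin (n + 1) → ℂ) 1, (x : Fin (n + 1) → ℂ) ≠ 0 := by
    intro x h
    have := x.2
    rw [h] at this
    simp at this
  have hc : Continuous fun x : Metric.sphere (0 : Fin (n + 1) → ℂ) 1 =>
      |f (Projectivization.mk ℂ (x : Fin (n + 1) → ℂ) (hs x))| :=
    (hf.comp (continuous_mk_comp continuous_subtype_val hs)).abs
  obtain ⟨B, hB⟩ := (isCompact_range hc).bddAbove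
  refine ⟨B, ?_⟩
  intro p
  induction p using Projectivization.ind with
  | h v hv =>
    have hn : 0 < ‖v‖ := norm_pos_iff.mpr hv
    have h1 : (‖v‖ : ℂ)⁻¹ • v ∈ Metric.sphere (0 : Fin (n + 1) → ℂ) 1 := by
      simp only [mem_sphere_iff_norm, sub_zero]
      rw [norm_smul, norm_inv, Complex.norm_real, norm_norm]
      field_simp
    have h2 := hB ⟨⟨_, h1⟩, rfl⟩
    simp only at h2
    rw [mk_smul_eq hv] at h2
    exact h2

end topology

section potentials

variable {m : ℕ} {ν : ℝ}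

/-- `(1/2) log Σ |x_i|²` -/
noncomputable def LL (x : Fin (m + 3) → ℂ) : ℝ := (1 / 2) * Real.log (∑ i, ‖x i‖ ^ 2)

lemma sum_sq_pos {x : Fin (m + 3) → ℂ} (hx : x ≠ 0) : 0 < ∑ i, ‖x i‖ ^ 2 := by
  obtain ⟨i, hi⟩ := Function.ne_iff.mp hx
  have h1 : 0 < ‖x i‖ ^ 2 := by
    have : 0 < ‖x i‖ := norm_pos_iff.mpr hi
    positivity
  exact lt_of_lt_of_le h1 (Finset.single_le_sum (f := fun i => ‖x i‖ ^ 2)
    (fun i _ => by positivity) (Finset.mem_univ i))

lemma LL_smul {c : ℂ} (hc : c ≠ 0) {x : Fin (m + 3) → ℂ} (hx : x ≠ 0) :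
    LL (c • x) = Real.log ‖c‖ + LL x := by
  unfold LL
  have hc' : 0 < ‖c‖ := norm_pos_iff.mpr hc
  have : ∑ i, ‖(c • x) i‖ ^ 2 = ‖c‖ ^ 2 * ∑ i, ‖x i‖ ^ 2 := by
    rw [Finset.mul_sum]
    apply Finset.sum_congr rfl
    intro i _
    simp only [Pi.smul_apply, smul_eq_mul, norm_mul]
    rw [mul_pow]
  rw [this, Real.log_mul (by positivity) (sum_sq_pos hx).ne', Real.log_pow]
  push_cast
  ring

lemma LL_homog (i : Fin (m + 3)) (x : Fin (m + 2) → ℂ) : LL (homog i x) = fsPot x := by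
  unfold LL fsPot
  rw [sumSq_homog]

/-- the approximants on `CP^n` -/
noncomputable def phi (m : ℕ) (ν : ℝ) (k : ℕ) (p : CP (m + 2)) : ℝ :=
  vv m ν k p.rep - LL p.rep

lemma phi_mk (h0 : 0 < ν) (h1 : ν ≤ 1) (k : ℕ) {x : Fin (m + 3) → ℂ} (hx : x ≠ 0) :
    phi m ν k (Projectivization.mk ℂ x hx) = vv m ν k x - LL x := by
  obtain ⟨a, ha⟩ := Projectivization.exists_smul_eq_mk_rep ℂ x hx
  unfold phi
  rw [← ha]
  have h2 : (a : ℂ) ≠ 0 := a.ne_zero
  have e : a • x = (a : ℂ) • x := rfl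
  rw [e, vv_smul h0 h1 k h2 hx, LL_smul h2 hx]
  ring

lemma phi_chart (h0 : 0 < ν) (h1 : ν ≤ 1) (k : ℕ) (i : Fin (m + 3)) (x : Fin (m + 2) → ℂ) :
    phi m ν k (chart i x) + fsPot x = vv m ν k (homog i x) := by
  unfold chart
  rw [phi_mk h0 h1, LL_homog]
  ring

/-- the holomorphic functions whose squares sum to `T_k` -/
noncomputable def Gk (m : ℕ) (ν : ℝ) (k : ℕ) (i : Fin (m + 3)) :
    (Fin (m + 2) ⊕ Fin (m + 3)) → (Fin (m + 2) → ℂ) → ℂ
  | Sum.inl j => fun x => Fk (PP m ν k) k j (homog i x)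
  | Sum.inr l => fun x => ((Real.sqrt (dd m ν k) : ℝ) : ℂ) * (homog i x l) ^ (2 ^ k)

lemma contDiff_homog' (i : Fin (m + 3)) :
    ContDiff ℂ ∞ (homog i : (Fin (m + 2) → ℂ) → (Fin (m + 3) → ℂ)) :=
  contDiff_pi.mpr fun k => contDiff_homog i k

lemma contDiff_Gk (h0 : 0 < ν) (h1 : ν ≤ 1) (k : ℕ) (i : Fin (m + 3))
    (s : Fin (m + 2) ⊕ Fin (m + 3)) : ContDiff ℂ ∞ (Gk m ν k i s) := by
  rcases s with j | l
  · exact (contDiff_Fk (good_all h0 h1 k).1 j).comp (contDiff_homog' i)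
  · exact contDiff_const.mul ((contDiff_homog i l).pow _)

lemma sumSq_Gk (h0 : 0 < ν) (h1 : ν ≤ 1) (k : ℕ) (i : Fin (m + 3)) (x : Fin (m + 2) → ℂ) :
    sumSq (Gk m ν k i) x = TT m ν k (homog i x) := by
  unfold sumSq TT
  rw [Fintype.sum_sum_type]
  congr 1
  unfold QQ
  rw [Finset.mul_sum]
  apply Finset.sum_congr rfl
  intro l _
  have hd := (good_all (m := m) h0 h1 k).2.1
  simp only [Gk, norm_mul, norm_pow, Complex.norm_real]
  rw [Real.norm_of_nonneg (Real.sqrt_nonneg _), mul_pow, Real.sq_sqrt hd.le, ← pow_mul]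
  congr 2
  ring

lemma vv_homog_eq (h0 : 0 < ν) (h1 : ν ≤ 1) (k : ℕ) (i : Fin (m + 3)) :
    (fun x : Fin (m + 2) → ℂ => vv m ν k (homog i x)) =
      fun x => 1 / (2 * 2 ^ k) * Real.log (sumSq (Gk m ν k i) x) := by
  ext x
  rw [sumSq_Gk h0 h1]
  rfl

lemma sumSq_Gk_pos (h0 : 0 < ν) (h1 : ν ≤ 1) (k : ℕ) (i : Fin (m + 3)) (x : Fin (m + 2) → ℂ) :
    0 < sumSq (Gk m ν k i) x := by
  rw [sumSq_Gk h0 h1]
  exact TT_pos h0 h1 k (homog_ne_zero i x)

lemma contDiff_vv_homog (h0 : 0 < ν) (h1 : ν ≤ 1) (k : ℕ) (i : Fin (m + 3)) :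
    ContDiff ℝ ∞ fun x : Fin (m + 2) → ℂ => vv m ν k (homog i x) := by
  rw [vv_homog_eq h0 h1]
  exact contDiff_const.mul ((contDiff_sumSq (contDiff_Gk h0 h1 k i)).log
    fun x => (sumSq_Gk_pos h0 h1 k i x).ne')

lemma subMean_vv_homog (h0 : 0 < ν) (h1 : ν ≤ 1) (k : ℕ) (i : Fin (m + 3)) :
    SubMean fun x : Fin (m + 2) → ℂ => vv m ν k (homog i x) := by
  rw [vv_homog_eq h0 h1]
  exact subMean_log_sumSq (contDiff_Gk h0 h1 k i) (sumSq_Gk_pos h0 h1 k i) (by positivity)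

lemma contDiff_phi_chart (h0 : 0 < ν) (h1 : ν ≤ 1) (k : ℕ) (i : Fin (m + 3)) :
    ContDiff ℝ ∞ fun x : Fin (m + 2) → ℂ => phi m ν k (chart i x) := by
  have e : (fun x : Fin (m + 2) → ℂ => phi m ν k (chart i x)) =
      fun x => vv m ν k (homog i x) - fsPot x := by
    ext x
    rw [← phi_chart h0 h1]
    ring
  rw [e]
  exact (contDiff_vv_homog h0 h1 k i).sub (contDiffOn_univ.mp sPsh_fsPot.1)

lemma continuous_phi (h0 : 0 < ν) (h1 : ν ≤ 1) (k : ℕ) : Continuous (phi m ν k) :=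
  continuous_of_charts fun i => (contDiff_phi_chart h0 h1 k i).continuous

/-- the Green function -/
noncomputable def GG (m : ℕ) (ν : ℝ) (p : CP (m + 2)) : EReal := ⨅ k, (phi m ν k p : EReal)

lemma iInf_add_coe (a : ℕ → ℝ) (c : ℝ) :
    (⨅ k, (a k : EReal)) + (c : EReal) = ⨅ k, ((a k + c : ℝ) : EReal) := by
  apply le_antisymm
  · apply le_iInf
    intro k
    rw [EReal.coe_add]
    exact add_le_add_left (iInf_le _ k) _
  · have h : ∀ k, (⨅ k, ((a k + c : ℝ) : EReal)) - (c : EReal) ≤ (a k : EReal) := by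
      intro k
      rw [EReal.sub_le_iff_le_add (by simp) (by simp), ← EReal.coe_add]
      exact iInf_le _ k
    have h2 := le_iInf h
    rwa [EReal.sub_le_iff_le_add (by simp) (by simp)] at h2

lemma GG_chart (h0 : 0 < ν) (h1 : ν ≤ 1) (i : Fin (m + 3)) (x : Fin (m + 2) → ℂ) :
    GG m ν (chart i x) + (fsPot x : EReal) = ⨅ k, (vv m ν k (homog i x) : EReal) := by
  unfold GG
  rw [iInf_add_coe]
  congr 1
  ext k
  rw [phi_chart h0 h1]

lemma phi_antitone (h0 : 0 < ν) (h1 : ν ≤ 1) (p : CP (m + 2)) :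
    Antitone fun k => phi m ν k p := by
  intro k l hkl
  have := vv_antitone (m := m) h0 h1 p.rep_nonzero hkl
  unfold phi
  simp only at this ⊢
  linarith

lemma exists_tail_ne : ∃ x : Fin (m + 3) → ℂ, x ≠ 0 ∧ Fin.tail x ≠ 0 := by
  refine ⟨fun _ => 1, ?_, ?_⟩
  · intro h
    have := congrFun h 0
    simp at this
  · intro h
    have := congrFun h 0
    simp [Fin.tail] at this

lemma iInf_eq_VV (h0 : 0 < ν) (h1 : ν ≤ 1) {x : Fin (m + 3) → ℂ} (ht : Fin.tail x ≠ 0) (c : ℝ) :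
    (⨅ k, ((vv m ν k x - c : ℝ) : EReal)) = ((VV m ν x - c : ℝ) : EReal) := by
  have hx : x ≠ 0 := by
    rintro rfl
    exact ht rfl
  have h2 : Tendsto (fun k => ((vv m ν k x - c : ℝ) : EReal)) atTop
      (𝓝 (((VV m ν x - c : ℝ)) : EReal)) :=
    (continuous_coe_real_ereal.tendsto _).comp ((VV_tendsto h0 h1 ht).sub_const c)
  have h3 : Antitone fun k => ((vv m ν k x - c : ℝ) : EReal) := by
    intro k l hkl
    have := vv_antitone (m := m) h0 h1 hx hkl
    simp only at this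
    exact EReal.coe_le_coe_iff.mpr (by linarith)
  exact iInf_eq_of_tendsto h3 h2

lemma GG_mk (h0 : 0 < ν) (h1 : ν ≤ 1) {x : Fin (m + 3) → ℂ} (hx : x ≠ 0)
    (ht : Fin.tail x ≠ 0) :
    GG m ν (Projectivization.mk ℂ x hx) = ((VV m ν x - LL x : ℝ) : EReal) := by
  unfold GG
  simp_rw [phi_mk h0 h1]
  exact iInf_eq_VV h0 h1 ht _

lemma isOmegaPsh_GG (h0 : 0 < ν) (h1 : ν ≤ 1) : IsOmegaPsh (GG m ν) := by
  refine ⟨?_, ?_, ?_⟩
  · obtain ⟨x, hx, ht⟩ := exists_tail_ne (m := m)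
    refine ⟨Projectivization.mk ℂ x hx, ?_⟩
    rw [GG_mk h0 h1 hx ht]
    exact EReal.coe_ne_bot _
  · apply upperSemicontinuous_iInf
    intro k
    exact (continuous_coe_real_ereal.comp (continuous_phi h0 h1 k)).upperSemicontinuous
  · intro i
    have e : (fun x : Fin (m + 2) → ℂ => GG m ν (chart i x) + (fsPot x : EReal)) =
        fun x => ⨅ k, (vv m ν k (homog i x) : EReal) := by
      ext x
      exact GG_chart h0 h1 i x
    rw [e]
    apply isPsh_iInf
    · intro k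
      exact (contDiff_vv_homog h0 h1 k i).continuous
    · intro x
      exact vv_antitone h0 h1 (homog_ne_zero i x)
    · intro k
      exact subMean_vv_homog h0 h1 k i

lemma isSmoothOmegaPsh_phi (h0 : 0 < ν) (h1 : ν ≤ 1) (k : ℕ) : IsSmoothOmegaPsh (phi m ν k) := by
  refine ⟨fun i => contDiff_phi_chart h0 h1 k i, ?_, ?_, ?_⟩
  · obtain ⟨x, hx, ht⟩ := exists_tail_ne (m := m)
    exact ⟨Projectivization.mk ℂ x hx, by simp⟩
  · exact (continuous_coe_real_ereal.comp (continuous_phi h0 h1 k)).upperSemicontinuous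
  · intro i
    have e : (fun x : Fin (m + 2) → ℂ => ((phi m ν k (chart i x) : ℝ) : EReal) +
        (fsPot x : EReal)) = fun x => ((vv m ν k (homog i x) : ℝ) : EReal) := by
      ext x
      rw [← EReal.coe_add, phi_chart h0 h1]
    rw [e]
    exact isPsh_of_subMean (contDiff_vv_homog h0 h1 k i).continuous (subMean_vv_homog h0 h1 k i)

lemma decreasesTo_phi (h0 : 0 < ν) (h1 : ν ≤ 1) : DecreasesTo (phi m ν) (GG m ν) := by
  refine ⟨isSmoothOmegaPsh_phi h0 h1, phi_antitone h0 h1, ?_⟩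
  intro p
  apply tendsto_atTop_iInf
  intro k l hkl
  exact EReal.coe_le_coe_iff.mpr (phi_antitone h0 h1 p hkl)

end potentials

end Pool.Agent.Helper853
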