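import Pool.Agent.Helper853.DetIneq

open scoped Topology ContDiff ComplexOrder ENNReal
open MeasureTheory Filter

namespace Pool.Agent.Helper853

variable {n : ℕ}

lemma isCompact_annulus (δ R : ℝ) : IsCompact {x : Fin n → ℂ | δ ≤ ‖x‖ ∧ ‖x‖ ≤ R} := by
  have : {x : Fin n → ℂ | δ ≤ ‖x‖ ∧ ‖x‖ ≤ R} = Metric.closedBall 0 R ∩ {x | δ ≤ ‖x‖} := by
    ext x
    simp [and_comm]
  rw [this]
  exact (isCompact_closedBall 0 R).inter_right (isClosed_le continuous_const continuous_norm)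

lemma exists_annulus {f : (Fin n → ℂ) → ℝ} {K : ℝ} (h0 : ∀ᶠ x in 𝓝[≠] (0 : Fin n → ℂ), f x ≤ K)
    (hinf : ∀ᶠ x in cocompact (Fin n → ℂ), f x ≤ K) :
    ∃ L, IsCompact L ∧ L ⊆ {(0 : Fin n → ℂ)}ᶜ ∧ ∀ x ∈ {(0 : Fin n → ℂ)}ᶜ \ L, f x ≤ K := by
  rw [eventually_nhdsWithin_iff, Metric.eventually_nhds_iff] at h0
  obtain ⟨δ, hδ, h0⟩ := h0
  obtain ⟨S, hS, hSf⟩ := mem_cocompact.mp hinf
  obtain ⟨R, hR⟩ := hS.isBounded.subset_closedBall 0
  refine ⟨{x | δ ≤ ‖x‖ ∧ ‖x‖ ≤ R}, isCompact_annulus δ R, ?_, ?_⟩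
  · intro x hx h
    rw [Set.mem_singleton_iff] at h
    subst h
    simp at hx
    linarith
  · intro x hx
    by_cases h1 : δ ≤ ‖x‖
    · have h2 : ¬ ‖x‖ ≤ R := fun h => hx.2 ⟨h1, h⟩
      apply hSf
      intro hxS
      apply h2
      simpa using hR hxS
    · push Not at h1
      exact h0 (by simpa using h1) hx.1

lemma mixed_mass {m : ℕ} {uF h : (Fin (m + 1) → ℂ) → ℝ} (hF : SPsh Set.univ uF)
    (hFinf : Tendsto uF (cocompact _) atTop) (hh : SPsh {0}ᶜ h)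
    (hbot : Tendsto h (𝓝[≠] 0) atBot) {Ch : ℝ} (hhF : ∀ x ≠ 0, h x ≤ uF x + Ch) :
    ∫⁻ x in {0}ᶜ, ENNReal.ofReal (dH (fun y => h y + uF y) x) ≤
      ENNReal.ofReal (2 ^ (m + 1)) * ∫⁻ x, ENNReal.ofReal (dH uF x) := by
  have hop : IsOpen ({(0 : Fin (m + 1) → ℂ)}ᶜ) := isOpen_compl_singleton
  have hs : SPsh {0}ᶜ fun y => h y + uF y := hh.add hop (hF.mono (Set.subset_univ _))
  have hs2 : SPsh {0}ᶜ fun y => (1 / 2 : ℝ) * (h y + uF y) := hs.const_mul hop (by norm_num)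
  have key := mass_le hop hs2 hF ?_
  · have e : ∀ x ∈ ({(0 : Fin (m + 1) → ℂ)}ᶜ : Set _),
        ENNReal.ofReal (dH (fun y => h y + uF y) x) =
        ENNReal.ofReal (2 ^ (m + 1)) *
          ENNReal.ofReal (dH (fun y => (1 / 2 : ℝ) * (h y + uF y)) x) := by
      intro x hx
      rw [dH_const_mul (hs.contDiffAt hop hx), ← ENNReal.ofReal_mul (by positivity), ← mul_assoc,
        ← mul_pow]
      norm_num
    rw [setLIntegral_congr_fun hop.measurableSet e, lintegral_const_mul' _ _ ENNReal.ofReal_ne_top]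
    exact mul_le_mul' le_rfl key
  · intro ε hε K
    apply exists_annulus
    · have hc : ContinuousAt uF 0 := (hF.1.continuousOn.continuousAt (by simp))
      have hb : ∀ᶠ x in 𝓝[≠] (0 : Fin (m + 1) → ℂ), |uF x - uF 0| < 1 := by
        have := hc.eventually (Metric.ball_mem_nhds (uF 0) one_pos)
        exact (this.filter_mono nhdsWithin_le_nhds).mono fun x hx => by
          simpa [Real.dist_eq] using hx
      have hb2 := hbot.eventually (eventually_le_atBot (2 * K - (1 + 2 * ε) * (|uF 0| + 1)))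
      filter_upwards [hb, hb2] with x h1 h2
      have h3 : |uF x| ≤ |uF 0| + 1 := by
        have := abs_sub_abs_le_abs_sub (uF x) (uF 0)
        linarith
      have h4 : -(uF x) ≤ |uF 0| + 1 := (neg_le_abs _).trans h3
      have h5 : (1 + 2 * ε) * (-(uF x)) ≤ (1 + 2 * ε) * (|uF 0| + 1) := by
        apply mul_le_mul_of_nonneg_left h4 (by linarith)
      linarith
    · have hx0 : ∀ᶠ x in cocompact (Fin (m + 1) → ℂ), x ≠ 0 := by
        have := (isCompact_singleton (x := (0 : Fin (m + 1) → ℂ))).compl_mem_cocompact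
        filter_upwards [this] with x hx
        simpa using hx
      filter_upwards [hx0, hFinf.eventually (eventually_ge_atTop ((Ch / 2 - K) / ε))] with x hx h1
      have h2 := hhF x hx
      rw [div_le_iff₀ hε] at h1
      linarith

/-- The key estimate: a smooth psh function `u` that is close to a function `h` with vanishing
Monge-Ampere measure off the origin has little mass away from the origin. -/
theorem small_mass {m : ℕ} {uF h u : (Fin (m + 1) → ℂ) → ℝ} (hF : SPsh Set.univ uF)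
    (hFinf : Tendsto uF (cocompact _) atTop) (hh : SPsh {0}ᶜ h)
    (hdet : ∀ x ≠ 0, (cHess h x).det = 0)
    (hbot : Tendsto h (𝓝[≠] 0) atBot) {Ch : ℝ} (hhF : ∀ x ≠ 0, h x ≤ uF x + Ch)
    {r₁ r : ℝ} (hr₁ : 0 < r₁) (hr : r₁ < r) (hhF' : ∀ x, r₁ / 2 ≤ ‖x‖ → uF x - Ch ≤ h x)
    (hu : SPsh Set.univ u) {Cu : ℝ} (huF : ∀ x, |u x - uF x| ≤ Cu) {c₀ η : ℝ} (hη : 0 < η)
    (hη1 : η ≤ 1) (h1 : ∀ x, r ≤ ‖x‖ → uF x - c₀ ≤ h x - 1)
    (h1' : ∀ x, r ≤ ‖x‖ → h x - η / 4 ≤ u x)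
    (h2 : ∀ x, r₁ / 2 ≤ ‖x‖ → ‖x‖ ≤ r₁ → h x + 1 ≤ uF x - c₀)
    (h2' : ∀ x, r₁ / 2 ≤ ‖x‖ → ‖x‖ ≤ r₁ → u x ≤ h x + η / 4) :
    ∫⁻ x in {x | r ≤ ‖x‖}, ENNReal.ofReal (dH u x) ≤
      ENNReal.ofReal (η * 2 ^ (m + 1)) * ∫⁻ x, ENNReal.ofReal (dH uF x) := by
  have hop : IsOpen ({(0 : Fin (m + 1) → ℂ)}ᶜ) := isOpen_compl_singleton
  have hrp : 0 < r := hr₁.trans hr
  -- the comparison function
  set φ₀ : (Fin (m + 1) → ℂ) → ℝ := fun y => (1 - η) * h y + η * (uF y + (-c₀)) with hφ₀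
  have hφ₀p : SPsh {0}ᶜ φ₀ := (hh.const_mul hop (by linarith)).add hop
    (((hF.mono (Set.subset_univ _)).add_const _).const_mul hop hη.le)
  -- its mass
  have hmass : ∫⁻ x in {0}ᶜ, ENNReal.ofReal (dH φ₀ x) ≤
      ENNReal.ofReal (η * 2 ^ (m + 1)) * ∫⁻ x, ENNReal.ofReal (dH uF x) := by
    have hle : ∀ x ∈ ({(0 : Fin (m + 1) → ℂ)}ᶜ : Set _), ENNReal.ofReal (dH φ₀ x) ≤
        ENNReal.ofReal η * ENNReal.ofReal (dH (fun y => h y + uF y) x) := by
      intro x hx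
      have c1 := hh.contDiffAt hop hx
      have c2 : ContDiffAt ℝ 2 uF x := hF.contDiffAt isOpen_univ (Set.mem_univ x)
      rw [← ENNReal.ofReal_mul hη.le]
      apply ENNReal.ofReal_le_ofReal
      have e1 : cHess φ₀ x = ((1 - η : ℝ) : ℂ) • cHess h x + (η : ℂ) • cHess uF x := by
        rw [hφ₀, cHess_add (contDiffAt_const.mul c1)
          (contDiffAt_const.mul (c2.add contDiffAt_const)), cHess_const_mul c1,
          cHess_const_mul (c2.add contDiffAt_const), cHess_add_const]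
      unfold dH
      rw [e1, cHess_add c1 c2]
      exact det_combo_le (hh.posSemidef hop hx) (hF.posSemidef isOpen_univ (Set.mem_univ x))
        (hdet x hx) hη.le hη1
    calc ∫⁻ x in {0}ᶜ, ENNReal.ofReal (dH φ₀ x)
        ≤ ∫⁻ x in {0}ᶜ, ENNReal.ofReal η * ENNReal.ofReal (dH (fun y => h y + uF y) x) :=
          setLIntegral_mono' hop.measurableSet hle
      _ = ENNReal.ofReal η * ∫⁻ x in {0}ᶜ, ENNReal.ofReal (dH (fun y => h y + uF y) x) :=
          lintegral_const_mul' _ _ ENNReal.ofReal_ne_top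
      _ ≤ ENNReal.ofReal η * (ENNReal.ofReal (2 ^ (m + 1)) * ∫⁻ x, ENNReal.ofReal (dH uF x)) :=
          mul_le_mul' le_rfl (mixed_mass hF hFinf hh hbot hhF)
      _ = _ := by rw [← mul_assoc, ← ENNReal.ofReal_mul hη.le]
  -- monotone exhaustion
  have hU : {x : Fin (m + 1) → ℂ | r ≤ ‖x‖} = ⋃ k : ℕ, {x | r ≤ ‖x‖ ∧ ‖x‖ ≤ (k : ℝ)} := by
    ext x
    simp only [Set.mem_ofPred_eq, Set.mem_iUnion]
    constructor
    · intro h
      obtain ⟨k, hk⟩ := exists_nat_ge ‖x‖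
      exact ⟨k, h, hk⟩
    · rintro ⟨k, h, -⟩
      exact h
  rw [hU, setLIntegral_iUnion_of_directed]
  swap
  · apply Monotone.directed_le
    intro k l hkl x hx
    exact ⟨hx.1, hx.2.trans (by exact_mod_cast hkl)⟩
  apply iSup_le
  intro k
  set B : Set (Fin (m + 1) → ℂ) := {x | r ≤ ‖x‖ ∧ ‖x‖ ≤ (k : ℝ)} with hB
  -- bound of φ₀ on the relevant compact annulus
  have hcompact := isCompact_annulus (n := m + 1) (r₁ / 2) (max r₁ k)
  have hφcont : ContinuousOn φ₀ {x | r₁ / 2 ≤ ‖x‖ ∧ ‖x‖ ≤ max r₁ (k : ℝ)} := by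
    apply hφ₀p.1.continuousOn.mono
    intro x hx h0
    rw [Set.mem_singleton_iff] at h0
    subst h0
    have := hx.1
    simp at this
    linarith
  obtain ⟨M₁, hM₁⟩ := (hcompact.image_of_continuousOn hφcont.abs).bddAbove
  have hM₁' : ∀ x : Fin (m + 1) → ℂ, r₁ / 2 ≤ ‖x‖ → ‖x‖ ≤ max r₁ (k : ℝ) → |φ₀ x| ≤ M₁ :=
    fun x hx hx' => hM₁ ⟨x, ⟨hx, hx'⟩, rfl⟩
  have hε₀ : 0 < η / (4 * (|M₁| + 1)) := by positivity
  refine le_trans ?_ hmass
  apply le_of_forall_eps (k := m + 1) hε₀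
  intro ε hε hεlt
  have hεM : ε * |M₁| ≤ η / 4 := by
    have h4 : ε * (4 * (|M₁| + 1)) < η := by
      rwa [lt_div_iff₀ (by positivity)] at hεlt
    nlinarith [abs_nonneg M₁]
  have hbd : ∀ x : Fin (m + 1) → ℂ, r₁ / 2 ≤ ‖x‖ → ‖x‖ ≤ max r₁ (k : ℝ) →
      |ε * φ₀ x| ≤ η / 4 := by
    intro x hx hx'
    rw [abs_mul, abs_of_pos hε]
    calc ε * |φ₀ x| ≤ ε * |M₁| :=
          mul_le_mul_of_nonneg_left ((hM₁' x hx hx').trans (le_abs_self _)) hε.le
      _ ≤ η / 4 := hεM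
  set φ : (Fin (m + 1) → ℂ) → ℝ := fun y => (1 + ε) * φ₀ y with hφ
  set Ω : Set (Fin (m + 1) → ℂ) := {x | r₁ / 2 < ‖x‖} with hΩ
  have hΩo : IsOpen Ω := isOpen_lt continuous_const continuous_norm
  have hΩs : Ω ⊆ {0}ᶜ := by
    intro x hx h0
    rw [Set.mem_singleton_iff] at h0
    subst h0
    simp [hΩ] at hx
    linarith
  have hφp : SPsh Ω φ := (hφ₀p.mono hΩs).const_mul hΩo (by linarith)
  -- behaviour at infinity
  obtain ⟨R₂, hR₂⟩ : ∃ R₂ : ℝ, ∀ x : Fin (m + 1) → ℂ, R₂ < ‖x‖ → r₁ / 2 ≤ ‖x‖ →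
      u x - φ x ≤ -(η / 4) := by
    have := hFinf.eventually (eventually_ge_atTop
      ((η / 4 + Cu + (1 + ε) * ((1 - η) * Ch + η * c₀)) / ε))
    obtain ⟨S, hS, hSf⟩ := mem_cocompact.mp this
    obtain ⟨R, hR⟩ := hS.isBounded.subset_closedBall 0
    refine ⟨R, ?_⟩
    intro x hx hx'
    have hxS : x ∈ Sᶜ := by
      intro hxS
      have := hR hxS
      simp at this
      linarith
    have h3 := hSf hxS
    simp only [Set.mem_ofPred_eq] at h3
    rw [div_le_iff₀ hε] at h3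
    have h4 := hhF' x hx'
    have h5 := (abs_le.mp (huF x)).2
    simp only [hφ, hφ₀]
    have h6 : (1 - η) * (uF x - Ch) ≤ (1 - η) * h x :=
      mul_le_mul_of_nonneg_left h4 (by linarith)
    have h7 : (1 + ε) * ((1 - η) * (uF x - Ch) + η * (uF x + -c₀)) ≤
        (1 + ε) * ((1 - η) * h x + η * (uF x + -c₀)) :=
      mul_le_mul_of_nonneg_left (by linarith) (by linarith)
    nlinarith
  set L : Set (Fin (m + 1) → ℂ) := {x | r₁ ≤ ‖x‖ ∧ ‖x‖ ≤ max R₂ (k : ℝ)} with hL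
  have hLc : IsCompact L := isCompact_annulus _ _
  have hLΩ : L ⊆ Ω := by
    intro x hx
    simp only [hΩ, Set.mem_ofPred_eq]
    linarith [hx.1]
  have hBL : B ⊆ L := by
    intro x hx
    exact ⟨by linarith [hx.1], hx.2.trans (le_max_right _ _)⟩
  have key := compare hΩo hLc hLΩ hφp (hu.mono (Set.subset_univ _)) (c := η / 4) (A := B)
    (by positivity) ?_ hBL (isCompact_annulus _ _).measurableSet ?_
  · refine key.trans ?_
    have e : ∀ x ∈ L, ENNReal.ofReal (dH φ x) =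
        ENNReal.ofReal ((1 + ε) ^ (m + 1)) * ENNReal.ofReal (dH φ₀ x) := by
      intro x hx
      rw [hφ, dH_const_mul (hφ₀p.contDiffAt hop (hΩs (hLΩ hx))),
        ENNReal.ofReal_mul (by positivity)]
    rw [setLIntegral_congr_fun hLc.measurableSet e, lintegral_const_mul' _ _ ENNReal.ofReal_ne_top]
    exact mul_le_mul' le_rfl (lintegral_mono_set (hLΩ.trans hΩs))
  · intro x hx
    have hx1 : r₁ / 2 < ‖x‖ := hx.1
    by_cases hx2 : r₁ ≤ ‖x‖
    · have hx3 : max R₂ (k : ℝ) < ‖x‖ := by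
        by_contra h
        exact hx.2 ⟨hx2, not_lt.mp h⟩
      exact hR₂ x (lt_of_le_of_lt (le_max_left _ _) hx3) hx1.le
    · push Not at hx2
      have h3 := h2 x hx1.le hx2.le
      have h4 := h2' x hx1.le hx2.le
      have h5 := hbd x hx1.le (hx2.le.trans (le_max_left _ _))
      have h6 := (abs_le.mp h5).1
      simp only [hφ]
      have h7 : φ₀ x ≥ h x + η := by
        simp only [hφ₀]
        nlinarith
      linarith
  · intro x hx
    have hx1 : r₁ / 2 ≤ ‖x‖ := by linarith [hx.1]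
    have h3 := h1 x hx.1
    have h4 := h1' x hx.1
    have h5 := hbd x hx1 (hx.2.trans (le_max_right _ _))
    have h6 := (abs_le.mp h5).2
    simp only [hφ]
    have h7 : φ₀ x ≤ h x - η := by
      simp only [hφ₀]
      nlinarith
    linarith

end Pool.Agent.Helper853
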