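import Pool.Agent.Helper853.GreenDefs

open scoped Topology ContDiff
open MeasureTheory Filter

namespace Pool.Agent.Helper853

variable {n : ℕ}

section basic

lemma dz_congr {f g : (Fin n → ℂ) → ℂ} {x : Fin n → ℂ} (h : f =ᶠ[𝓝 x] g) (i : Fin n) :
    dz i f x = dz i g x := by
  unfold dz
  rw [h.fderiv_eq]

lemma dzbar_congr {f g : (Fin n → ℂ) → ℂ} {x : Fin n → ℂ} (h : f =ᶠ[𝓝 x] g) (i : Fin n) :
    dzbar i f x = dzbar i g x := by
  unfold dzbar
  rw [h.fderiv_eq]

lemma dzbar_congr' {f g : (Fin n → ℂ) → ℂ} {x : Fin n → ℂ} (h : f =ᶠ[𝓝 x] g) (i : Fin n) :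
    dzbar i f =ᶠ[𝓝 x] dzbar i g := by
  filter_upwards [h.eventually_nhds] with y hy
  exact dzbar_congr hy i

lemma cHess_congr {u v : (Fin n → ℂ) → ℝ} {x : Fin n → ℂ} (h : u =ᶠ[𝓝 x] v) :
    cHess u x = cHess v x := by
  ext i j
  simp only [cHess, Matrix.of_apply]
  apply dz_congr
  apply dzbar_congr'
  filter_upwards [h] with y hy
  rw [hy]

lemma maDensity_congr {u v : (Fin n → ℂ) → ℝ} {x : Fin n → ℂ} (h : u =ᶠ[𝓝 x] v) :
    maDensity u x = maDensity v x := by
  unfold maDensity
  rw [cHess_congr h]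

lemma contDiff_dz {f : (Fin n → ℂ) → ℂ} (hf : ContDiff ℝ ∞ f) (i : Fin n) :
    ContDiff ℝ ∞ (dz i f) := by
  unfold dz
  have h : ContDiff ℝ ∞ (fderiv ℝ f) := hf.fderiv_right (by simp)
  fun_prop

lemma contDiff_dzbar {f : (Fin n → ℂ) → ℂ} (hf : ContDiff ℝ ∞ f) (i : Fin n) :
    ContDiff ℝ ∞ (dzbar i f) := by
  unfold dzbar
  have h : ContDiff ℝ ∞ (fderiv ℝ f) := hf.fderiv_right (by simp)
  fun_prop

lemma hasCompactSupport_dz {f : (Fin n → ℂ) → ℂ} (hf : HasCompactSupport f) (i : Fin n) :
    HasCompactSupport (dz i f) := by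
  have h := hf.fderiv (𝕜 := ℝ)
  refine h.mono' ?_
  intro x hx
  apply subset_closure
  simp only [Function.mem_support, ne_eq] at hx ⊢
  intro h0
  apply hx
  simp [dz, h0]

lemma hasCompactSupport_dzbar {f : (Fin n → ℂ) → ℂ} (hf : HasCompactSupport f) (i : Fin n) :
    HasCompactSupport (dzbar i f) := by
  have h := hf.fderiv (𝕜 := ℝ)
  refine h.mono' ?_
  intro x hx
  apply subset_closure
  simp only [Function.mem_support, ne_eq] at hx ⊢
  intro h0
  apply hx
  simp [dzbar, h0]

/-- The integral of a derivative of a compactly supported function vanishes. -/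
lemma integral_dz_eq_zero {f : (Fin n → ℂ) → ℂ} (hf : ContDiff ℝ ∞ f) (hc : HasCompactSupport f)
    (i : Fin n) : ∫ x, dz i f x = 0 := by
  have key : ∀ v : Fin n → ℂ, ∫ x, fderiv ℝ f x v = 0 := by
    intro v
    have hcont : Continuous fun x => fderiv ℝ f x v := by
      have h : ContDiff ℝ ∞ (fderiv ℝ f) := hf.fderiv_right (by simp)
      exact (h.continuous).clm_apply continuous_const
    have hcs : HasCompactSupport fun x => fderiv ℝ f x v := by
      refine (hc.fderiv (𝕜 := ℝ)).mono' ?_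
      intro x hx
      apply subset_closure
      simp only [Function.mem_support, ne_eq] at hx ⊢
      intro h0
      apply hx
      simp [h0]
    have := integral_mul_fderiv_eq_neg_fderiv_mul_of_integrable (μ := (volume : Measure (Fin n → ℂ)))
      (f := fun _ => (1 : ℂ)) (g := f) (v := v) (by simp)
      (by simpa using hcont.integrable_of_hasCompactSupport hcs)
      (by simpa using hf.continuous.integrable_of_hasCompactSupport hc)
      (by intro x _; exact differentiableAt_const _)
      (by intro x _; exact (hf.differentiable (by simp)).differentiableAt)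
    simpa using this
  have hcont : ∀ v : Fin n → ℂ, Integrable fun x => fderiv ℝ f x v := by
    intro v
    have hcont : Continuous fun x => fderiv ℝ f x v := by
      have h : ContDiff ℝ ∞ (fderiv ℝ f) := hf.fderiv_right (by simp)
      exact (h.continuous).clm_apply continuous_const
    have hcs : HasCompactSupport fun x => fderiv ℝ f x v := by
      refine (hc.fderiv (𝕜 := ℝ)).mono' ?_
      intro x hx
      apply subset_closure
      simp only [Function.mem_support, ne_eq] at hx ⊢
      intro h0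
      apply hx
      simp [h0]
    exact hcont.integrable_of_hasCompactSupport hcs
  unfold dz
  rw [integral_const_mul, integral_sub (hcont _) ((hcont _).const_mul _), integral_const_mul,
    key, key]
  simp

end basic

section second

lemma fderiv_fderiv_apply {F : Type*} [NormedAddCommGroup F] [NormedSpace ℝ F]
    {f : (Fin n → ℂ) → F} {x : Fin n → ℂ}
    (hf : ContDiffAt ℝ 2 f x) (v w : Fin n → ℂ) :
    fderiv ℝ (fun y => fderiv ℝ f y w) x v = fderiv ℝ (fderiv ℝ f) x v w := by
  have h1 : DifferentiableAt ℝ (fderiv ℝ f) x := by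
    have : ContDiffAt ℝ 1 (fderiv ℝ f) x := hf.fderiv_right (by norm_num)
    exact this.differentiableAt (by norm_num)
  have h2 := h1.hasFDerivAt.clm_apply (hasFDerivAt_const w x)
  rw [h2.fderiv]
  simp

lemma snd_symm {F : Type*} [NormedAddCommGroup F] [NormedSpace ℝ F]
    {f : (Fin n → ℂ) → F} {x : Fin n → ℂ}
    (hf : ContDiffAt ℝ 2 f x) (v w : Fin n → ℂ) :
    fderiv ℝ (fderiv ℝ f) x v w = fderiv ℝ (fderiv ℝ f) x w v :=
  (hf.isSymmSndFDerivAt (by simp)).eq v w

lemma fderiv_dz {f : (Fin n → ℂ) → ℂ} {x : Fin n → ℂ} (hf : ContDiffAt ℝ 2 f x) (i : Fin n)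
    (v : Fin n → ℂ) :
    fderiv ℝ (dz i f) x v = (1 / 2) * (fderiv ℝ (fderiv ℝ f) x v (Pi.single i 1)
      - Complex.I * fderiv ℝ (fderiv ℝ f) x v (Pi.single i Complex.I)) := by
  have hd : ∀ w : Fin n → ℂ, DifferentiableAt ℝ (fun y => fderiv ℝ f y w) x := by
    intro w
    have h1 : DifferentiableAt ℝ (fderiv ℝ f) x := by
      have : ContDiffAt ℝ 1 (fderiv ℝ f) x := hf.fderiv_right (by norm_num)
      exact this.differentiableAt (by norm_num)
    exact h1.clm_apply (differentiableAt_const _)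
  have : fderiv ℝ (dz i f) x = (1 / 2 : ℂ) • (fderiv ℝ (fun y => fderiv ℝ f y (Pi.single i 1)) x
      - Complex.I • fderiv ℝ (fun y => fderiv ℝ f y (Pi.single i Complex.I)) x) := by
    unfold dz
    rw [fderiv_const_mul, fderiv_fun_sub, fderiv_const_mul]
    · exact hd _
    · exact hd _
    · exact (hd _).const_mul _
    · exact (hd _).sub ((hd _).const_mul _)
  rw [this]
  simp only [_root_.smul_apply, _root_.sub_apply, smul_eq_mul]
  rw [fderiv_fderiv_apply hf, fderiv_fderiv_apply hf]

lemma fderiv_dzbar {f : (Fin n → ℂ) → ℂ} {x : Fin n → ℂ} (hf : ContDiffAt ℝ 2 f x) (i : Fin n)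
    (v : Fin n → ℂ) :
    fderiv ℝ (dzbar i f) x v = (1 / 2) * (fderiv ℝ (fderiv ℝ f) x v (Pi.single i 1)
      + Complex.I * fderiv ℝ (fderiv ℝ f) x v (Pi.single i Complex.I)) := by
  have hd : ∀ w : Fin n → ℂ, DifferentiableAt ℝ (fun y => fderiv ℝ f y w) x := by
    intro w
    have h1 : DifferentiableAt ℝ (fderiv ℝ f) x := by
      have : ContDiffAt ℝ 1 (fderiv ℝ f) x := hf.fderiv_right (by norm_num)
      exact this.differentiableAt (by norm_num)
    exact h1.clm_apply (differentiableAt_const _)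
  have : fderiv ℝ (dzbar i f) x = (1 / 2 : ℂ) • (fderiv ℝ (fun y => fderiv ℝ f y (Pi.single i 1)) x
      + Complex.I • fderiv ℝ (fun y => fderiv ℝ f y (Pi.single i Complex.I)) x) := by
    unfold dzbar
    rw [fderiv_const_mul, fderiv_fun_add, fderiv_const_mul]
    · exact hd _
    · exact hd _
    · exact (hd _).const_mul _
    · exact (hd _).add ((hd _).const_mul _)
  rw [this]
  simp only [_root_.smul_apply, _root_.add_apply, smul_eq_mul]
  rw [fderiv_fderiv_apply hf, fderiv_fderiv_apply hf]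

lemma dz_comm {f : (Fin n → ℂ) → ℂ} (hf : ContDiff ℝ ∞ f) (i j : Fin n) (x : Fin n → ℂ) :
    dz i (dz j f) x = dz j (dz i f) x := by
  have h2 : ContDiffAt ℝ 2 f x := (hf.of_le ENat.LEInfty.out).contDiffAt
  conv_lhs => unfold dz
  conv_rhs => unfold dz
  change (1 / 2) * (fderiv ℝ (dz j f) x (Pi.single i 1) - Complex.I *
      fderiv ℝ (dz j f) x (Pi.single i Complex.I)) =
    (1 / 2) * (fderiv ℝ (dz i f) x (Pi.single j 1) - Complex.I *
      fderiv ℝ (dz i f) x (Pi.single j Complex.I))
  rw [fderiv_dz h2, fderiv_dz h2, fderiv_dz h2, fderiv_dz h2]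
  rw [snd_symm h2 (Pi.single i 1) (Pi.single j 1), snd_symm h2 (Pi.single i 1) (Pi.single j Complex.I),
    snd_symm h2 (Pi.single i Complex.I) (Pi.single j 1),
    snd_symm h2 (Pi.single i Complex.I) (Pi.single j Complex.I)]
  ring

lemma dz_mul {f g : (Fin n → ℂ) → ℂ} {x : Fin n → ℂ} (hf : DifferentiableAt ℝ f x)
    (hg : DifferentiableAt ℝ g x) (i : Fin n) :
    dz i (fun y => f y * g y) x = dz i f x * g x + f x * dz i g x := by
  unfold dz
  rw [(hf.hasFDerivAt.fun_mul hg.hasFDerivAt).fderiv]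
  simp only [_root_.add_apply, _root_.smul_apply, smul_eq_mul]
  ring

lemma dz_prod {ι : Type*} [DecidableEq ι] (s : Finset ι) {g : ι → (Fin n → ℂ) → ℂ}
    {x : Fin n → ℂ} (hg : ∀ k ∈ s, DifferentiableAt ℝ (g k) x) (i : Fin n) :
    dz i (fun y => ∏ k ∈ s, g k y) x = ∑ m ∈ s, dz i (g m) x * ∏ k ∈ s.erase m, g k x := by
  unfold dz
  rw [(HasFDerivAt.finsetProd (u := s) fun k hk => (hg k hk).hasFDerivAt).fderiv]
  simp only [_root_.sum_apply, _root_.smul_apply, smul_eq_mul]
  rw [Finset.mul_sum, ← Finset.sum_sub_distrib, Finset.mul_sum]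
  apply Finset.sum_congr rfl
  intro m _
  ring

end second

section stokes

/-- The null-Lagrangian property: the Wirtinger Jacobian determinant of functions one of which
has compact support integrates to zero. -/
theorem integral_det_dz_eq_zero {m : ℕ} {F : Fin (m + 1) → (Fin (m + 1) → ℂ) → ℂ}
    (hF : ∀ k, ContDiff ℝ ∞ (F k)) (hc : HasCompactSupport (F 0)) :
    ∫ x, (Matrix.of fun l k => dz l (F k) x).det = 0 := by
  classical
  -- the potentials
  set h : Equiv.Perm (Fin (m + 1)) → (Fin (m + 1) → ℂ) → ℂ := fun σ x =>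
    F 0 x * ∏ k : Fin m, dz (σ k.succ) (F k.succ) x with hh
  have hsm : ∀ σ, ContDiff ℝ ∞ (h σ) := by
    intro σ
    refine (hF 0).mul ?_
    apply contDiff_prod
    intro k _
    exact contDiff_dz (hF _) _
  have hcs : ∀ σ, HasCompactSupport (h σ) := fun σ => hc.mul_right
  have hpt : ∀ x, (Matrix.of fun l k => dz l (F k) x).det
      = ∑ σ : Equiv.Perm (Fin (m + 1)), ((Equiv.Perm.sign σ : ℤ) : ℂ) * dz (σ 0) (h σ) x := by
    intro x
    have h1 : ∀ σ : Equiv.Perm (Fin (m + 1)), dz (σ 0) (h σ) x =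
        dz (σ 0) (F 0) x * ∏ k : Fin m, dz (σ k.succ) (F k.succ) x +
        F 0 x * ∑ j : Fin m, dz (σ 0) (dz (σ j.succ) (F j.succ)) x *
          ∏ k ∈ Finset.univ.erase j, dz (σ k.succ) (F k.succ) x := by
      intro σ
      rw [hh]
      rw [dz_mul ((hF 0).differentiable (by simp)).differentiableAt]
      · rw [dz_prod]
        intro k _
        exact ((contDiff_dz (hF _) _).differentiable (by simp)).differentiableAt
      · have hcd : ContDiff ℝ ∞ fun x => ∏ k : Fin m, dz (σ k.succ) (F k.succ) x := by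
          apply contDiff_prod
          intro k _
          exact contDiff_dz (hF _) _
        exact (hcd.differentiable (by simp)).differentiableAt
    simp_rw [h1, mul_add, Finset.sum_add_distrib]
    have h2 : ∑ σ : Equiv.Perm (Fin (m + 1)), ((Equiv.Perm.sign σ : ℤ) : ℂ) *
        (F 0 x * ∑ j : Fin m, dz (σ 0) (dz (σ j.succ) (F j.succ)) x *
          ∏ k ∈ Finset.univ.erase j, dz (σ k.succ) (F k.succ) x) = 0 := by
      simp_rw [Finset.mul_sum]
      rw [Finset.sum_comm]
      apply Finset.sum_eq_zero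
      intro j _
      set T : Equiv.Perm (Fin (m + 1)) → ℂ := fun σ => F 0 x *
        (dz (σ 0) (dz (σ j.succ) (F j.succ)) x *
          ∏ k ∈ Finset.univ.erase j, dz (σ k.succ) (F k.succ) x) with hT
      have hTs : ∀ σ, T (σ * Equiv.swap 0 j.succ) = T σ := by
        intro σ
        simp only [hT, Equiv.Perm.mul_apply, Equiv.swap_apply_left, Equiv.swap_apply_right]
        rw [dz_comm (hF _)]
        congr 2
        apply Finset.prod_congr rfl
        intro k hk
        rw [Finset.mem_erase] at hk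
        rw [Equiv.swap_apply_of_ne_of_ne (Fin.succ_ne_zero k)]
        intro h'
        exact hk.1 (Fin.succ_injective _ h')
      have e1 : ∑ σ : Equiv.Perm (Fin (m + 1)), ((Equiv.Perm.sign σ : ℤ) : ℂ) * T σ =
          ∑ σ : Equiv.Perm (Fin (m + 1)),
            ((Equiv.Perm.sign (σ * Equiv.swap 0 j.succ) : ℤ) : ℂ) *
              T (σ * Equiv.swap 0 j.succ) :=
        (Equiv.sum_comp (Equiv.mulRight (Equiv.swap 0 j.succ))
          (fun σ : Equiv.Perm (Fin (m + 1)) => ((Equiv.Perm.sign σ : ℤ) : ℂ) * T σ)).symm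
      have e2 : ∀ σ : Equiv.Perm (Fin (m + 1)),
          ((Equiv.Perm.sign (σ * Equiv.swap 0 j.succ) : ℤ) : ℂ) *
              T (σ * Equiv.swap 0 j.succ) = - (((Equiv.Perm.sign σ : ℤ) : ℂ) * T σ) := by
        intro σ
        rw [hTs, Equiv.Perm.sign_mul, Equiv.Perm.sign_swap (Fin.succ_ne_zero j).symm]
        simp
      simp_rw [e2, Finset.sum_neg_distrib] at e1
      have e3 := self_eq_neg.mp e1
      exact e3
    rw [h2, add_zero, Matrix.det_apply']
    apply Finset.sum_congr rfl
    intro σ _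
    rw [Fin.prod_univ_succ]
    simp
  simp_rw [hpt]
  rw [integral_finsetSum]
  · apply Finset.sum_eq_zero
    intro σ _
    rw [integral_const_mul, integral_dz_eq_zero (hsm σ) (hcs σ), mul_zero]
  · intro σ _
    apply Integrable.const_mul
    exact (contDiff_dz (hsm σ) _).continuous.integrable_of_hasCompactSupport
      (hasCompactSupport_dz (hcs σ) _)

/-- For a compactly supported smooth real function on `ℂ^n`, `n ≥ 1`, the determinant of the
complex Hessian integrates to zero. -/
theorem integral_det_cHess_eq_zero {m : ℕ} {v : (Fin (m + 1) → ℂ) → ℝ} (hv : ContDiff ℝ ∞ v)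
    (hc : HasCompactSupport v) : ∫ x, (cHess v x).det = 0 := by
  have hv' : ContDiff ℝ ∞ fun y => (v y : ℂ) := Complex.ofRealCLM.contDiff.comp hv
  have hc' : HasCompactSupport fun y => (v y : ℂ) := by
    apply hc.comp_left (g := fun t : ℝ => (t : ℂ)) (by simp)
  exact integral_det_dz_eq_zero (F := fun j => dzbar j fun y => (v y : ℂ))
    (fun k => contDiff_dzbar hv' k) (hasCompactSupport_dzbar hc' 0)

end stokes

end Pool.Agent.Helper853
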